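import Pool.Agent.Lib.MP_d55432_al.H66.Image
import Pool.Agent.Lib.MP_d55432_al.Sp4Dichotomy
import Pool.Agent.Lib.MP_d55432_al.DenseMain

/-!
# A non-dense invariant subset of `sp₄` satisfies a relation between the two basic invariants
-/

namespace Pool.Agent.Lib.MP_d55432_al.H66

open Matrix LieAlgebra MvPolynomial
open Pool.Agent.Lib.MP_d55432_al.Sp4 (spM vM sS wS qS spM_sq vM_sq exists_spM spM_mem trace_vM)
open Pool.Agent.Lib.MP_d55432_al.DetTrick (polyAlg mem_polyAlg)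

attribute [local instance 100] LieRing.ofAssociativeRing

variable {K : Type*} [Field K]

/-- The coordinates as a linear map. -/
def spLin (K : Type*) [Field K] : (Fin 10 → K) →ₗ[K] LieAlgebra.Symplectic.sp (Fin 2) K where
  toFun f := ⟨spM f, spM_mem f⟩
  map_add' f g := Subtype.ext (spM_add f g)
  map_smul' c f := by
    apply Subtype.ext
    change spM (c • f) = c • spM f
    ext (i | i) (j | j) <;> fin_cases i <;> fin_cases j <;> simp [spM] <;> ring

theorem exists_spLin [CharZero K] (X : LieAlgebra.Symplectic.sp (Fin 2) K) :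
    ∃ f, spLin K f = X := by
  have hh : (2 : K) * (1 / 2) = 1 := by norm_num
  obtain ⟨f, hf⟩ := exists_spM _ hh X.1 X.2
  exact ⟨f, Subtype.ext hf.symm⟩

theorem linear_mem_polyAlg {σ : Type*} [Fintype σ] [DecidableEq σ] (φ : (σ → K) →ₗ[K] K) :
    (fun x => φ x) ∈ polyAlg σ K := by
  refine (mem_polyAlg _).2 ⟨∑ i, C (φ (Pi.single i 1)) * X i, fun x => ?_⟩
  rw [map_sum]
  simp only [map_mul, eval_C, eval_X]
  conv_lhs => rw [← Finset.univ_sum_single x]
  rw [map_sum]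
  refine Finset.sum_congr rfl fun i _ => ?_
  have : (Pi.single i (x i) : σ → K) = x i • Pi.single i 1 := by
    rw [← Pi.single_smul, smul_eq_mul, mul_one]
  rw [this, map_smul, smul_eq_mul, mul_comm]

theorem exists_poly_linear {σ : Type*} [Fintype σ] [DecidableEq σ] {L : Type*} [LieRing L]
    [LieAlgebra K L] (F : (σ → K) →ₗ[K] L) {g : L → K} (hg : g ∈ PolyOn K L) :
    ∃ P : MvPolynomial σ K, ∀ x, g (F x) = eval x P := by
  have h := polyOn_comp K (polyAlg σ K) (fun x => F x)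
    (fun ψ => linear_mem_polyAlg (ψ ∘ₗ F)) hg
  exact (mem_polyAlg _).1 h

/-- The torus as a linear map. -/
def tLin (K : Type*) [Field K] : (Fin 2 → K) →ₗ[K] LieAlgebra.Symplectic.sp (Fin 2) K where
  toFun x := tL (x 0) (x 1)
  map_add' x y := by
    apply Subtype.ext
    change tM _ _ = tM _ _ + tM _ _
    ext (i | i) (j | j) <;> fin_cases i <;> fin_cases j <;>
      simp [tM] <;> ring
  map_smul' c x := by
    apply Subtype.ext
    change tM _ _ = c • tM _ _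
    ext (i | i) (j | j) <;> fin_cases i <;> fin_cases j <;> simp [tM]

/-- The substitution expressing the invariants on the torus. -/
noncomputable def psi (K : Type*) [Field K] :
    MvPolynomial (Fin 2) K →ₐ[K] MvPolynomial (Fin 2) K :=
  aeval ![C (1 / 2) * (X 0 ^ 2 + X 1 ^ 2), (C (1 / 2) * (X 0 ^ 2 - X 1 ^ 2)) ^ 2]

theorem psi_X0 : psi K (X 0) = C (1 / 2) * (X 0 ^ 2 + X 1 ^ 2) := by
  rw [psi, aeval_X]; rfl

theorem psi_X1 : psi K (X 1) = (C (1 / 2) * (X 0 ^ 2 - X 1 ^ 2)) ^ 2 := by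
  rw [psi, aeval_X]; rfl

theorem psi_integral [CharZero K] : (psi K).toRingHom.IsIntegral := by
  have hC : (C (1 / 2) : MvPolynomial (Fin 2) K) * 2 = 1 := by
    have : (2 : MvPolynomial (Fin 2) K) = C 2 := (map_ofNat C 2).symm
    rw [this, ← C_mul, ← C_1]
    congr 1
    norm_num
  have hroot : ∀ i : Fin 2, (psi K).toRingHom.IsIntegralElem (X i) := by
    intro i
    refine ⟨(Polynomial.X ^ 2 - Polynomial.C (X 0)) ^ 2 - Polynomial.C (X 1), ?_, ?_⟩
    · have h1 : (Polynomial.X ^ 2 - Polynomial.C (X 0 : MvPolynomial (Fin 2) K)).Monic :=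
        Polynomial.monic_X_pow_sub_C _ (by norm_num)
      have h2 := h1.pow 2
      apply h2.sub_of_left
      have h3 : ((Polynomial.X ^ 2 - Polynomial.C (X 0 : MvPolynomial (Fin 2) K)) ^ 2).degree =
          4 := by
        rw [Polynomial.degree_pow, Polynomial.degree_X_pow_sub_C (by norm_num)]
        rfl
      rw [h3]
      exact lt_of_le_of_lt Polynomial.degree_C_le (by norm_num)
    · have h1 : (psi K).toRingHom (X 0) = C (1 / 2) * (X 0 ^ 2 + X 1 ^ 2) := psi_X0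
      have h2 : (psi K).toRingHom (X 1) = (C (1 / 2) * (X 0 ^ 2 - X 1 ^ 2)) ^ 2 := psi_X1
      simp only [Polynomial.eval₂_sub, Polynomial.eval₂_pow, Polynomial.eval₂_X,
        Polynomial.eval₂_C, h1, h2]
      fin_cases i
      · simp only [Fin.zero_eta]
        have h3 : (X 0 : MvPolynomial (Fin 2) K) ^ 2 - C (1 / 2) * (X 0 ^ 2 + X 1 ^ 2) =
            C (1 / 2) * (X 0 ^ 2 - X 1 ^ 2) := by
          linear_combination (-X 0 ^ 2 : MvPolynomial (Fin 2) K) * hC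
        rw [h3, sub_self]
      · simp only [Fin.mk_one]
        have h3 : (X 1 : MvPolynomial (Fin 2) K) ^ 2 - C (1 / 2) * (X 0 ^ 2 + X 1 ^ 2) =
            -(C (1 / 2) * (X 0 ^ 2 - X 1 ^ 2)) := by
          linear_combination (-X 1 ^ 2 : MvPolynomial (Fin 2) K) * hC
        rw [h3, neg_sq, sub_self]
  intro p
  induction p using MvPolynomial.induction_on with
  | C a =>
    have h1 := (psi K).toRingHom.isIntegralElem_map (x := C a)
    have h2 : (psi K).toRingHom (C a) = C a := (psi K).commutes a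
    rwa [h2] at h1
  | add p q hp hq => exact RingHom.IsIntegralElem.add _ hp hq
  | mul_X p i hp => exact RingHom.IsIntegralElem.mul _ hp (hroot i)

theorem exists_norm [CharZero K] (G : MvPolynomial (Fin 2) K) (hG : G ≠ 0) :
    ∃ Φ, Φ ≠ 0 ∧ G ∣ psi K Φ := by
  have h1 := @Ideal.comap_ne_bot_of_integral_mem (MvPolynomial (Fin 2) K) _
    (MvPolynomial (Fin 2) K) _ (Ideal.span {G}) (psi K).toRingHom.toAlgebra _ _ G hG
    (Ideal.mem_span_singleton_self G) (psi_integral G)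
  obtain ⟨Φ, hΦ, hΦ0⟩ := Submodule.exists_mem_ne_zero_of_ne_bot h1
  exact ⟨Φ, hΦ0, Ideal.mem_span_singleton.1 (Ideal.mem_comap.1 hΦ)⟩

/-- The two invariants in coordinates. -/
theorem eval_psi (Φ : MvPolynomial (Fin 2) K) (x : Fin 2 → K) :
    eval x (psi K Φ) =
      eval ![1 / 2 * (x 0 ^ 2 + x 1 ^ 2), (1 / 2 * (x 0 ^ 2 - x 1 ^ 2)) ^ 2] Φ := by
  rw [psi, aeval_def, eval₂_eq', map_sum, MvPolynomial.eval_eq']
  refine Finset.sum_congr rfl fun d _ => ?_
  rw [map_mul, map_prod]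
  congr 1
  · exact eval_C _
  · refine Finset.prod_congr rfl fun i _ => ?_
    rw [map_pow]
    congr 1
    fin_cases i <;> simp

theorem regular_frame [CharZero K] [IsAlgClosed K] (f : Fin 10 → K) (hq : qS (wS f) ≠ 0)
    (hd : sS f ^ 2 - qS (wS f) ≠ 0) : ∃ (x y : K)
      (φ : LieAlgebra.Symplectic.sp (Fin 2) K ≃ₗ⁅K⁆ LieAlgebra.Symplectic.sp (Fin 2) K),
      φ (tL x y) = spLin K f ∧ sS f = 1 / 2 * (x ^ 2 + y ^ 2) ∧
      qS (wS f) = (1 / 2 * (x ^ 2 - y ^ 2)) ^ 2 := by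
  obtain ⟨ρ, hρ⟩ := IsAlgClosed.exists_pow_nat_eq (qS (wS f)) (n := 2) (by norm_num)
  obtain ⟨x, hx⟩ := IsAlgClosed.exists_pow_nat_eq (sS f + ρ) (n := 2) (by norm_num)
  obtain ⟨y, hy⟩ := IsAlgClosed.exists_pow_nat_eq (sS f - ρ) (n := 2) (by norm_num)
  have hρ0 : ρ ≠ 0 := by
    rintro rfl
    apply hq
    rw [← hρ]; ring
  have hprod : (x * y) ^ 2 = sS f ^ 2 - qS (wS f) := by
    rw [mul_pow, hx, hy, ← hρ]; ring
  have hxy : x * y ≠ 0 := by
    intro h
    apply hd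
    rw [← hprod, h]; ring
  obtain ⟨hx0, hy0⟩ := mul_ne_zero_iff.1 hxy
  have hW : (spLin K f).1 * (spLin K f).1 - sS f • (1 : Matrix N4 N4 K) = vM (wS f) := by
    change spM f * spM f - _ = _
    rw [spM_sq]; abel
  obtain ⟨φ, hφ⟩ := exists_frame_reg (spLin K f) (sS f) ρ x y hρ0 hx0 hy0 hx hy
    (by rw [hW, trace_vM]) (by rw [hW, vM_sq, hρ])
  refine ⟨x, y, φ, hφ, ?_, ?_⟩
  · rw [hx, hy]; ring
  · rw [hx, hy, ← hρ]; ring

/-- The invariants as polynomials. -/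
theorem eval_sS {τ : Type*} (F : Fin 10 → MvPolynomial τ K) (v : τ → K) :
    eval v (sS F) = sS (fun k => eval v (F k)) := by
  simp [sS]

theorem eval_wS {τ : Type*} (F : Fin 10 → MvPolynomial τ K) (v : τ → K) (l : Fin 5) :
    eval v (wS F l) = wS (fun k => eval v (F k)) l := by
  fin_cases l <;> simp [wS]

theorem eval_qS {τ : Type*} (F : Fin 10 → MvPolynomial τ K) (v : τ → K) :
    eval v (qS (wS F)) = qS (wS (fun k => eval v (F k))) := by
  simp only [qS, map_add, map_sub, map_pow, eval_wS]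

theorem relation [CharZero K] [IsAlgClosed K] (S : Set (LieAlgebra.Symplectic.sp (Fin 2) K))
    (hS : ∀ φ : LieAlgebra.Symplectic.sp (Fin 2) K ≃ₗ⁅K⁆ LieAlgebra.Symplectic.sp (Fin 2) K,
      ∀ X ∈ S, φ X ∈ S) (g : LieAlgebra.Symplectic.sp (Fin 2) K → K)
    (hg : g ∈ PolyOn K (LieAlgebra.Symplectic.sp (Fin 2) K)) (hgS : ∀ X ∈ S, g X = 0)
    (Y : LieAlgebra.Symplectic.sp (Fin 2) K) (hgY : g Y ≠ 0) :
    ∃ Φ : MvPolynomial (Fin 2) K, Φ ≠ 0 ∧ ∀ f, spLin K f ∈ S →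
      eval ![sS f, qS (wS f)] Φ = 0 := by
  -- a regular point where `g` does not vanish
  obtain ⟨P, hP⟩ := exists_poly_linear (spLin K) hg
  obtain ⟨f₀, hf₀⟩ := exists_spLin Y
  have hP0 : P ≠ 0 := by
    rintro rfl
    apply hgY
    rw [← hf₀, hP, map_zero]
  let D : MvPolynomial (Fin 10) K := qS (wS X) * (sS X ^ 2 - qS (wS X))
  have hD : ∀ f, eval f D = qS (wS f) * (sS f ^ 2 - qS (wS f)) := by
    intro f
    simp only [D, map_mul, map_sub, map_pow, eval_sS, eval_qS, eval_X]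
  have hD0 : D ≠ 0 := by
    intro h
    have h1 := hD ![2, 1, 0, 0, 0, 0, 0, 0, 0, 0]
    rw [h, map_zero] at h1
    simp [qS, wS, sS] at h1
    norm_num at h1
  obtain ⟨f₁, hf₁⟩ : ∃ f, eval f (P * D) ≠ 0 := by
    by_contra hcon
    push Not at hcon
    exact mul_ne_zero hP0 hD0 (MvPolynomial.funext fun f => by rw [hcon, map_zero])
  rw [map_mul, hD] at hf₁
  obtain ⟨h1, h2⟩ := mul_ne_zero_iff.1 hf₁
  obtain ⟨h3, h4⟩ := mul_ne_zero_iff.1 h2
  obtain ⟨x₀, y₀, θ, hθ, _, _⟩ := regular_frame f₁ h3 h4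
  -- the restriction to a torus
  obtain ⟨G, hG⟩ := exists_poly_linear
    ((θ.toLinearEquiv : LieAlgebra.Symplectic.sp (Fin 2) K →ₗ[K] _) ∘ₗ tLin K) hg
  have hG' : ∀ x y : K, g (θ (tL x y)) = eval ![x, y] G := fun x y => hG ![x, y]
  have hG0 : G ≠ 0 := by
    rintro rfl
    apply h1
    rw [← hP, ← hθ, hG', map_zero]
  obtain ⟨Φ₀, hΦ₀, hdvd⟩ := exists_norm G hG0
  refine ⟨Φ₀ * (X 1 * (X 0 ^ 2 - X 1)), ?_, ?_⟩
  · refine mul_ne_zero hΦ₀ (mul_ne_zero (X_ne_zero 1) ?_)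
    intro h
    have h5 := congrArg (eval ![(1 : K), 0]) h
    simp at h5
  · intro f hf
    rw [map_mul]
    by_cases h5 : qS (wS f) = 0
    · simp [h5]
    by_cases h6 : sS f ^ 2 - qS (wS f) = 0
    · simp [h6]
    obtain ⟨x, y, φ, hφ, hs, hq⟩ := regular_frame f h5 h6
    have h7 : tL x y ∈ S := by
      have := hS φ.symm _ hf
      rwa [← hφ, LieEquiv.symm_apply_apply] at this
    have h8 : eval ![x, y] G = 0 := by
      rw [← hG']
      exact hgS _ (hS θ _ h7)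
    have h9 : eval ![x, y] (psi K Φ₀) = 0 := by
      obtain ⟨R, hR⟩ := hdvd
      rw [hR, map_mul, h8, zero_mul]
    rw [eval_psi] at h9
    have h10 : ![1 / 2 * ((![x, y] : Fin 2 → K) 0 ^ 2 + (![x, y] : Fin 2 → K) 1 ^ 2),
        (1 / 2 * ((![x, y] : Fin 2 → K) 0 ^ 2 - (![x, y] : Fin 2 → K) 1 ^ 2)) ^ 2] =
        ![sS f, qS (wS f)] := by
      rw [hs, hq]; rfl
    rw [h10] at h9
    rw [h9, zero_mul]

end Pool.Agent.Lib.MP_d55432_al.H66
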