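import Pool.Agent.Lib.MP_d55432_al.H66.Traces
import Pool.Agent.Lib.MP_d55432_al.Basic
import Pool.Agent.Lib.MP_d55432_al.Sp4

/-!
# The multilinear map `[a ∘ b, c ∘ d]` on the symplectic Lie algebra
-/

namespace Pool.Agent.Lib.MP_d55432_al.H66

open Matrix LieAlgebra

attribute [local instance 100] LieRing.ofAssociativeRing

variable {l : Type*} [Fintype l] [DecidableEq l] {K : Type*} [Field K]

/-- `[a ∘ b, c ∘ d]` with `a ∘ b = a b + b a`. -/
def acc (a b c d : Matrix (l ⊕ l) (l ⊕ l) K) : Matrix (l ⊕ l) (l ⊕ l) K :=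
  (a * b + b * a) * (c * d + d * c) - (c * d + d * c) * (a * b + b * a)

theorem acc_mem {a b c d : Matrix (l ⊕ l) (l ⊕ l) K} (ha : a ∈ LieAlgebra.Symplectic.sp l K)
    (hb : b ∈ LieAlgebra.Symplectic.sp l K) (hc : c ∈ LieAlgebra.Symplectic.sp l K)
    (hd : d ∈ LieAlgebra.Symplectic.sp l K) : acc a b c d ∈ LieAlgebra.Symplectic.sp l K := by
  apply mem_sp_of_transpose
  have h : ∀ a b : Matrix (l ⊕ l) (l ⊕ l) K, a ∈ LieAlgebra.Symplectic.sp l K →
      b ∈ LieAlgebra.Symplectic.sp l K →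
      (a * b + b * a)ᵀ = -(Matrix.J l K * (a * b + b * a) * Matrix.J l K) := by
    intro a b ha hb
    rw [transpose_add, transpose_mul, transpose_mul, sp_transpose ha, sp_transpose hb]
    simp only [Matrix.mul_assoc, J_mul_J_mul, Matrix.mul_neg, Matrix.mul_add, Matrix.add_mul]
    abel
  rw [acc, transpose_sub, transpose_mul, transpose_mul, h a b ha hb, h c d hc hd]
  simp only [Matrix.mul_assoc, J_mul_J_mul, Matrix.mul_neg, Matrix.mul_sub, Matrix.sub_mul,
    neg_neg, Matrix.neg_mul]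
  abel

/-- The multilinear map `[a ∘ b, c ∘ d]` on the symplectic Lie algebra. -/
def accL (a b c d : LieAlgebra.Symplectic.sp l K) : LieAlgebra.Symplectic.sp l K :=
  ⟨acc a.1 b.1 c.1 d.1, acc_mem a.2 b.2 c.2 d.2⟩

/-- The cubic map `x ∘ (y ∘ z)`. -/
def tri (x y z : LieAlgebra.Symplectic.sp l K) : LieAlgebra.Symplectic.sp l K :=
  ⟨x.1 * (y.1 * z.1 + z.1 * y.1) + (y.1 * z.1 + z.1 * y.1) * x.1, by
    apply mem_sp_of_transpose
    rw [transpose_add, transpose_mul, transpose_mul, transpose_add, transpose_mul, transpose_mul,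
      sp_transpose x.2, sp_transpose y.2, sp_transpose z.2]
    simp only [Matrix.mul_assoc, J_mul_J_mul, Matrix.mul_neg, Matrix.mul_add, Matrix.add_mul,
      neg_neg, Matrix.neg_mul]
    abel⟩

theorem accL_eq (a b c d : LieAlgebra.Symplectic.sp l K) :
    accL a b c d = tri a d ⁅b, c⁆ + tri a c ⁅b, d⁆ + tri b d ⁅a, c⁆ + tri b c ⁅a, d⁆ := by
  apply Subtype.ext
  change acc a.1 b.1 c.1 d.1 = (a.1 * (d.1 * (b.1 * c.1 - c.1 * b.1) +
    (b.1 * c.1 - c.1 * b.1) * d.1) + (d.1 * (b.1 * c.1 - c.1 * b.1) +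
    (b.1 * c.1 - c.1 * b.1) * d.1) * a.1) + (a.1 * (c.1 * (b.1 * d.1 - d.1 * b.1) +
    (b.1 * d.1 - d.1 * b.1) * c.1) + (c.1 * (b.1 * d.1 - d.1 * b.1) +
    (b.1 * d.1 - d.1 * b.1) * c.1) * a.1) + (b.1 * (d.1 * (a.1 * c.1 - c.1 * a.1) +
    (a.1 * c.1 - c.1 * a.1) * d.1) + (d.1 * (a.1 * c.1 - c.1 * a.1) +
    (a.1 * c.1 - c.1 * a.1) * d.1) * b.1) + (b.1 * (c.1 * (a.1 * d.1 - d.1 * a.1) +
    (a.1 * d.1 - d.1 * a.1) * c.1) + (c.1 * (a.1 * d.1 - d.1 * a.1) +
    (a.1 * d.1 - d.1 * a.1) * c.1) * b.1)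
  rw [acc]
  noncomm_ring

theorem three_smul_tri (x y z : LieAlgebra.Symplectic.sp l K) :
    (3 : ℕ) • tri x y z = (2 : ℕ) • (cube (x + y + z) - cube (x + y) - cube (x + z) - cube (y + z) +
      cube x + cube y + cube z) + ⁅⁅x, y⁆, z⁆ + ⁅⁅x, z⁆, y⁆ := by
  apply Subtype.ext
  change (3 : ℕ) • (x.1 * (y.1 * z.1 + z.1 * y.1) + (y.1 * z.1 + z.1 * y.1) * x.1) =
    (2 : ℕ) • ((x.1 + y.1 + z.1) ^ 3 - (x.1 + y.1) ^ 3 - (x.1 + z.1) ^ 3 - (y.1 + z.1) ^ 3 +
      x.1 ^ 3 + y.1 ^ 3 + z.1 ^ 3) + ((x.1 * y.1 - y.1 * x.1) * z.1 -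
      z.1 * (x.1 * y.1 - y.1 * x.1)) + ((x.1 * z.1 - z.1 * x.1) * y.1 -
      y.1 * (x.1 * z.1 - z.1 * x.1))
  noncomm_ring

variable [CharZero K]

theorem tri_equiv (φ : LieAlgebra.Symplectic.sp l K ≃ₗ⁅K⁆ LieAlgebra.Symplectic.sp l K)
    (x y z : LieAlgebra.Symplectic.sp l K) : tri (φ x) (φ y) (φ z) = φ (tri x y z) := by
  have h1 := three_smul_tri (φ x) (φ y) (φ z)
  rw [← map_add φ, ← map_add φ, ← map_add φ, ← map_add φ, cube_equiv, cube_equiv, cube_equiv,
    cube_equiv, cube_equiv, cube_equiv, cube_equiv, ← LieEquiv.map_lie, ← LieEquiv.map_lie,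
    ← LieEquiv.map_lie, ← LieEquiv.map_lie] at h1
  have h2 := congrArg φ (three_smul_tri x y z)
  rw [map_nsmul, map_add, map_add, map_nsmul] at h2
  simp only [map_add φ (cube (x + y + z) - cube (x + y) - cube (x + z) - cube (y + z) + cube x +
    cube y), map_add φ (cube (x + y + z) - cube (x + y) - cube (x + z) - cube (y + z) + cube x),
    map_add φ (cube (x + y + z) - cube (x + y) - cube (x + z) - cube (y + z)), map_sub] at h2
  rw [← h2] at h1
  have h3 : (3 : K) • tri (φ x) (φ y) (φ z) = (3 : K) • φ (tri x y z) := by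
    rw [← Nat.cast_smul_eq_nsmul K, ← Nat.cast_smul_eq_nsmul K] at h1
    exact_mod_cast h1
  exact smul_right_injective _ (three_ne_zero) h3

theorem accL_equiv (φ : LieAlgebra.Symplectic.sp l K ≃ₗ⁅K⁆ LieAlgebra.Symplectic.sp l K)
    (a b c d : LieAlgebra.Symplectic.sp l K) :
    accL (φ a) (φ b) (φ c) (φ d) = φ (accL a b c d) := by
  rw [accL_eq, accL_eq]
  simp only [← LieEquiv.map_lie, tri_equiv, map_add]

/-- The multilinear map. -/
def accM : MultilinearMap K (fun _ : Fin 4 => LieAlgebra.Symplectic.sp l K)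
    (LieAlgebra.Symplectic.sp l K) where
  toFun a := accL (a 0) (a 1) (a 2) (a 3)
  map_update_add' := by
    intro inst m i x y
    have hinst : inst = instDecidableEqFin 4 := Subsingleton.elim _ _
    subst hinst
    apply Subtype.ext
    fin_cases i <;> simp [accL, acc, Function.update] <;> noncomm_ring
  map_update_smul' := by
    intro inst m i c x
    have hinst : inst = instDecidableEqFin 4 := Subsingleton.elim _ _
    subst hinst
    apply Subtype.ext
    fin_cases i <;> simp [accL, acc, Function.update, smul_sub] <;>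
      rw [← smul_add, Matrix.smul_mul, Matrix.mul_smul]

theorem accM_equivariant :
    IsAutEquivariant K ((accM : MultilinearMap K (fun _ : Fin 4 => LieAlgebra.Symplectic.sp l K)
    (LieAlgebra.Symplectic.sp l K)) : (Fin 4 → LieAlgebra.Symplectic.sp l K) → _) := by
  intro φ a
  exact accL_equiv φ _ _ _ _

end Pool.Agent.Lib.MP_d55432_al.H66
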