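import Pool.Agent.Lib.MP_d55432_al.H66.DMap

/-!
# Symplectic frames and conjugation by symplectic matrices
-/

namespace Pool.Agent.Lib.MP_d55432_al.H66

open Matrix LieAlgebra

attribute [local instance 100] LieRing.ofAssociativeRing

variable {K : Type*} [Field K]

/-- The index type. -/
abbrev N4 : Type := Fin 2 ⊕ Fin 2

/-- The symplectic form. -/
def om {l : Type*} [Fintype l] [DecidableEq l] (u v : l ⊕ l → K) : K :=
  u ⬝ᵥ (Matrix.J l K *ᵥ v)

section om

variable {l : Type*} [Fintype l] [DecidableEq l]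

theorem om_add_left (u u' v : l ⊕ l → K) : om (u + u') v = om u v + om u' v := by
  rw [om, add_dotProduct]; rfl

theorem om_add_right (u v v' : l ⊕ l → K) : om u (v + v') = om u v + om u v' := by
  rw [om, mulVec_add, dotProduct_add]; rfl

theorem om_sub_left (u u' v : l ⊕ l → K) : om (u - u') v = om u v - om u' v := by
  rw [om, sub_dotProduct]; rfl

theorem om_sub_right (u v v' : l ⊕ l → K) : om u (v - v') = om u v - om u v' := by
  rw [om, mulVec_sub, dotProduct_sub]; rfl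

theorem om_smul_left (c : K) (u v : l ⊕ l → K) : om (c • u) v = c * om u v := by
  rw [om, smul_dotProduct]; rfl

theorem om_smul_right (c : K) (u v : l ⊕ l → K) : om u (c • v) = c * om u v := by
  rw [om, mulVec_smul, dotProduct_smul]; rfl

theorem om_comm (u v : l ⊕ l → K) : om u v = -om v u := dot_J_comm u v

theorem om_zero_left (v : l ⊕ l → K) : om 0 v = 0 := by rw [om, zero_dotProduct]

theorem om_zero_right (v : l ⊕ l → K) : om v 0 = 0 := by rw [om, mulVec_zero, dotProduct_zero]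

theorem om_self [CharZero K] (u : l ⊕ l → K) : om u u = 0 := dot_J_self u

theorem exists_om {u : l ⊕ l → K} (hu : u ≠ 0) : ∃ v, om u v = 1 := by
  have h1 : Matrix.J l K *ᵥ u ≠ 0 := by
    intro h
    apply hu
    have h2 : Matrix.J l K *ᵥ (Matrix.J l K *ᵥ u) = -u := by
      rw [mulVec_mulVec, J_mul_J, neg_mulVec, one_mulVec]
    rw [h, mulVec_zero] at h2
    simpa using h2.symm
  obtain ⟨i, hi⟩ := Function.ne_iff.1 h1
  refine ⟨Pi.single i (-((Matrix.J l K *ᵥ u) i)⁻¹), ?_⟩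
  rw [om_comm, om, single_dotProduct, neg_mul, neg_neg]
  exact inv_mul_cancel₀ hi

theorem om_mulVec {X : Matrix (l ⊕ l) (l ⊕ l) K} (hX : X ∈ LieAlgebra.Symplectic.sp l K)
    (u v : l ⊕ l → K) : om (X *ᵥ u) v = -om u (X *ᵥ v) := by
  have h := (mem_sp _).1 hX
  rw [om, om, mulVec_mulVec, ← vecMul_transpose, ← dotProduct_mulVec, mulVec_mulVec, h,
    neg_mulVec, dotProduct_neg]

theorem vecMulVec_J_mulVec (u v : l ⊕ l → K) :
    (vecMulVec u u * Matrix.J l K) *ᵥ v = om u v • u := by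
  rw [← mulVec_mulVec, vecMulVec_mulVec]
  ext i
  simp [om, mul_comm]

theorem ext_mulVec {n : Type*} [Fintype n] [DecidableEq n] {M N : Matrix n n K}
    (h : ∀ v, M *ᵥ v = N *ᵥ v) : M = N := by
  ext i j
  have := congrFun (h (Pi.single j 1)) i
  simpa using this

end om

/-- Dual vectors for a linearly independent pair. -/
theorem exists_dual {l : Type*} [Fintype l] [DecidableEq l] {u₁ u₂ : l ⊕ l → K} (h1 : u₁ ≠ 0)
    (h2 : ∀ c : K, u₂ - c • u₁ ≠ 0) : ∃ v₁ v₂ : l ⊕ l → K, om u₁ v₁ = 1 ∧ om u₂ v₁ = 0 ∧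
      om u₁ v₂ = 0 ∧ om u₂ v₂ = 1 := by
  obtain ⟨z₀, hz₀⟩ := exists_om h1
  obtain ⟨z₁, hz₁⟩ := exists_om (h2 (om u₂ z₀))
  rw [om_sub_left, om_smul_left] at hz₁
  refine ⟨z₀ - om u₂ z₀ • (z₁ - om u₁ z₁ • z₀), z₁ - om u₁ z₁ • z₀, ?_, ?_, ?_, ?_⟩ <;>
  simp only [om_sub_right, om_smul_right, hz₀]
  · ring
  · linear_combination (-(om u₂ z₀)) * hz₁
  · ring
  · linear_combination hz₁

/-- A symplectic frame of the four-dimensional space. -/
structure IsFrame (g : N4 → N4 → K) : Prop where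
  uu : om (g (Sum.inl 0)) (g (Sum.inl 1)) = 0
  vv : om (g (Sum.inr 0)) (g (Sum.inr 1)) = 0
  uv : ∀ i j, om (g (Sum.inl i)) (g (Sum.inr j)) = if i = j then -1 else 0

/-- The matrix with given columns. -/
def colMat (g : N4 → N4 → K) : Matrix N4 N4 K := fun i j => g j i

theorem colMat_mulVec_single (g : N4 → N4 → K) (j : N4) :
    colMat g *ᵥ Pi.single j 1 = g j := by
  ext i
  simp [colMat]

theorem IsFrame.mul [CharZero K] {g : N4 → N4 → K} (hg : IsFrame g) :
    (colMat g)ᵀ * Matrix.J (Fin 2) K * colMat g = Matrix.J (Fin 2) K := by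
  have h1 : ∀ i j, ((colMat g)ᵀ * Matrix.J (Fin 2) K * colMat g) i j = om (g i) (g j) := by
    intro i j
    rw [Matrix.mul_assoc, Matrix.mul_apply, om, dotProduct]
    refine Finset.sum_congr rfl fun k _ => ?_
    rw [transpose_apply, Matrix.mul_apply, mulVec, dotProduct]
    rfl
  ext i j
  rw [h1]
  rcases i with i | i <;> rcases j with j | j
  · have h2 := hg.uu
    fin_cases i <;> fin_cases j
    · simp [om_self, Matrix.J]
    · simp [Matrix.J, h2]
    · rw [om_comm]; simp [Matrix.J, h2]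
    · simp [om_self, Matrix.J]
  · rw [hg.uv]
    fin_cases i <;> fin_cases j <;> simp [Matrix.J]
  · rw [om_comm, hg.uv]
    fin_cases i <;> fin_cases j <;> simp [Matrix.J]
  · have h2 := hg.vv
    fin_cases i <;> fin_cases j
    · simp [om_self, Matrix.J]
    · simp [Matrix.J, h2]
    · rw [om_comm]; simp [Matrix.J, h2]
    · simp [om_self, Matrix.J]

section conj

variable {l : Type*} [Fintype l] [DecidableEq l]

theorem inv_left {G : Matrix (l ⊕ l) (l ⊕ l) K} (hG : Gᵀ * Matrix.J l K * G = Matrix.J l K) :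
    (-(Matrix.J l K * Gᵀ * Matrix.J l K)) * G = 1 := by
  calc (-(Matrix.J l K * Gᵀ * Matrix.J l K)) * G =
      -(Matrix.J l K * (Gᵀ * Matrix.J l K * G)) := by noncomm_ring
    _ = 1 := by rw [hG, J_mul_J, neg_neg]

theorem inv_right {G : Matrix (l ⊕ l) (l ⊕ l) K} (hG : Gᵀ * Matrix.J l K * G = Matrix.J l K) :
    G * (-(Matrix.J l K * Gᵀ * Matrix.J l K)) = 1 := mul_eq_one_comm.1 (inv_left hG)

theorem conj_mem {G X : Matrix (l ⊕ l) (l ⊕ l) K} (hX : X ∈ LieAlgebra.Symplectic.sp l K) :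
    G * X * (-(Matrix.J l K * Gᵀ * Matrix.J l K)) ∈ LieAlgebra.Symplectic.sp l K := by
  apply mem_sp_of_transpose
  simp only [transpose_mul, transpose_neg, transpose_transpose, J_transpose, sp_transpose hX]
  simp only [Matrix.mul_assoc, J_mul_J_mul, Matrix.mul_neg, Matrix.neg_mul, neg_neg, J_mul_J,
    Matrix.mul_one]

theorem conj_mem' {G X : Matrix (l ⊕ l) (l ⊕ l) K} (hX : X ∈ LieAlgebra.Symplectic.sp l K) :
    (-(Matrix.J l K * Gᵀ * Matrix.J l K)) * X * G ∈ LieAlgebra.Symplectic.sp l K := by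
  have h := conj_mem (G := -(Matrix.J l K * Gᵀ * Matrix.J l K)) hX
  have h2 : -(Matrix.J l K * (-(Matrix.J l K * Gᵀ * Matrix.J l K))ᵀ * Matrix.J l K) = G := by
    simp only [transpose_mul, transpose_neg, transpose_transpose, J_transpose]
    simp only [Matrix.mul_assoc, J_mul_J_mul, Matrix.mul_neg, Matrix.neg_mul, neg_neg, J_mul_J,
      Matrix.mul_one]
  rwa [h2] at h

/-- Conjugation by a symplectic matrix. -/
def conjE (G : Matrix (l ⊕ l) (l ⊕ l) K) (hG : Gᵀ * Matrix.J l K * G = Matrix.J l K) :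
    LieAlgebra.Symplectic.sp l K ≃ₗ⁅K⁆ LieAlgebra.Symplectic.sp l K where
  toFun X := ⟨G * X.1 * (-(Matrix.J l K * Gᵀ * Matrix.J l K)), conj_mem X.2⟩
  invFun X := ⟨(-(Matrix.J l K * Gᵀ * Matrix.J l K)) * X.1 * G, conj_mem' X.2⟩
  left_inv X := by
    apply Subtype.ext
    change (-(Matrix.J l K * Gᵀ * Matrix.J l K)) * (G * X.1 * (-(Matrix.J l K * Gᵀ *
      Matrix.J l K))) * G = X.1
    rw [show (-(Matrix.J l K * Gᵀ * Matrix.J l K)) * (G * X.1 * (-(Matrix.J l K * Gᵀ *
      Matrix.J l K))) * G = ((-(Matrix.J l K * Gᵀ * Matrix.J l K)) * G) * X.1 *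
      ((-(Matrix.J l K * Gᵀ * Matrix.J l K)) * G) by simp only [Matrix.mul_assoc], inv_left hG,
      Matrix.one_mul, Matrix.mul_one]
  right_inv X := by
    apply Subtype.ext
    change G * ((-(Matrix.J l K * Gᵀ * Matrix.J l K)) * X.1 * G) * (-(Matrix.J l K * Gᵀ *
      Matrix.J l K)) = X.1
    rw [show G * ((-(Matrix.J l K * Gᵀ * Matrix.J l K)) * X.1 * G) * (-(Matrix.J l K * Gᵀ *
      Matrix.J l K)) = (G * (-(Matrix.J l K * Gᵀ * Matrix.J l K))) * X.1 *
      (G * (-(Matrix.J l K * Gᵀ * Matrix.J l K))) by simp only [Matrix.mul_assoc], inv_right hG,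
      Matrix.one_mul, Matrix.mul_one]
  map_add' X Y := by
    apply Subtype.ext
    change G * (X.1 + Y.1) * _ = G * X.1 * _ + G * Y.1 * _
    rw [Matrix.mul_add, Matrix.add_mul]
  map_smul' c X := by
    apply Subtype.ext
    change G * (c • X.1) * _ = c • (G * X.1 * _)
    rw [Matrix.mul_smul, Matrix.smul_mul]
  map_lie' := by
    intro X Y
    apply Subtype.ext
    set G' := -(Matrix.J l K * Gᵀ * Matrix.J l K) with hG'
    have h1 : G' * G = 1 := inv_left hG
    change G * (X.1 * Y.1 - Y.1 * X.1) * G' = (G * X.1 * G') * (G * Y.1 * G') -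
      (G * Y.1 * G') * (G * X.1 * G')
    have h2 : ∀ A B : Matrix (l ⊕ l) (l ⊕ l) K, (G * A * G') * (G * B * G') = G * (A * B) * G' := by
      intro A B
      calc (G * A * G') * (G * B * G') = G * A * (G' * G) * B * G' := by
            simp only [Matrix.mul_assoc]
        _ = _ := by rw [h1, Matrix.mul_one]; simp only [Matrix.mul_assoc]
    rw [h2, h2, Matrix.mul_sub, Matrix.sub_mul]

theorem conjE_eq_iff {G : Matrix (l ⊕ l) (l ⊕ l) K} (hG : Gᵀ * Matrix.J l K * G = Matrix.J l K)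
    (X Y : LieAlgebra.Symplectic.sp l K) : conjE G hG X = Y ↔ G * X.1 = Y.1 * G := by
  constructor
  · rintro rfl
    change _ = G * X.1 * (-(Matrix.J l K * Gᵀ * Matrix.J l K)) * G
    rw [Matrix.mul_assoc _ _ G, inv_left hG, Matrix.mul_one]
  · intro h
    apply Subtype.ext
    change G * X.1 * (-(Matrix.J l K * Gᵀ * Matrix.J l K)) = Y.1
    rw [h, Matrix.mul_assoc, inv_right hG, Matrix.mul_one]

end conj

end Pool.Agent.Lib.MP_d55432_al.H66
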