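import Pool.Agent.Lib.MP_d55432_al.H66.Orbits
import Pool.Agent.Lib.MP_d55432_al.Sp4Generic

/-!
# The image of the multilinear map `[a ∘ b, c ∘ d]` on `sp₄`
-/

namespace Pool.Agent.Lib.MP_d55432_al.H66

open Matrix LieAlgebra
open Pool.Agent.Lib.MP_d55432_al.Sp4 (spM vM sS wS qS spM_sq vM_sq exists_spM)

attribute [local instance 100] LieRing.ofAssociativeRing

variable {K : Type*} [Field K]

theorem spM_add (f g : Fin 10 → K) : spM (f + g) = spM f + spM g := by
  ext (i | i) (j | j) <;> fin_cases i <;> fin_cases j <;> simp [spM] <;> ring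

theorem vM_add (w w' : Fin 5 → K) : vM (w + w') = vM w + vM w' := by
  ext (i | i) (j | j) <;> fin_cases i <;> fin_cases j <;> simp [vM] <;> ring

theorem vM_sub (w w' : Fin 5 → K) : vM (w - w') = vM w - vM w' := by
  ext (i | i) (j | j) <;> fin_cases i <;> fin_cases j <;> simp [vM] <;> ring

theorem anti_spM (f g : Fin 10 → K) : spM f * spM g + spM g * spM f =
    (sS (f + g) - sS f - sS g) • (1 : Matrix N4 N4 K) + vM (wS (f + g) - wS f - wS g) := by
  have h1 : spM f * spM g + spM g * spM f = spM (f + g) * spM (f + g) - spM f * spM f -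
      spM g * spM g := by
    rw [spM_add]
    noncomm_ring
  rw [h1, spM_sq, spM_sq, spM_sq, vM_sub, vM_sub, sub_smul, sub_smul]
  abel

theorem anti_vM (w w' : Fin 5 → K) : vM w * vM w' + vM w' * vM w =
    (qS (w + w') - qS w - qS w') • (1 : Matrix N4 N4 K) := by
  have h1 : vM w * vM w' + vM w' * vM w = vM (w + w') * vM (w + w') - vM w * vM w -
      vM w' * vM w' := by
    rw [vM_add]
    noncomm_ring
  rw [h1, vM_sq, vM_sq, vM_sq, sub_smul, sub_smul]

theorem comm_sq {n : Type*} [Fintype n] [DecidableEq n] (U V : Matrix n n K) (p q r : K)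
    (hU : U * U = p • (1 : Matrix n n K)) (hV : V * V = q • (1 : Matrix n n K))
    (hUV : U * V + V * U = r • (1 : Matrix n n K)) :
    (U * V - V * U) * (U * V - V * U) = (r ^ 2 - 4 * p * q) • (1 : Matrix n n K) := by
  have hVU : V * U = r • (1 : Matrix n n K) - U * V := by rw [← hUV]; abel
  have h1 : U * V * (U * V) = r • (U * V) - (p * q) • (1 : Matrix n n K) := by
    calc U * V * (U * V) = U * (V * U) * V := by noncomm_ring
      _ = r • (U * V) - (U * U) * (V * V) := by
        rw [hVU, Matrix.mul_sub, Matrix.sub_mul, Matrix.mul_smul, Matrix.mul_one, Matrix.smul_mul]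
        congr 1
        noncomm_ring
      _ = _ := by
        rw [hU, hV, Matrix.smul_mul, Matrix.mul_smul, smul_smul, Matrix.mul_one]
  rw [hVU]
  have h2 : U * V - (r • (1 : Matrix n n K) - U * V) = (2 : K) • (U * V) -
      r • (1 : Matrix n n K) := by rw [two_smul]; abel
  rw [h2, Matrix.sub_mul, Matrix.mul_sub, Matrix.mul_sub]
  simp only [Matrix.smul_mul, Matrix.mul_smul, Matrix.mul_one, Matrix.one_mul, h1, smul_sub,
    smul_smul]
  module

/-- Elements of `sp₄` with scalar square. -/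
def sqScalar (K : Type*) [Field K] : Set (LieAlgebra.Symplectic.sp (Fin 2) K) :=
  {X | ∃ c : K, X.1 * X.1 = c • (1 : Matrix N4 N4 K)}

variable [CharZero K]

theorem accL_mem (a b c d : LieAlgebra.Symplectic.sp (Fin 2) K) : accL a b c d ∈ sqScalar K := by
  have hh : (2 : K) * (1 / 2) = 1 := by norm_num
  obtain ⟨f, hf⟩ := exists_spM _ hh a.1 a.2
  obtain ⟨g, hg⟩ := exists_spM _ hh b.1 b.2
  obtain ⟨f', hf'⟩ := exists_spM _ hh c.1 c.2
  obtain ⟨g', hg'⟩ := exists_spM _ hh d.1 d.2
  have h1 : (accL a b c d).1 = vM (wS (f + g) - wS f - wS g) * vM (wS (f' + g') - wS f' - wS g') -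
      vM (wS (f' + g') - wS f' - wS g') * vM (wS (f + g) - wS f - wS g) := by
    change (a.1 * b.1 + b.1 * a.1) * (c.1 * d.1 + d.1 * c.1) - (c.1 * d.1 + d.1 * c.1) *
      (a.1 * b.1 + b.1 * a.1) = _
    rw [hf, hg, hf', hg', anti_spM, anti_spM]
    simp only [Matrix.add_mul, Matrix.mul_add, Matrix.smul_mul, Matrix.mul_smul, Matrix.mul_one,
      Matrix.one_mul, smul_add]
    rw [smul_comm (sS (f + g) - sS f - sS g)]
    abel
  refine ⟨(qS ((wS (f + g) - wS f - wS g) + (wS (f' + g') - wS f' - wS g')) -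
      qS (wS (f + g) - wS f - wS g) - qS (wS (f' + g') - wS f' - wS g')) ^ 2 -
      4 * qS (wS (f + g) - wS f - wS g) * qS (wS (f' + g') - wS f' - wS g'), ?_⟩
  rw [h1]
  exact comm_sq _ _ _ _ _ (vM_sq _) (vM_sq _) (anti_vM _ _)

/-- Basis elements. -/
def eL (K : Type*) [Field K] (i : Fin 10) : LieAlgebra.Symplectic.sp (Fin 2) K :=
  ⟨spM (Pi.single i 1), Pool.Agent.Lib.MP_d55432_al.Sp4.spM_mem _⟩

omit [CharZero K] in
theorem val_zero : (accL (eL K 0) (eL K 1) (eL K 0) (eL K 2)).1 =
    Matrix.fromBlocks !![0, 8; -8, 0] 0 0 !![0, 8; -8, 0] := by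
  change acc _ _ _ _ = _
  simp only [acc, eL]
  ext (i | i) (j | j) <;> fin_cases i <;> fin_cases j <;>
    simp [spM, Matrix.mul_apply, Fin.sum_univ_two] <;> norm_num

omit [CharZero K] in
theorem val_one : (accL (eL K 0) (eL K 1 + eL K 3) (eL K 3) (eL K 4 + eL K 7)).1 =
    Matrix.fromBlocks 0 !![-16, 16; 16, -16] 0 0 := by
  change acc _ (spM _ + spM _) _ (spM _ + spM _) = _
  simp only [acc, eL]
  ext (i | i) (j | j) <;> fin_cases i <;> fin_cases j <;>
    simp [spM, Matrix.mul_apply, Fin.sum_univ_two] <;> norm_num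

omit [CharZero K] in
theorem val_two : (accL (eL K 0) (eL K 1) (eL K 0) (eL K 2 + eL K 3)).1 =
    Matrix.fromBlocks !![0, 16; 0, 0] 0 0 !![0, 0; -16, 0] := by
  change acc _ _ _ (spM _ + spM _) = _
  simp only [acc, eL]
  ext (i | i) (j | j) <;> fin_cases i <;> fin_cases j <;>
    simp [spM, Matrix.mul_apply, Fin.sum_univ_two] <;> norm_num

omit [CharZero K] in
theorem rank_ge_two {X : Matrix N4 N4 K} (i j k l : N4)
    (h : X i k * X j l - X i l * X j k ≠ 0) : 2 ≤ X.rank := by
  have h1 : (X.submatrix ![i, j] ![k, l]).rank = 2 := by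
    rw [Matrix.rank_of_isUnit]
    · rfl
    · rw [Matrix.isUnit_iff_isUnit_det, Matrix.det_fin_two, isUnit_iff_ne_zero]
      simpa using h
  exact h1.symm.le.trans (Matrix.rank_submatrix_le _ _ _)

omit [CharZero K] in
theorem rank_le_one_of_minors {X : Matrix N4 N4 K}
    (h : ∀ i j k l, X i k * X j l - X i l * X j k = 0) : X.rank ≤ 1 := by
  by_cases h0 : X = 0
  · rw [h0, Matrix.rank_zero]; exact Nat.zero_le _
  · obtain ⟨i, k, hik⟩ : ∃ i k, X i k ≠ 0 := by
      by_contra hcon
      push Not at hcon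
      exact h0 (by ext i k; exact hcon i k)
    have h1 : X = vecMulVec (fun j => X j k) (fun l => (X i k)⁻¹ * X i l) := by
      ext j l
      rw [vecMulVec_apply]
      have h2 := h i j k l
      field_simp
      linear_combination h2
    rw [h1]
    exact Matrix.rank_vecMulVec_le _ _

omit [CharZero K] in
theorem minors_of_rank_le_one {X : Matrix N4 N4 K} (h : X.rank ≤ 1) (i j k l : N4) :
    X i k * X j l - X i l * X j k = 0 := by
  by_contra hne
  have := rank_ge_two i j k l hne
  omega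

omit [CharZero K] in
/-- The multilinear map as a function. -/
theorem accM_apply (a b c d : LieAlgebra.Symplectic.sp (Fin 2) K) :
    (accM : MultilinearMap K (fun _ : Fin 4 => LieAlgebra.Symplectic.sp (Fin 2) K)
      (LieAlgebra.Symplectic.sp (Fin 2) K)) ![a, b, c, d] = accL a b c d := rfl

theorem aut_mem_range (φ : LieAlgebra.Symplectic.sp (Fin 2) K ≃ₗ⁅K⁆
    LieAlgebra.Symplectic.sp (Fin 2) K) (X : LieAlgebra.Symplectic.sp (Fin 2) K)
    (hX : X ∈ Set.range (accM : MultilinearMap K
      (fun _ : Fin 4 => LieAlgebra.Symplectic.sp (Fin 2) K)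
      (LieAlgebra.Symplectic.sp (Fin 2) K))) : φ X ∈ Set.range (accM : MultilinearMap K
      (fun _ : Fin 4 => LieAlgebra.Symplectic.sp (Fin 2) K)
      (LieAlgebra.Symplectic.sp (Fin 2) K)) := by
  obtain ⟨a, rfl⟩ := hX
  exact ⟨fun i => φ (a i), accM_equivariant φ a⟩

theorem range_accM [IsAlgClosed K] : Set.range (accM : MultilinearMap K
    (fun _ : Fin 4 => LieAlgebra.Symplectic.sp (Fin 2) K)
    (LieAlgebra.Symplectic.sp (Fin 2) K)) = sqScalar K := by
  apply Set.Subset.antisymm
  · rintro _ ⟨a, rfl⟩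
    exact accL_mem _ _ _ _
  · rintro X ⟨c, hc⟩
    by_cases hc0 : c = 0
    · rw [hc0, zero_smul] at hc
      have h2 := rank_le_two X.1 hc
      interval_cases h : X.1.rank
      · refine ⟨0, ?_⟩
        rw [MultilinearMap.map_zero]
        exact (Subtype.ext ((rank_zero_iff X.1).1 h)).symm
      · obtain ⟨φ, hφ⟩ := orbit_rank_one (accL (eL K 0) (eL K 1 + eL K 3) (eL K 3)
          (eL K 4 + eL K 7)) X (by
            apply le_antisymm
            · apply rank_le_one_of_minors
              intro i j k l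
              rw [val_one]
              rcases i with i | i <;> rcases j with j | j <;> rcases k with k | k <;>
                rcases l with l | l <;> fin_cases i <;> fin_cases j <;> fin_cases k <;>
                fin_cases l <;> simp
            · rw [Nat.one_le_iff_ne_zero]
              intro h0
              have h1 := (rank_zero_iff _).1 h0
              rw [val_one] at h1
              have h3 := congrFun (congrFun h1 (Sum.inl 0)) (Sum.inr 0)
              simp at h3) h
        rw [← hφ]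
        exact aut_mem_range φ _ ⟨![_, _, _, _], accM_apply _ _ _ _⟩
      · obtain ⟨φ, hφ⟩ := orbit_rank_two (accL (eL K 0) (eL K 1) (eL K 0)
          (eL K 2 + eL K 3)) X (by
            apply le_antisymm
            · apply rank_le_two
              rw [val_two]
              ext (i | i) (j | j) <;> fin_cases i <;> fin_cases j <;>
                simp [Matrix.mul_apply, Fin.sum_univ_two]
            · apply rank_ge_two (Sum.inl 0) (Sum.inr 1) (Sum.inl 1) (Sum.inr 0)
              rw [val_two]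
              simp) h (by
              rw [val_two]
              ext (i | i) (j | j) <;> fin_cases i <;> fin_cases j <;>
                simp [Matrix.mul_apply, Fin.sum_univ_two]) hc
        rw [← hφ]
        exact aut_mem_range φ _ ⟨![_, _, _, _], accM_apply _ _ _ _⟩
    · obtain ⟨s, hs⟩ := IsAlgClosed.exists_pow_nat_eq c (n := 2) (by norm_num)
      obtain ⟨t, ht⟩ := IsAlgClosed.exists_pow_nat_eq (-(c / 64)) (n := 2) (by norm_num)
      have hs0 : s ≠ 0 := by
        rintro rfl
        apply hc0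
        rw [← hs]; ring
      obtain ⟨φ, hφ⟩ := orbit_ss (accL (t • eL K 0) (eL K 1) (eL K 0) (eL K 2)) X s hs0 (by
        have h1 : (accL (t • eL K 0) (eL K 1) (eL K 0) (eL K 2)).1 =
            t • (accL (eL K 0) (eL K 1) (eL K 0) (eL K 2)).1 := by
          change acc (t • _) _ _ _ = t • acc _ _ _ _
          simp only [acc, Matrix.smul_mul, Matrix.mul_smul, ← smul_add, ← smul_sub]
        rw [h1, Matrix.smul_mul, Matrix.mul_smul, smul_smul, ← pow_two, ht, hs, val_zero]
        ext (i | i) (j | j) <;> fin_cases i <;> fin_cases j <;>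
          simp [Matrix.mul_apply, Fin.sum_univ_two] <;> field_simp <;> norm_num) (by
          rw [hc, hs])
      rw [← hφ]
      exact aut_mem_range φ _ ⟨![_, _, _, _], accM_apply _ _ _ _⟩

/-- The set of elements of `sp₄` with scalar square is stable under all automorphisms. -/
theorem aut_mem_sqScalar [IsAlgClosed K] (φ : LieAlgebra.Symplectic.sp (Fin 2) K ≃ₗ⁅K⁆
    LieAlgebra.Symplectic.sp (Fin 2) K) (X : LieAlgebra.Symplectic.sp (Fin 2) K)
    (hX : X ∈ sqScalar K) : φ X ∈ sqScalar K := by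
  rw [← range_accM] at hX ⊢
  exact aut_mem_range φ X hX

theorem aut_sq [IsAlgClosed K] (φ : LieAlgebra.Symplectic.sp (Fin 2) K ≃ₗ⁅K⁆
    LieAlgebra.Symplectic.sp (Fin 2) K) (X : LieAlgebra.Symplectic.sp (Fin 2) K)
    (c : K) (hX : X.1 * X.1 = c • (1 : Matrix N4 N4 K)) :
    (φ X).1 * (φ X).1 = c • (1 : Matrix N4 N4 K) := by
  obtain ⟨c', hc'⟩ := aut_mem_sqScalar φ X ⟨c, hX⟩
  have h1 := trace_mul_equiv φ X X
  rw [hX, hc', trace_smul, trace_smul, trace_one] at h1
  have h2 : (Fintype.card N4 : K) ≠ 0 := by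
    rw [show Fintype.card N4 = 4 from rfl]
    norm_num
  have h3 : c' = c := mul_right_cancel₀ h2 (by simpa using h1)
  rw [hc', h3]

/-- Rank one among square-zero elements is invariant under automorphisms. -/
theorem aut_rank_one [IsAlgClosed K] (φ : LieAlgebra.Symplectic.sp (Fin 2) K ≃ₗ⁅K⁆
    LieAlgebra.Symplectic.sp (Fin 2) K) (X : LieAlgebra.Symplectic.sp (Fin 2) K)
    (hX : X.1 * X.1 = 0) (h : X.1.rank = 1) : (φ X).1.rank = 1 := by
  have hφ : (φ X).1 * (φ X).1 = 0 := by
    have := aut_sq φ X 0 (by rw [hX, zero_smul])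
    rwa [zero_smul] at this
  have hle := rank_le_two _ hφ
  by_contra hne
  have hX0 : X ≠ 0 := by
    rintro rfl
    rw [show (0 : LieAlgebra.Symplectic.sp (Fin 2) K).1 = 0 from rfl, Matrix.rank_zero] at h
    exact zero_ne_one h
  have h2 : (φ X).1.rank = 2 := by
    have h0 : (φ X).1.rank ≠ 0 := by
      intro h0
      have h1 : φ X = 0 := Subtype.ext ((rank_zero_iff _).1 h0)
      rw [← map_zero φ] at h1
      exact hX0 (φ.injective h1)
    omega
  -- the normal form of rank two
  obtain ⟨ψ, hψ⟩ := orbit_rank_two (φ X) (⟨nilM (Pi.single (Sum.inl 0) 1) +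
    nilM (Pi.single (Sum.inl 1) 1), (LieAlgebra.Symplectic.sp (Fin 2) K).add_mem
      (nilM_mem _) (nilM_mem _)⟩) h2 (by
      apply le_antisymm
      · apply rank_le_two
        ext (i | i) (j | j) <;> fin_cases i <;> fin_cases j <;>
          simp [nilM, Matrix.mul_apply, Fin.sum_univ_two, vecMulVec_apply, Matrix.J]
      · apply rank_ge_two (Sum.inl 0) (Sum.inl 1) (Sum.inr 0) (Sum.inr 1)
        simp [nilM, Matrix.mul_apply, vecMulVec_apply, Matrix.J]) hφ (by
        ext (i | i) (j | j) <;> fin_cases i <;> fin_cases j <;>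
          simp [nilM, Matrix.mul_apply, Fin.sum_univ_two, vecMulVec_apply, Matrix.J])
  -- the property of rank one elements
  have hprop : ∀ y : LieAlgebra.Symplectic.sp (Fin 2) K, ∃ c : K, ⁅X, ⁅X, y⁆⁆ = c • X := by
    intro y
    obtain ⟨u, hu, hXu⟩ := eq_nilM_of_rank_one X.1 X.2 h
    refine ⟨2 * om u (y.1 *ᵥ u), ?_⟩
    apply Subtype.ext
    change X.1 * (X.1 * y.1 - y.1 * X.1) - (X.1 * y.1 - y.1 * X.1) * X.1 =
      (2 * om u (y.1 *ᵥ u)) • X.1
    have h3 : X.1 * (X.1 * y.1 - y.1 * X.1) - (X.1 * y.1 - y.1 * X.1) * X.1 =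
        (X.1 * X.1) * y.1 + y.1 * (X.1 * X.1) - (2 : ℕ) • (X.1 * y.1 * X.1) := by noncomm_ring
    rw [h3, hX, Matrix.zero_mul, Matrix.mul_zero, add_zero, zero_sub]
    have h4 : X.1 * y.1 * X.1 = -(om u (y.1 *ᵥ u) • X.1) := by
      apply ext_mulVec
      intro v
      rw [← mulVec_mulVec, ← mulVec_mulVec, hXu, nilM_mulVec u v, mulVec_neg, mulVec_smul,
        mulVec_neg, mulVec_smul, nilM_mulVec, neg_mulVec, smul_mulVec, nilM_mulVec u v, smul_neg,
        smul_neg, smul_comm]
    rw [h4, ← Nat.cast_smul_eq_nsmul K, smul_neg, neg_neg, smul_smul]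
    norm_num
  have hprop2 : ∀ y : LieAlgebra.Symplectic.sp (Fin 2) K, ∃ c : K,
      ⁅ψ (φ X), ⁅ψ (φ X), y⁆⁆ = c • ψ (φ X) := by
    intro y
    obtain ⟨c, hc⟩ := hprop (φ.symm (ψ.symm y))
    refine ⟨c, ?_⟩
    have h3 := congrArg ψ (congrArg φ hc)
    rw [LieEquiv.map_lie, LieEquiv.map_lie, LieEquiv.map_lie, LieEquiv.map_lie,
      LieEquiv.apply_symm_apply, LieEquiv.apply_symm_apply, map_smul, map_smul] at h3
    exact h3
  rw [hψ] at hprop2
  obtain ⟨c, hc⟩ := hprop2 ⟨nilM (Pi.single (Sum.inr 0) 1), nilM_mem _⟩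
  have h5 := congrArg Subtype.val hc
  rw [coe_lie, coe_lie] at h5
  have h6 := congrFun (congrFun h5 (Sum.inl 0)) (Sum.inr 0)
  have h7 := congrFun (congrFun h5 (Sum.inl 1)) (Sum.inr 1)
  simp [nilM, Matrix.mul_apply, Fin.sum_univ_two, vecMulVec_apply, Matrix.J] at h6 h7
  rw [← h7] at h6
  norm_num at h6

end Pool.Agent.Lib.MP_d55432_al.H66
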