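import Pool.Agent.Lib.MP_d55432_al.H66.Relation
import Pool.Agent.Lib.MP_d55432_al.Multilin

/-!
# Non-dense images of Lie polynomials on `sp₄`
-/

namespace Pool.Agent.Lib.MP_d55432_al.H66

open Matrix LieAlgebra MvPolynomial
open Pool.Agent.Lib.MP_d55432_al.Sp4 (spM vM sS wS qS spM_sq vM_sq exists_spM spM_mem trace_vM
  exists_generic dichotomy sS_ne_zero)
open Pool.Agent.Lib.MP_d55432_al.DetTrick (polyAlg mem_polyAlg)

attribute [local instance 100] LieRing.ofAssociativeRing

variable {K : Type*} [Field K]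

/-- The set of elements `X` of `sp₄` such that `X ^ 2` is a nonzero scalar, or `X = 0`, or
`X ^ 2 = 0` and the rank of `X` is in `T`. -/
def sqSet (K : Type*) [Field K] (T : Set ℕ) : Set (LieAlgebra.Symplectic.sp (Fin 2) K) :=
  {X | (∃ c : K, c ≠ 0 ∧ X.1 * X.1 = c • (1 : Matrix N4 N4 K)) ∨ X = 0 ∨
    (X.1 * X.1 = 0 ∧ X.1.rank ∈ T)}

theorem sqSet_subset (T : Set ℕ) : sqSet K T ⊆ sqScalar K := by
  rintro X (⟨c, _, hc⟩ | rfl | ⟨h, _⟩)
  · exact ⟨c, hc⟩
  · exact ⟨0, by rw [zero_smul]; exact Matrix.zero_mul _⟩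
  · exact ⟨0, by rw [zero_smul]; exact h⟩

theorem sqSet_full : sqSet K {1, 2} = sqScalar K := by
  apply Set.Subset.antisymm (sqSet_subset _)
  rintro X ⟨c, hc⟩
  by_cases hc0 : c = 0
  · rw [hc0, zero_smul] at hc
    have h2 := rank_le_two X.1 hc
    by_cases h0 : X = 0
    · exact Or.inr (Or.inl h0)
    · refine Or.inr (Or.inr ⟨hc, ?_⟩)
      have h3 : X.1.rank ≠ 0 := fun h => h0 (Subtype.ext ((rank_zero_iff X.1).1 h))
      have h4 : X.1.rank = 1 ∨ X.1.rank = 2 := by omega
      exact h4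
  · exact Or.inl ⟨c, hc0, hc⟩

theorem sq_spLin (F : Fin 10 → K) : (spLin K F).1 * (spLin K F).1 =
    sS F • (1 : Matrix N4 N4 K) + vM (wS F) := spM_sq F

/-- A nonconstant polynomial over an algebraically closed field is surjective. -/
theorem exists_eval_eq [IsAlgClosed K] {τ : Type*} (F : MvPolynomial τ K) (v₀ : τ → K)
    (h0 : eval 0 F = 0) (h1 : eval v₀ F ≠ 0) (r : K) : ∃ v, eval v F = r := by
  let h : Polynomial K := aeval (fun i => Polynomial.C (v₀ i) * Polynomial.X) F
  have hh : ∀ t : K, h.eval t = eval (t • v₀) F := by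
    intro t
    have h2 : h.eval t = (Polynomial.aeval t) h := by
      rw [Polynomial.coe_aeval_eq_eval]
    have h3 : (Polynomial.aeval t) h =
        ((Polynomial.aeval t).comp (aeval (fun i => Polynomial.C (v₀ i) * Polynomial.X) :
          MvPolynomial τ K →ₐ[K] Polynomial K)) F := rfl
    rw [h2, h3, comp_aeval, ← aeval_eq_eval]
    congr 2
    funext i
    change (Polynomial.aeval t) (Polynomial.C (v₀ i) * Polynomial.X) = t * v₀ i
    rw [map_mul, Polynomial.aeval_C, Polynomial.aeval_X]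
    exact mul_comm _ _
  have hdeg : (h - Polynomial.C r).degree ≠ 0 := by
    intro hd
    have h2 : (h - Polynomial.C r) = Polynomial.C ((h - Polynomial.C r).coeff 0) :=
      Polynomial.eq_C_of_degree_eq_zero hd
    have h3 := congrArg (Polynomial.eval 0) h2
    have h4 := congrArg (Polynomial.eval 1) h2
    rw [Polynomial.eval_C, Polynomial.eval_sub, Polynomial.eval_C, hh] at h3 h4
    rw [zero_smul, h0] at h3
    rw [one_smul, ← h3] at h4
    apply h1
    linear_combination h4
  obtain ⟨t, ht⟩ := IsAlgClosed.exists_root _ hdeg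
  refine ⟨t • v₀, ?_⟩
  rw [← hh]
  rw [Polynomial.IsRoot.def, Polynomial.eval_sub, Polynomial.eval_C] at ht
  exact sub_eq_zero.1 ht

section main

variable [CharZero K] [IsAlgClosed K]

theorem aut_rank_eq (φ : LieAlgebra.Symplectic.sp (Fin 2) K ≃ₗ⁅K⁆
    LieAlgebra.Symplectic.sp (Fin 2) K) (X : LieAlgebra.Symplectic.sp (Fin 2) K)
    (hX : X.1 * X.1 = 0) : (φ X).1 * (φ X).1 = 0 ∧ (φ X).1.rank = X.1.rank := by
  have h1 : (φ X).1 * (φ X).1 = 0 := by
    have := aut_sq φ X 0 (by rw [hX, zero_smul])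
    rwa [zero_smul] at this
  refine ⟨h1, ?_⟩
  have h2 := rank_le_two _ hX
  have h3 := rank_le_two _ h1
  have h4 : X.1.rank = 1 → (φ X).1.rank = 1 := aut_rank_one φ X hX
  have h5 : (φ X).1.rank = 1 → X.1.rank = 1 := by
    intro h
    have := aut_rank_one φ.symm (φ X) h1 h
    rwa [LieEquiv.symm_apply_apply] at this
  have h6 : X.1.rank = 0 → (φ X).1.rank = 0 := by
    intro h
    have h7 : X = 0 := Subtype.ext ((rank_zero_iff _).1 h)
    rw [h7, map_zero]
    exact Matrix.rank_zero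
  have h8 : (φ X).1.rank = 0 → X.1.rank = 0 := by
    intro h
    have h7 : φ X = 0 := Subtype.ext ((rank_zero_iff _).1 h)
    have h9 : X = 0 := φ.injective (h7.trans (map_zero φ).symm)
    rw [h9]
    exact Matrix.rank_zero
  omega

theorem aut_mem_sqSet (T : Set ℕ) (φ : LieAlgebra.Symplectic.sp (Fin 2) K ≃ₗ⁅K⁆
    LieAlgebra.Symplectic.sp (Fin 2) K) (X : LieAlgebra.Symplectic.sp (Fin 2) K)
    (hX : X ∈ sqSet K T) : φ X ∈ sqSet K T := by
  rcases hX with ⟨c, hc0, hc⟩ | rfl | ⟨h, h'⟩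
  · exact Or.inl ⟨c, hc0, aut_sq φ X c hc⟩
  · rw [map_zero]; exact Or.inr (Or.inl rfl)
  · obtain ⟨h1, h2⟩ := aut_rank_eq φ X h
    exact Or.inr (Or.inr ⟨h1, by rwa [h2]⟩)

/-- Invariant sets between the semisimple part and the whole set of elements with scalar
square. -/
theorem eq_sqSet (S : Set (LieAlgebra.Symplectic.sp (Fin 2) K))
    (h0 : (0 : LieAlgebra.Symplectic.sp (Fin 2) K) ∈ S)
    (hS : ∀ φ : LieAlgebra.Symplectic.sp (Fin 2) K ≃ₗ⁅K⁆ LieAlgebra.Symplectic.sp (Fin 2) K,
      ∀ X ∈ S, φ X ∈ S) (h1 : S ⊆ sqScalar K)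
    (h2 : ∀ c : K, c ≠ 0 → ∃ X ∈ S, X.1 * X.1 = c • (1 : Matrix N4 N4 K)) :
    ∃ T ⊆ ({1, 2} : Set ℕ), S = sqSet K T := by
  refine ⟨{k | (k = 1 ∨ k = 2) ∧ ∃ X ∈ S, X.1 * X.1 = 0 ∧ X.1.rank = k}, ?_, ?_⟩
  · rintro k ⟨hk, _⟩
    exact hk
  · apply Set.Subset.antisymm
    · intro X hX
      obtain ⟨c, hc⟩ := h1 hX
      by_cases hc0 : c = 0
      · rw [hc0, zero_smul] at hc
        by_cases hX0 : X = 0
        · exact Or.inr (Or.inl hX0)
        · refine Or.inr (Or.inr ⟨hc, ⟨?_, X, hX, hc, rfl⟩⟩)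
          have h3 := rank_le_two X.1 hc
          have h4 : X.1.rank ≠ 0 := fun h => hX0 (Subtype.ext ((rank_zero_iff X.1).1 h))
          omega
      · exact Or.inl ⟨c, hc0, hc⟩
    · rintro X (⟨c, hc0, hc⟩ | rfl | ⟨h, ⟨hk, Y, hY, hY2, hYr⟩⟩)
      · obtain ⟨Y, hY, hYc⟩ := h2 c hc0
        obtain ⟨s, hs⟩ := IsAlgClosed.exists_pow_nat_eq c (n := 2) (by norm_num)
        have hs0 : s ≠ 0 := by
          rintro rfl
          apply hc0
          rw [← hs]; ring
        obtain ⟨φ, hφ⟩ := orbit_ss Y X s hs0 (by rw [hYc, hs]) (by rw [hc, hs])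
        rw [← hφ]
        exact hS φ Y hY
      · exact h0
      · rcases hk with hk | hk
        · obtain ⟨φ, hφ⟩ := orbit_rank_one Y X (by rw [hYr, hk]) hk
          rw [← hφ]
          exact hS φ Y hY
        · obtain ⟨φ, hφ⟩ := orbit_rank_two Y X (by rw [hYr, hk]) hk hY2 h
          rw [← hφ]
          exact hS φ Y hY

/-- Non-dense images of arbitrary Lie polynomials. -/
theorem nondense_image {m : ℕ} (p : FreeLieAlgebra K (Fin m))
    (hnd : ¬ ∀ g ∈ PolyOn K (LieAlgebra.Symplectic.sp (Fin 2) K),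
      (∀ y ∈ lieImage (LieAlgebra.Symplectic.sp (Fin 2) K) p, g y = 0) → ∀ y, g y = 0) :
    lieImage (LieAlgebra.Symplectic.sp (Fin 2) K) p = {0} ∨
      ∃ T ⊆ ({1, 2} : Set ℕ), lieImage (LieAlgebra.Symplectic.sp (Fin 2) K) p = sqSet K T := by
  push Not at hnd
  obtain ⟨g, hg, hgS, Y, hgY⟩ := hnd
  obtain ⟨Φ, hΦ, hrel⟩ := relation (lieImage (LieAlgebra.Symplectic.sp (Fin 2) K) p)
    (fun φ X hX => aut_mem_lieImage φ X hX) g hg hgS Y hgY
  obtain ⟨f, hf, hsgn⟩ := exists_generic p
  have hval : ∀ v : Fin m × Fin 10 → K, FreeLieAlgebra.lift K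
      (fun i => spLin K (fun k => v (i, k))) p = spLin K (fun k => eval v (f k)) := by
    intro v
    apply Subtype.ext
    have h1 := map_lift (LieAlgebra.Symplectic.sp (Fin 2) K).incl
      (fun i => spLin K (fun k => v (i, k))) p
    have h2 := hf v
    change (LieAlgebra.Symplectic.sp (Fin 2) K).incl _ = spM (fun k => eval v (f k))
    rw [← h1, ← h2]
    rfl
  have hmem : ∀ v : Fin m × Fin 10 → K, spLin K (fun k => eval v (f k)) ∈
      lieImage (LieAlgebra.Symplectic.sp (Fin 2) K) p := fun v => ⟨_, hval v⟩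
  have himg : ∀ X ∈ lieImage (LieAlgebra.Symplectic.sp (Fin 2) K) p, ∃ v,
      X = spLin K (fun k => eval v (f k)) := by
    rintro X ⟨a, rfl⟩
    choose F hF using fun i => exists_spLin (a i)
    refine ⟨fun ik => F ik.1 ik.2, ?_⟩
    rw [← hval]
    simp only
    congr 2
    funext i
    exact (hF i).symm
  have hw : ∀ l, wS f l = 0 := by
    rcases dichotomy f hsgn with h | h
    · exact h
    · exfalso
      apply h Φ hΦ
      apply MvPolynomial.funext
      intro v
      rw [map_zero, ← hrel _ (hmem v)]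
      rw [aeval_def, eval₂_eq', map_sum, MvPolynomial.eval_eq']
      refine Finset.sum_congr rfl fun d _ => ?_
      rw [map_mul, map_prod]
      congr 1
      · exact eval_C _
      · refine Finset.prod_congr rfl fun i _ => ?_
        rw [map_pow]
        congr 1
        fin_cases i
        · exact eval_sS f v
        · exact eval_qS f v
  have hsq : ∀ v, (spLin K (fun k => eval v (f k))).1 * (spLin K (fun k => eval v (f k))).1 =
      (eval v (sS f)) • (1 : Matrix N4 N4 K) := by
    intro v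
    rw [sq_spLin, eval_sS]
    have h1 : wS (fun k => eval v (f k)) = 0 := by
      funext l
      rw [← eval_wS, hw, map_zero]
      rfl
    have h2 : vM (0 : Fin 5 → K) = 0 := by
      ext (i | i) (j | j) <;> fin_cases i <;> fin_cases j <;> simp [vM]
    rw [h1, h2, add_zero]
  have hzero : (0 : LieAlgebra.Symplectic.sp (Fin 2) K) ∈
      lieImage (LieAlgebra.Symplectic.sp (Fin 2) K) p := ⟨0, lift_zero p⟩
  by_cases hex : ∃ k, f k ≠ 0
  · right
    apply eq_sqSet _ hzero (fun φ X hX => aut_mem_lieImage φ X hX)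
    · intro X hX
      obtain ⟨v, rfl⟩ := himg X hX
      exact ⟨_, hsq v⟩
    · intro c _
      have hs := sS_ne_zero f hsgn hex
      obtain ⟨v₀, hv₀⟩ : ∃ v₀, eval v₀ (sS f) ≠ 0 := by
        by_contra hcon
        push Not at hcon
        exact hs (MvPolynomial.funext fun v => by rw [hcon, map_zero])
      have h00 : eval 0 (sS f) = 0 := by
        have h1 := hsq 0
        have h2 : spLin K (fun k => eval 0 (f k)) = 0 := by
          rw [← hval]
          have h3 : (fun i => spLin K (fun k => (0 : Fin m × Fin 10 → K) (i, k))) =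
              (0 : Fin m → LieAlgebra.Symplectic.sp (Fin 2) K) := by
            funext i
            exact map_zero (spLin K)
          rw [h3]
          exact lift_zero p
        rw [h2] at h1
        have h4 := congrFun (congrFun h1 (Sum.inl 0)) (Sum.inl 0)
        simpa using h4.symm
      obtain ⟨v, hv⟩ := exists_eval_eq (sS f) v₀ h00 hv₀ c
      exact ⟨_, hmem v, by rw [hsq, hv]⟩
  · left
    push Not at hex
    apply Set.Subset.antisymm
    · intro X hX
      obtain ⟨v, rfl⟩ := himg X hX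
      have h1 : (fun k => eval v (f k)) = 0 := by
        funext k
        rw [hex, map_zero]
        rfl
      rw [h1, map_zero]
      rfl
    · rintro _ rfl
      exact hzero

end main

end Pool.Agent.Lib.MP_d55432_al.H66
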