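import Pool.Agent.Lib.MP_d55432_al.H66.Occur

/-!
# Multilinear Lie polynomials on `sp₄`
-/

namespace Pool.Agent.Lib.MP_d55432_al.H66

open Matrix LieAlgebra

attribute [local instance 100] LieRing.ofAssociativeRing

variable {K : Type*} [Field K]

/-- Diagonal entries of a torus element. -/
def gv (K : Type*) [Field K] : N4 → K := Sum.elim ![32, 2] ![32⁻¹, 2⁻¹]

/-- A torus element. -/
def gM (K : Type*) [Field K] : Matrix N4 N4 K := Matrix.diagonal (gv K)

theorem gM_mul [CharZero K] : (gM K)ᵀ * Matrix.J (Fin 2) K * gM K = Matrix.J (Fin 2) K := by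
  ext (i | i) (j | j) <;> fin_cases i <;> fin_cases j <;>
    simp [gM, gv, Matrix.J]

/-- Conjugation by the torus element. -/
def gE (K : Type*) [Field K] [CharZero K] :
    LieAlgebra.Symplectic.sp (Fin 2) K ≃ₗ⁅K⁆ LieAlgebra.Symplectic.sp (Fin 2) K :=
  conjE (gM K) gM_mul

theorem gE_entry [CharZero K] (X : LieAlgebra.Symplectic.sp (Fin 2) K) (i j : N4) :
    (gE K X).1 i j * gv K j = gv K i * X.1 i j := by
  have h := (conjE_eq_iff (gM_mul (K := K)) X (gE K X)).1 rfl
  have h1 := congrFun (congrFun h i) j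
  rw [gM, Matrix.diagonal_mul, Matrix.mul_diagonal] at h1
  exact h1.symm

theorem mul_rk_mul {G : Matrix N4 N4 K} (hG : Gᵀ * Matrix.J (Fin 2) K * G = Matrix.J (Fin 2) K)
    (u w : N4 → K) : G * rk u w = rk (G *ᵥ u) (G *ᵥ w) * G := by
  have h1 : Matrix.J (Fin 2) K = Gᵀ * (Matrix.J (Fin 2) K * G) := by
    rw [← Matrix.mul_assoc, hG]
  have h2 : ∀ u w : N4 → K, vecMulVec (G *ᵥ u) (G *ᵥ w) = G * vecMulVec u w * Gᵀ := by
    intro u w
    rw [mul_vecMulVec, vecMulVec_mul, vecMul_transpose]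
  rw [rk, rk, h2, h2]
  conv_lhs => rw [h1]
  noncomm_ring

theorem rk_smul (a b : K) (u w : N4 → K) : rk (a • u) (b • w) = (a * b) • rk u w := by
  rw [rk, rk, ← Matrix.smul_mul]
  congr 1
  ext i j
  simp only [Matrix.add_apply, Matrix.smul_apply, vecMulVec_apply, Pi.smul_apply, smul_eq_mul]
  ring

/-- The weight vectors. -/
def xv (K : Type*) [Field K] (q : N4 × N4) : LieAlgebra.Symplectic.sp (Fin 2) K :=
  rkL (Pi.single q.1 1) (Pi.single q.2 1)

theorem gE_xv [CharZero K] (q : N4 × N4) : gE K (xv K q) = (gv K q.1 * gv K q.2) • xv K q := by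
  rw [gE, conjE_eq_iff]
  change gM K * rk _ _ = ((gv K q.1 * gv K q.2) • rk _ _) * gM K
  have h : ∀ i : N4, gM K *ᵥ (Pi.single i 1) = gv K i • (Pi.single i 1 : N4 → K) := by
    intro i
    rw [gM, Matrix.diagonal_mulVec_single]
    ext j
    simp [Pi.single_apply]
  rw [mul_rk_mul gM_mul, h, h, rk_smul]

/-- Some value of a multilinear equivariant map at weight vectors has a prescribed nonzero
entry. -/
theorem exists_weight [CharZero K] {m : ℕ}
    (f : MultilinearMap K (fun _ : Fin m => LieAlgebra.Symplectic.sp (Fin 2) K)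
      (LieAlgebra.Symplectic.sp (Fin 2) K))
    (hf : IsAutEquivariant K (f : (Fin m → LieAlgebra.Symplectic.sp (Fin 2) K) → _))
    (i j : N4) (a : Fin m → LieAlgebra.Symplectic.sp (Fin 2) K) (ha : (f a).1 i j ≠ 0) :
    ∃ y ∈ Set.range f, y.1 i j ≠ 0 ∧ ∃ M : K, gE K y = M • y := by
  have h1 : ∀ k, a k = ∑ q : N4 × N4, (-(1 / 2) * ((a k).1 * Matrix.J (Fin 2) K) q.1 q.2) •
      xv K q := by
    intro k
    rw [Fintype.sum_prod_type]
    exact eq_sum_rkL (a k)
  have h2 : f a = ∑ r : Fin m → N4 × N4, (∏ k, (-(1 / 2) *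
      ((a k).1 * Matrix.J (Fin 2) K) (r k).1 (r k).2)) • f (fun k => xv K (r k)) := by
    conv_lhs => rw [show a = fun k => ∑ q : N4 × N4, (-(1 / 2) *
      ((a k).1 * Matrix.J (Fin 2) K) q.1 q.2) • xv K q from funext h1]
    rw [MultilinearMap.map_sum]
    refine Finset.sum_congr rfl fun r _ => ?_
    rw [MultilinearMap.map_smul_univ]
  by_contra hcon
  push Not at hcon
  apply ha
  have h3 : ∀ r : Fin m → N4 × N4, (f (fun k => xv K (r k))).1 i j = 0 := by
    intro r
    by_contra hne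
    refine hcon _ ⟨_, rfl⟩ hne (∏ k, (gv K (r k).1 * gv K (r k).2)) ?_
    rw [← hf]
    simp only [gE_xv]
    rw [MultilinearMap.map_smul_univ]
  let ψ : LieAlgebra.Symplectic.sp (Fin 2) K →ₗ[K] K :=
    { toFun := fun X => X.1 i j
      map_add' := fun _ _ => rfl
      map_smul' := fun _ _ => rfl }
  change ψ (f a) = 0
  rw [h2, map_sum]
  refine Finset.sum_eq_zero fun r _ => ?_
  rw [map_smul]
  change _ • (f (fun k => xv K (r k))).1 i j = 0
  rw [h3, smul_zero]

/-- The image of a multilinear equivariant map with a nonzero entry contains root vectors. -/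
theorem exists_rank_one [CharZero K] {m : ℕ}
    (f : MultilinearMap K (fun _ : Fin m => LieAlgebra.Symplectic.sp (Fin 2) K)
      (LieAlgebra.Symplectic.sp (Fin 2) K))
    (hf : IsAutEquivariant K (f : (Fin m → LieAlgebra.Symplectic.sp (Fin 2) K) → _))
    (a : Fin m → LieAlgebra.Symplectic.sp (Fin 2) K)
    (ha : (f a).1 (Sum.inl 0) (Sum.inr 0) ≠ 0) :
    ∃ y ∈ Set.range f, y.1 * y.1 = 0 ∧ y.1.rank = 1 := by
  obtain ⟨y, hy, hne, M, hM⟩ := exists_weight f hf _ _ a ha
  have hent : ∀ i j, M * y.1 i j * gv K j = gv K i * y.1 i j := by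
    intro i j
    rw [← gE_entry, hM]
    rfl
  have hM2 : M = 1024 := by
    have h1 := hent (Sum.inl 0) (Sum.inr 0)
    simp only [gv, Sum.elim_inl, Sum.elim_inr, Matrix.cons_val_zero] at h1
    have h2 : (M - 1024) * y.1 (Sum.inl 0) (Sum.inr 0) = 0 := by linear_combination 32 * h1
    rcases mul_eq_zero.1 h2 with h3 | h3
    · exact sub_eq_zero.1 h3
    · exact absurd h3 hne
  have hzero : ∀ i j, ¬(i = Sum.inl 0 ∧ j = Sum.inr 0) → y.1 i j = 0 := by
    intro i j hij
    have h1 := hent i j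
    rw [hM2] at h1
    have h2 : (1024 * gv K j - gv K i) * y.1 i j = 0 := by linear_combination h1
    rcases mul_eq_zero.1 h2 with h3 | h3
    · exfalso
      rcases i with i | i <;> rcases j with j | j <;> fin_cases i <;> fin_cases j <;>
        simp [gv] at h3 hij <;> norm_num at h3
    · exact h3
  have hy1 : y.1 = vecMulVec (Pi.single (Sum.inl 0) (y.1 (Sum.inl 0) (Sum.inr 0)))
      (Pi.single (Sum.inr 0) 1) := by
    ext i j
    rw [vecMulVec_apply]
    by_cases hi : i = Sum.inl 0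
    · by_cases hj : j = Sum.inr 0
      · rw [hi, hj]; simp
      · rw [hzero i j (fun h => hj h.2)]
        simp [hj]
    · rw [hzero i j (fun h => hi h.1)]
      simp [hi]
  refine ⟨y, hy, ?_, le_antisymm ?_ ?_⟩
  · rw [hy1, vecMulVec_mul_vecMulVec]
    simp
  · rw [hy1]
    exact Matrix.rank_vecMulVec_le _ _
  · rw [Nat.one_le_iff_ne_zero]
    intro h0
    apply hne
    rw [(rank_zero_iff _).1 h0]
    rfl

theorem exists_rank_two [CharZero K] {m : ℕ}
    (f : MultilinearMap K (fun _ : Fin m => LieAlgebra.Symplectic.sp (Fin 2) K)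
      (LieAlgebra.Symplectic.sp (Fin 2) K))
    (hf : IsAutEquivariant K (f : (Fin m → LieAlgebra.Symplectic.sp (Fin 2) K) → _))
    (a : Fin m → LieAlgebra.Symplectic.sp (Fin 2) K)
    (ha : (f a).1 (Sum.inl 0) (Sum.inr 1) ≠ 0) :
    ∃ y ∈ Set.range f, y.1 * y.1 = 0 ∧ y.1.rank = 2 := by
  obtain ⟨y, hy, hne, M, hM⟩ := exists_weight f hf _ _ a ha
  have hent : ∀ i j, M * y.1 i j * gv K j = gv K i * y.1 i j := by
    intro i j
    rw [← gE_entry, hM]
    rfl
  have hM2 : M = 64 := by
    have h1 := hent (Sum.inl 0) (Sum.inr 1)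
    simp only [gv, Sum.elim_inl, Sum.elim_inr, Matrix.cons_val_zero, Matrix.cons_val_one] at h1
    have h2 : (M - 64) * y.1 (Sum.inl 0) (Sum.inr 1) = 0 := by linear_combination 2 * h1
    rcases mul_eq_zero.1 h2 with h3 | h3
    · exact sub_eq_zero.1 h3
    · exact absurd h3 hne
  have hzero : ∀ i j, ¬(i = Sum.inl 0 ∧ j = Sum.inr 1) → ¬(i = Sum.inl 1 ∧ j = Sum.inr 0) →
      y.1 i j = 0 := by
    intro i j hij hij'
    have h1 := hent i j
    rw [hM2] at h1
    have h2 : (64 * gv K j - gv K i) * y.1 i j = 0 := by linear_combination h1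
    rcases mul_eq_zero.1 h2 with h3 | h3
    · exfalso
      rcases i with i | i <;> rcases j with j | j <;> fin_cases i <;> fin_cases j <;>
        simp [gv] at h3 hij hij' <;> norm_num at h3
    · exact h3
  have hsymm : y.1 (Sum.inl 1) (Sum.inr 0) = y.1 (Sum.inl 0) (Sum.inr 1) := by
    have h1 := sp_transpose y.2
    have h2 := congrFun (congrFun h1 (Sum.inr 0)) (Sum.inl 1)
    simp [Matrix.J, Matrix.mul_apply, Fintype.sum_sum_type, Matrix.one_apply] at h2
    exact h2
  have h00 : y.1 * y.1 = 0 := by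
    ext i j
    rw [Matrix.mul_apply, Matrix.zero_apply]
    refine Finset.sum_eq_zero fun k _ => ?_
    rcases k with k | k
    · rw [hzero i (Sum.inl k) (by simp) (by simp), zero_mul]
    · rw [hzero (Sum.inr k) j (by simp) (by simp), mul_zero]
  refine ⟨y, hy, h00, le_antisymm (rank_le_two _ h00) ?_⟩
  apply rank_ge_two (Sum.inl 0) (Sum.inl 1) (Sum.inr 1) (Sum.inr 0)
  rw [hsymm, hzero (Sum.inl 0) (Sum.inr 0) (by simp) (by simp), zero_mul, sub_zero]
  exact mul_ne_zero hne hne

/-- Non-dense images of multilinear Lie polynomials. -/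
theorem multilinear_nondense [CharZero K] [IsAlgClosed K]
    (S : Set (LieAlgebra.Symplectic.sp (Fin 2) K))
    (hnd : ¬ ∀ g ∈ PolyOn K (LieAlgebra.Symplectic.sp (Fin 2) K),
      (∀ y ∈ S, g y = 0) → ∀ y, g y = 0) :
    (∃ (m : ℕ) (p : FreeLieAlgebra K (Fin m)), IsMultilinearLie p ∧
      S = lieImage (LieAlgebra.Symplectic.sp (Fin 2) K) p) ↔ S = {0} ∨ S = sqScalar K := by
  have := sp_finite (K := K)
  have := sp_isSimple (K := K) (l := Fin 2)
  constructor
  · rintro ⟨m, p, hp, hS⟩
    obtain ⟨m', f, _, hf, hSf⟩ := (multilinear_images S).1 ⟨m, p, hp, hS⟩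
    rw [hS] at hnd
    rcases nondense_image p hnd with h | ⟨T, hT, h⟩
    · left
      rw [hS, h]
    · right
      rw [← hS] at h
      have h1 : ∃ a, (f a).1 (Sum.inl 0) (Sum.inr 0) ≠ 0 := by
        have h2 : (⟨Matrix.fromBlocks 0 1 1 0, by
            rw [mem_sp]
            ext (i | i) (j | j) <;> fin_cases i <;> fin_cases j <;>
              simp [Matrix.J, Matrix.mul_apply]⟩ :
            LieAlgebra.Symplectic.sp (Fin 2) K) ∈ S := by
          rw [h]
          refine Or.inl ⟨1, one_ne_zero, ?_⟩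
          rw [Matrix.fromBlocks_multiply]
          ext (i | i) (j | j) <;> simp [Matrix.one_apply]
        rw [hSf] at h2
        obtain ⟨a, ha⟩ := h2
        refine ⟨a, ?_⟩
        rw [ha]
        simp
      have h1' : ∃ a, (f a).1 (Sum.inl 0) (Sum.inr 1) ≠ 0 := by
        have h2 : (⟨Matrix.fromBlocks 0 !![0, 1; 1, 0] !![0, 1; 1, 0] 0, by
            rw [mem_sp]
            ext (i | i) (j | j) <;> fin_cases i <;> fin_cases j <;>
              simp [Matrix.J, Matrix.mul_apply]⟩ :
            LieAlgebra.Symplectic.sp (Fin 2) K) ∈ S := by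
          rw [h]
          refine Or.inl ⟨1, one_ne_zero, ?_⟩
          rw [Matrix.fromBlocks_multiply]
          ext (i | i) (j | j) <;> fin_cases i <;> fin_cases j <;> simp
        rw [hSf] at h2
        obtain ⟨a, ha⟩ := h2
        refine ⟨a, ?_⟩
        rw [ha]
        simp
      obtain ⟨a, ha⟩ := h1
      obtain ⟨a', ha'⟩ := h1'
      obtain ⟨y, hy, hy2, hyr⟩ := exists_rank_one f hf a ha
      obtain ⟨y', hy', hy2', hyr'⟩ := exists_rank_two f hf a' ha'
      have hmem : ∀ (y : LieAlgebra.Symplectic.sp (Fin 2) K) (k : ℕ), y ∈ Set.range f →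
          y.1 * y.1 = 0 → y.1.rank = k → k ≠ 0 → k ∈ T := by
        intro y k hy hy2 hyr hk
        rw [← hSf, h] at hy
        rcases hy with ⟨c, hc0, hc⟩ | h0 | ⟨_, h0⟩
        · exfalso
          rw [hy2] at hc
          have h4 := congrFun (congrFun hc (Sum.inl 0)) (Sum.inl 0)
          simp at h4
          exact hc0 h4.symm
        · exfalso
          rw [h0] at hyr
          rw [show (0 : LieAlgebra.Symplectic.sp (Fin 2) K).1 = 0 from rfl,
            Matrix.rank_zero] at hyr
          exact hk hyr.symm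
        · rwa [← hyr]
      have hT2 : T = {1, 2} := by
        apply Set.Subset.antisymm hT
        rintro k (rfl | rfl)
        · exact hmem y 1 hy hy2 hyr one_ne_zero
        · exact hmem y' 2 hy' hy2' hyr' two_ne_zero
      rw [h, hT2, sqSet_full]
  · rintro (h | h)
    · refine ⟨1, 0, Submodule.zero_mem _, ?_⟩
      rw [h]
      ext X
      constructor
      · rintro rfl
        exact ⟨0, map_zero _⟩
      · rintro ⟨a, rfl⟩
        exact map_zero _
    · rw [h]
      exact exists_multilinear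

end Pool.Agent.Lib.MP_d55432_al.H66
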