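import Pool.Agent.Lib.MP_d55432_al.H66.Main

/-!
# All sets of elements with scalar square between the extremes occur as images
-/

namespace Pool.Agent.Lib.MP_d55432_al.H66

open Matrix LieAlgebra MvPolynomial

attribute [local instance 100] LieRing.ofAssociativeRing

variable {K : Type*} [Field K]

theorem sp_finite [CharZero K] : FiniteDimensional K (LieAlgebra.Symplectic.sp (Fin 2) K) :=
  Module.Finite.of_surjective (spLin K) exists_spLin

theorem homogeneous_of_multilinear {m : ℕ} {p : FreeLieAlgebra K (Fin m)}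
    (hp : IsMultilinearLie p) : IsHomogeneousLie m p := by
  refine Submodule.span_mono ?_ hp
  intro w hw
  exact ⟨_, by simp, hw⟩

theorem exists_multilinear [CharZero K] [IsAlgClosed K] :
    ∃ (m : ℕ) (p : FreeLieAlgebra K (Fin m)), IsMultilinearLie p ∧
      sqScalar K = lieImage (LieAlgebra.Symplectic.sp (Fin 2) K) p := by
  have := sp_finite (K := K)
  have := sp_isSimple (K := K) (l := Fin 2)
  rw [multilinear_images]
  exact ⟨4, accM, by norm_num, accM_equivariant, range_accM.symm⟩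

section boolean

variable {X : Type*}

theorem BoolComb.univ' {A : Set (X → K)} (h0 : (0 : X → K) ∈ A) : BoolComb A (Set.univ : Set X) := by
  have h := BoolComb.zeros (0 : X → K) h0
  have h2 : {x : X | (0 : X → K) x = 0} = Set.univ := by ext x; simp
  rwa [h2] at h

theorem BoolComb.finset {A : Set (X → K)} (h0 : (0 : X → K) ∈ A) {ι : Type*} (s : Finset ι)
    (S : ι → Set X) (hS : ∀ i ∈ s, BoolComb A (S i)) : BoolComb A {x | ∀ i ∈ s, x ∈ S i} := by
  classical
  induction s using Finset.induction_on with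
  | empty =>
    have h2 : {x : X | ∀ i ∈ (∅ : Finset ι), x ∈ S i} = Set.univ := by ext x; simp
    rw [h2]
    exact BoolComb.univ' h0
  | insert a s ha ih =>
    have h2 : {x : X | ∀ i ∈ insert a s, x ∈ S i} = S a ∩ {x | ∀ i ∈ s, x ∈ S i} := by
      ext x; simp
    rw [h2]
    exact (hS a (Finset.mem_insert_self _ _)).inter
      (ih fun i hi => hS i (Finset.mem_insert_of_mem hi))

theorem BoolComb.all {A : Set (X → K)} (h0 : (0 : X → K) ∈ A) {ι : Type*} [Fintype ι]
    (g : ι → X → K) (hg : ∀ i, g i ∈ A) : BoolComb A {x | ∀ i, g i x = 0} := by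
  have h := BoolComb.finset h0 (Finset.univ : Finset ι) (fun i => {x | g i x = 0})
    (fun i _ => BoolComb.zeros _ (hg i))
  have h2 : {x : X | ∀ i ∈ (Finset.univ : Finset ι), x ∈ {x | g i x = 0}} =
      {x | ∀ i, g i x = 0} := by ext x; simp
  rwa [h2] at h

end boolean

theorem entry_mem (i j : N4) : (fun X : LieAlgebra.Symplectic.sp (Fin 2) K => X.1 i j) ∈
    PolyOn K (LieAlgebra.Symplectic.sp (Fin 2) K) := by
  let ψ : Module.Dual K (LieAlgebra.Symplectic.sp (Fin 2) K) :=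
    { toFun := fun X => X.1 i j
      map_add' := fun _ _ => rfl
      map_smul' := fun _ _ => rfl }
  exact Algebra.subset_adjoin ⟨ψ, rfl⟩

theorem sq_entry_mem (i j : N4) :
    (fun X : LieAlgebra.Symplectic.sp (Fin 2) K => (X.1 * X.1) i j) ∈
    PolyOn K (LieAlgebra.Symplectic.sp (Fin 2) K) := by
  have h : (fun X : LieAlgebra.Symplectic.sp (Fin 2) K => (X.1 * X.1) i j) =
      ∑ k : N4, (fun X : LieAlgebra.Symplectic.sp (Fin 2) K => X.1 i k) *
        (fun X : LieAlgebra.Symplectic.sp (Fin 2) K => X.1 k j) := by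
    funext X
    rw [Finset.sum_apply, Matrix.mul_apply]
    rfl
  rw [h]
  exact Subalgebra.sum_mem _ fun k _ => Subalgebra.mul_mem _ (entry_mem i k) (entry_mem k j)

theorem boolComb_sqSet (T : Set ℕ) (hT : T ⊆ {1, 2}) :
    BoolComb (PolyOn K (LieAlgebra.Symplectic.sp (Fin 2) K) :
      Set (LieAlgebra.Symplectic.sp (Fin 2) K → K)) (sqSet K T) := by
  classical
  have h0 : (0 : LieAlgebra.Symplectic.sp (Fin 2) K → K) ∈
      (PolyOn K (LieAlgebra.Symplectic.sp (Fin 2) K) :
      Set (LieAlgebra.Symplectic.sp (Fin 2) K → K)) := Subalgebra.zero_mem _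
  -- the basic sets
  have hD : BoolComb (PolyOn K (LieAlgebra.Symplectic.sp (Fin 2) K) :
      Set (LieAlgebra.Symplectic.sp (Fin 2) K → K)) (sqScalar K) := by
    have h1 := BoolComb.all h0 (fun (ij : N4 × N4) (X : LieAlgebra.Symplectic.sp (Fin 2) K) =>
      (X.1 * X.1) ij.1 ij.2 - (1 : Matrix N4 N4 K) ij.1 ij.2 * (X.1 * X.1) (Sum.inl 0) (Sum.inl 0))
      (fun ij => Subalgebra.sub_mem _ (sq_entry_mem _ _)
        (Subalgebra.mul_mem _ (Subalgebra.algebraMap_mem _ ((1 : Matrix N4 N4 K) ij.1 ij.2))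
          (sq_entry_mem _ _)))
    have h2 : {X : LieAlgebra.Symplectic.sp (Fin 2) K | ∀ ij : N4 × N4, (X.1 * X.1) ij.1 ij.2 -
        (1 : Matrix N4 N4 K) ij.1 ij.2 * (X.1 * X.1) (Sum.inl 0) (Sum.inl 0) = 0} =
        sqScalar K := by
      ext X
      constructor
      · intro h
        refine ⟨(X.1 * X.1) (Sum.inl 0) (Sum.inl 0), ?_⟩
        ext i j
        have := h (i, j)
        rw [Matrix.smul_apply, smul_eq_mul]
        simp only at this
        linear_combination this
      · rintro ⟨c, hc⟩ ij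
        rw [hc]
        simp [mul_comm]
    rwa [h2] at h1
  have hN : BoolComb (PolyOn K (LieAlgebra.Symplectic.sp (Fin 2) K) :
      Set (LieAlgebra.Symplectic.sp (Fin 2) K → K))
      {X : LieAlgebra.Symplectic.sp (Fin 2) K | X.1 * X.1 = 0} := by
    have h1 := BoolComb.all h0 (fun (ij : N4 × N4) (X : LieAlgebra.Symplectic.sp (Fin 2) K) =>
      (X.1 * X.1) ij.1 ij.2) (fun ij => sq_entry_mem _ _)
    have h2 : {X : LieAlgebra.Symplectic.sp (Fin 2) K | ∀ ij : N4 × N4,
        (X.1 * X.1) ij.1 ij.2 = 0} = {X | X.1 * X.1 = 0} := by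
      ext X
      constructor
      · intro h
        ext i j
        exact h (i, j)
      · intro h ij
        rw [show X.1 * X.1 = 0 from h]
        rfl
    rwa [h2] at h1
  have hZ : BoolComb (PolyOn K (LieAlgebra.Symplectic.sp (Fin 2) K) :
      Set (LieAlgebra.Symplectic.sp (Fin 2) K → K))
      {X : LieAlgebra.Symplectic.sp (Fin 2) K | X = 0} := by
    have h1 := BoolComb.all h0 (fun (ij : N4 × N4) (X : LieAlgebra.Symplectic.sp (Fin 2) K) =>
      X.1 ij.1 ij.2) (fun ij => entry_mem _ _)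
    have h2 : {X : LieAlgebra.Symplectic.sp (Fin 2) K | ∀ ij : N4 × N4,
        X.1 ij.1 ij.2 = 0} = {X | X = 0} := by
      ext X
      constructor
      · intro h
        apply Subtype.ext
        ext i j
        exact h (i, j)
      · rintro h ij
        rw [show X = 0 from h]
        rfl
    rwa [h2] at h1
  have hR : BoolComb (PolyOn K (LieAlgebra.Symplectic.sp (Fin 2) K) :
      Set (LieAlgebra.Symplectic.sp (Fin 2) K → K))
      {X : LieAlgebra.Symplectic.sp (Fin 2) K | X.1.rank ≤ 1} := by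
    have h1 := BoolComb.all h0 (fun (q : N4 × N4 × N4 × N4)
      (X : LieAlgebra.Symplectic.sp (Fin 2) K) => X.1 q.1 q.2.2.1 * X.1 q.2.1 q.2.2.2 -
        X.1 q.1 q.2.2.2 * X.1 q.2.1 q.2.2.1) (fun q => Subalgebra.sub_mem _
          (Subalgebra.mul_mem _ (entry_mem _ _) (entry_mem _ _))
          (Subalgebra.mul_mem _ (entry_mem _ _) (entry_mem _ _)))
    have h2 : {X : LieAlgebra.Symplectic.sp (Fin 2) K | ∀ q : N4 × N4 × N4 × N4,
        X.1 q.1 q.2.2.1 * X.1 q.2.1 q.2.2.2 - X.1 q.1 q.2.2.2 * X.1 q.2.1 q.2.2.1 = 0} =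
        {X | X.1.rank ≤ 1} := by
      ext X
      constructor
      · intro h
        exact rank_le_one_of_minors fun i j k l => h (i, j, k, l)
      · intro h q
        exact minors_of_rank_le_one h _ _ _ _
    rwa [h2] at h1
  -- the nilpotent parts
  have hone : BoolComb (PolyOn K (LieAlgebra.Symplectic.sp (Fin 2) K) :
      Set (LieAlgebra.Symplectic.sp (Fin 2) K → K))
      {X : LieAlgebra.Symplectic.sp (Fin 2) K | X.1 * X.1 = 0 ∧ X.1.rank = 1 ∧ 1 ∈ T} := by
    by_cases h : 1 ∈ T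
    · have h1 := (hN.inter hR).inter hZ.compl
      have h2 : {X : LieAlgebra.Symplectic.sp (Fin 2) K | X.1 * X.1 = 0 ∧ X.1.rank = 1 ∧ 1 ∈ T} =
          {X : LieAlgebra.Symplectic.sp (Fin 2) K | X.1 * X.1 = 0} ∩ {X | X.1.rank ≤ 1} ∩
            {X | X = 0}ᶜ := by
        ext X
        constructor
        · rintro ⟨h3, h4, _⟩
          refine ⟨⟨h3, h4.le⟩, ?_⟩
          rintro (rfl : X = 0)
          have : (0 : Matrix N4 N4 K).rank = 1 := h4
          rw [Matrix.rank_zero] at this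
          exact zero_ne_one this
        · rintro ⟨⟨h3, h4⟩, h5⟩
          refine ⟨h3, le_antisymm h4 (Nat.one_le_iff_ne_zero.2 fun h6 => ?_), h⟩
          exact h5 (Subtype.ext ((rank_zero_iff X.1).1 h6))
      rwa [h2]
    · have h2 : {X : LieAlgebra.Symplectic.sp (Fin 2) K | X.1 * X.1 = 0 ∧ X.1.rank = 1 ∧ 1 ∈ T} =
          Set.univᶜ := by
        ext X
        simp [h]
      rw [h2]
      exact (BoolComb.univ' h0).compl
  have htwo : BoolComb (PolyOn K (LieAlgebra.Symplectic.sp (Fin 2) K) :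
      Set (LieAlgebra.Symplectic.sp (Fin 2) K → K))
      {X : LieAlgebra.Symplectic.sp (Fin 2) K | X.1 * X.1 = 0 ∧ X.1.rank = 2 ∧ 2 ∈ T} := by
    by_cases h : 2 ∈ T
    · have h1 := hN.inter hR.compl
      have h2 : {X : LieAlgebra.Symplectic.sp (Fin 2) K | X.1 * X.1 = 0 ∧ X.1.rank = 2 ∧ 2 ∈ T} =
          {X : LieAlgebra.Symplectic.sp (Fin 2) K | X.1 * X.1 = 0} ∩ {X | X.1.rank ≤ 1}ᶜ := by
        ext X
        constructor
        · rintro ⟨h3, h4, _⟩
          refine ⟨h3, ?_⟩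
          intro (h5 : X.1.rank ≤ 1)
          omega
        · rintro ⟨h3, h4⟩
          have h5 := rank_le_two X.1 h3
          have h6 : ¬ X.1.rank ≤ 1 := h4
          exact ⟨h3, by omega, h⟩
      rwa [h2]
    · have h2 : {X : LieAlgebra.Symplectic.sp (Fin 2) K | X.1 * X.1 = 0 ∧ X.1.rank = 2 ∧ 2 ∈ T} =
          Set.univᶜ := by
        ext X
        simp [h]
      rw [h2]
      exact (BoolComb.univ' h0).compl
  have hfinal := (((hD.inter hN.compl).union hZ).union hone).union htwo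
  have h2 : sqSet K T = (((sqScalar K ∩ {X : LieAlgebra.Symplectic.sp (Fin 2) K |
      X.1 * X.1 = 0}ᶜ) ∪ {X | X = 0}) ∪ {X | X.1 * X.1 = 0 ∧ X.1.rank = 1 ∧ 1 ∈ T}) ∪
      {X | X.1 * X.1 = 0 ∧ X.1.rank = 2 ∧ 2 ∈ T} := by
    ext X
    constructor
    · rintro (⟨c, hc0, hc⟩ | h | ⟨h, h'⟩)
      · refine Or.inl (Or.inl (Or.inl ⟨⟨c, hc⟩, ?_⟩))
        intro (h3 : X.1 * X.1 = 0)
        rw [h3] at hc
        have h4 := congrFun (congrFun hc (Sum.inl 0)) (Sum.inl 0)
        simp at h4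
        exact hc0 h4.symm
      · exact Or.inl (Or.inl (Or.inr h))
      · rcases hT h' with h3 | h3
        · exact Or.inl (Or.inr ⟨h, h3, by rw [← h3]; exact h'⟩)
        · exact Or.inr ⟨h, h3, by
            have h4 : X.1.rank = 2 := h3
            rw [← h4]; exact h'⟩
    · rintro (((⟨⟨c, hc⟩, h⟩ | h) | ⟨h, h3, h4⟩) | ⟨h, h3, h4⟩)
      · refine Or.inl ⟨c, ?_, hc⟩
        rintro rfl
        rw [zero_smul] at hc
        exact h hc
      · exact Or.inr (Or.inl h)
      · exact Or.inr (Or.inr ⟨h, by rw [h3]; exact h4⟩)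
      · exact Or.inr (Or.inr ⟨h, by rw [h3]; exact h4⟩)
  rwa [h2]

/-- Products of polynomial functions on tuples vanish only if one factor vanishes. -/
theorem polyFun_mul_eq_zero [CharZero K] {L : Type*} [LieRing L] [LieAlgebra K L]
    [FiniteDimensional K L] {σ : Type*} (u w : (σ → L) → K) (hu : u ∈ PolyFun K L σ)
    (hw : w ∈ PolyFun K L σ) (h : ∀ a, u a * w a = 0) (a₀ : σ → L) (hw0 : w a₀ ≠ 0) (a : σ → L) :
    u a = 0 := by
  let e := Module.finBasis K L
  obtain ⟨P, hP⟩ := exists_mvPolynomial e u hu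
  obtain ⟨Q, hQ⟩ := exists_mvPolynomial e w hw
  have hsurj : ∀ v : σ × Fin (Module.finrank K L) → K, ∃ a : σ → L,
      (fun ik : σ × Fin (Module.finrank K L) => e.repr (a ik.1) ik.2) = v := by
    intro v
    refine ⟨fun i => e.equivFun.symm (fun k => v (i, k)), ?_⟩
    funext ik
    have := congrFun (e.equivFun.apply_symm_apply (fun k => v (ik.1, k))) ik.2
    rwa [Module.Basis.equivFun_apply] at this
  have hPQ : P * Q = 0 := by
    apply MvPolynomial.funext
    intro v
    obtain ⟨b, hb⟩ := hsurj v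
    rw [map_mul, map_zero, ← hb, ← hP, ← hQ]
    exact h b
  have hQ0 : Q ≠ 0 := by
    rintro rfl
    apply hw0
    rw [hQ, map_zero]
  rcases mul_eq_zero.1 hPQ with h1 | h1
  · rw [hP, h1, map_zero]
  · exact absurd h1 hQ0

theorem dense_sqSet [CharZero K] [IsAlgClosed K] (T : Set ℕ)
    (g : LieAlgebra.Symplectic.sp (Fin 2) K → K)
    (hg : g ∈ PolyOn K (LieAlgebra.Symplectic.sp (Fin 2) K))
    (h : ∀ y ∈ sqSet K T, g y = 0) (y : LieAlgebra.Symplectic.sp (Fin 2) K)
    (hy : y ∈ sqScalar K) : g y = 0 := by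
  have := sp_finite (K := K)
  rw [← range_accM] at hy
  obtain ⟨a, rfl⟩ := hy
  have hz : ∀ ψ : Module.Dual K (LieAlgebra.Symplectic.sp (Fin 2) K),
      (fun a => ψ ((accM : MultilinearMap K
        (fun _ : Fin 4 => LieAlgebra.Symplectic.sp (Fin 2) K) _) a)) ∈
      PolyFun K (LieAlgebra.Symplectic.sp (Fin 2) K) (Fin 4) := fun ψ =>
    isPolyMap_multilinear (K := K) (L := LieAlgebra.Symplectic.sp (Fin 2) K) accM ψ
  refine polyFun_mul_eq_zero (fun a => g ((accM : MultilinearMap K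
    (fun _ : Fin 4 => LieAlgebra.Symplectic.sp (Fin 2) K) _) a))
    (fun a => (((accM : MultilinearMap K (fun _ : Fin 4 => LieAlgebra.Symplectic.sp (Fin 2) K) _)
      a).1 * ((accM : MultilinearMap K (fun _ : Fin 4 => LieAlgebra.Symplectic.sp (Fin 2) K) _)
      a).1) (Sum.inl 0) (Sum.inl 0))
    (polyOn_comp K _ _ hz hg) (polyOn_comp K _ _ hz (sq_entry_mem _ _)) ?_
    ![eL K 0, eL K 1, eL K 0, eL K 2] ?_ a
  · intro b
    by_cases h0 : (((accM : MultilinearMap K
        (fun _ : Fin 4 => LieAlgebra.Symplectic.sp (Fin 2) K) _) b).1 * ((accM : MultilinearMap K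
        (fun _ : Fin 4 => LieAlgebra.Symplectic.sp (Fin 2) K) _) b).1) (Sum.inl 0)
        (Sum.inl 0) = 0
    · simp only [h0, mul_zero]
    · have h1 : (accM : MultilinearMap K (fun _ : Fin 4 =>
          LieAlgebra.Symplectic.sp (Fin 2) K) _) b ∈ sqScalar K := by
        rw [← range_accM]
        exact ⟨b, rfl⟩
      obtain ⟨c, hc⟩ := h1
      have h2 : g ((accM : MultilinearMap K (fun _ : Fin 4 =>
          LieAlgebra.Symplectic.sp (Fin 2) K) _) b) = 0 := by
        apply h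
        refine Or.inl ⟨c, ?_, hc⟩
        rintro rfl
        apply h0
        rw [hc]
        simp
      simp only [h2, zero_mul]
  · rw [accM_apply, val_zero]
    simp [Matrix.mul_apply, Fin.sum_univ_two]

theorem smul_mem_sqSet (T : Set ℕ) (t : K) (X : LieAlgebra.Symplectic.sp (Fin 2) K)
    (hX : X ∈ sqSet K T) : t • X ∈ sqSet K T := by
  by_cases ht : t = 0
  · rw [ht, zero_smul]
    exact Or.inr (Or.inl rfl)
  have hsq : (t • X).1 * (t • X).1 = (t * t) • (X.1 * X.1) := by
    change (t • X.1) * (t • X.1) = _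
    rw [Matrix.smul_mul, Matrix.mul_smul, smul_smul]
  rcases hX with ⟨c, hc0, hc⟩ | rfl | ⟨h, h'⟩
  · refine Or.inl ⟨t * t * c, mul_ne_zero (mul_ne_zero ht ht) hc0, ?_⟩
    rw [hsq, hc, smul_smul]
  · rw [smul_zero]
    exact Or.inr (Or.inl rfl)
  · refine Or.inr (Or.inr ⟨by rw [hsq, h, smul_zero], ?_⟩)
    have h1 : (t • X).1.rank = X.1.rank :=
      Matrix.rank_smul_of_mem_nonZeroDivisors X.1 (mem_nonZeroDivisors_of_ne_zero ht)
    rwa [h1]

/-- The five non-dense sets are images of homogeneous Lie polynomials. -/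
theorem exists_homogeneous [CharZero K] [IsAlgClosed K] (T : Set ℕ) (hT : T ⊆ {1, 2}) :
    ∃ (m d : ℕ) (p : FreeLieAlgebra K (Fin m)), IsHomogeneousLie d p ∧
      sqSet K T = lieImage (LieAlgebra.Symplectic.sp (Fin 2) K) p := by
  have := sp_finite (K := K)
  have := sp_isSimple (K := K) (l := Fin 2)
  rw [images_iff]
  obtain ⟨m, p, hp, hpe⟩ := exists_multilinear (K := K)
  refine ⟨Or.inr (Or.inl rfl), smul_mem_sqSet T, aut_mem_sqSet T, boolComb_sqSet T hT, m, m, p,
    homogeneous_of_multilinear hp, ?_, ?_⟩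
  · rw [← hpe]
    exact sqSet_subset T
  · intro g hg h y hy
    rw [← hpe] at hy
    exact dense_sqSet T g hg h y hy

/-- The images of homogeneous Lie polynomials on `sp₄`. -/
theorem homogeneous_classification [CharZero K] [IsAlgClosed K]
    (S : Set (LieAlgebra.Symplectic.sp (Fin 2) K)) :
    (∃ (m d : ℕ) (p : FreeLieAlgebra K (Fin m)), IsHomogeneousLie d p ∧
      S = lieImage (LieAlgebra.Symplectic.sp (Fin 2) K) p) ↔
    (S = {0} ∨ (∃ T ⊆ ({1, 2} : Set ℕ), S = sqSet K T) ∨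
      ((0 : LieAlgebra.Symplectic.sp (Fin 2) K) ∈ S ∧ (∀ (t : K), ∀ x ∈ S, t • x ∈ S) ∧
        (∀ φ : LieAlgebra.Symplectic.sp (Fin 2) K ≃ₗ⁅K⁆ LieAlgebra.Symplectic.sp (Fin 2) K,
          ∀ x ∈ S, φ x ∈ S) ∧
        BoolComb (PolyOn K (LieAlgebra.Symplectic.sp (Fin 2) K) :
          Set (LieAlgebra.Symplectic.sp (Fin 2) K → K)) S ∧
        ∀ g ∈ PolyOn K (LieAlgebra.Symplectic.sp (Fin 2) K), (∀ y ∈ S, g y = 0) → ∀ y, g y = 0)) := by
  have := sp_finite (K := K)
  have := sp_isSimple (K := K) (l := Fin 2)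
  constructor
  · rintro ⟨m, d, p, hp, rfl⟩
    by_cases hd : ∀ g ∈ PolyOn K (LieAlgebra.Symplectic.sp (Fin 2) K),
      (∀ y ∈ lieImage (LieAlgebra.Symplectic.sp (Fin 2) K) p, g y = 0) → ∀ y, g y = 0
    · right; right
      have h1 := (dense_images_iff _ hd).1 ⟨m, d, p, hp, rfl⟩
      exact ⟨h1.1, h1.2.1, h1.2.2.1, h1.2.2.2, hd⟩
    · rcases nondense_image p hd with h | h
      · exact Or.inl h
      · exact Or.inr (Or.inl h)
  · rintro (rfl | ⟨T, hT, rfl⟩ | ⟨h0, h1, h2, h3, h4⟩)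
    · refine ⟨1, 1, 0, Submodule.zero_mem _, ?_⟩
      ext X
      constructor
      · rintro rfl
        exact ⟨0, map_zero _⟩
      · rintro ⟨a, rfl⟩
        exact map_zero _
    · exact exists_homogeneous T hT
    · exact (dense_images_iff S h4).2 ⟨h0, h1, h2, h3⟩

end Pool.Agent.Lib.MP_d55432_al.H66
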