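import Pool.Agent.Lib.MP_d55432_al.H66.Frames

/-!
# Orbits of the symplectic group on elements with scalar square and on regular elements
-/

namespace Pool.Agent.Lib.MP_d55432_al.H66

open Matrix LieAlgebra

attribute [local instance 100] LieRing.ofAssociativeRing

variable {K : Type*} [Field K]

/-- Completion of an isotropic pair to a frame. -/
theorem complete_pair [CharZero K] {u₁ u₂ : N4 → K} (h1 : u₁ ≠ 0) (h2 : ∀ c : K, u₂ - c • u₁ ≠ 0)
    (h12 : om u₁ u₂ = 0) : ∃ g : N4 → N4 → K, IsFrame g ∧ g (Sum.inl 0) = u₁ ∧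
      g (Sum.inl 1) = u₂ := by
  obtain ⟨v₁, v₂, h11, h21, h12', h22⟩ := exists_dual h1 h2
  have h10 : om v₁ u₁ = -1 := by rw [om_comm, h11]
  refine ⟨Sum.elim ![u₁, u₂] ![-1 • v₁, -1 • v₂ + (-om v₁ v₂) • u₁], ⟨?_, ?_, ?_⟩, rfl, rfl⟩
  · exact h12
  · change om ((-1 : ℤ) • v₁) ((-1 : ℤ) • v₂ + (-om v₁ v₂) • u₁) = 0
    rw [neg_one_smul, neg_one_smul, ← neg_one_smul K v₁, ← neg_one_smul K v₂, om_add_right,
      om_smul_right, om_smul_left, om_smul_right, om_smul_left, h10]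
    ring
  · have h3 : om u₂ u₁ = 0 := by rw [om_comm, h12, neg_zero]
    intro i j
    fin_cases i <;> fin_cases j
    · change om u₁ ((-1 : ℤ) • v₁) = _
      rw [neg_one_smul, ← neg_one_smul K v₁, om_smul_right, h11]
      simp
    · change om u₁ ((-1 : ℤ) • v₂ + (-om v₁ v₂) • u₁) = _
      rw [neg_one_smul, ← neg_one_smul K v₂, om_add_right, om_smul_right, om_smul_right, h12',
        om_self]
      simp
    · change om u₂ ((-1 : ℤ) • v₁) = _
      rw [neg_one_smul, ← neg_one_smul K v₁, om_smul_right, h21]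
      simp
    · change om u₂ ((-1 : ℤ) • v₂ + (-om v₁ v₂) • u₁) = _
      rw [neg_one_smul, ← neg_one_smul K v₂, om_add_right, om_smul_right, om_smul_right, h22, h3]
      simp

theorem complete_one [CharZero K] {u₁ : N4 → K} (h1 : u₁ ≠ 0) :
    ∃ g : N4 → N4 → K, IsFrame g ∧ g (Sum.inl 0) = u₁ := by
  obtain ⟨z₀, hz₀⟩ := exists_om h1
  obtain ⟨y, hy⟩ : ∃ y : N4 → K, y ∉ Submodule.span K {u₁, z₀} := by
    by_contra hcon
    push Not at hcon
    have h2 : Submodule.span K {u₁, z₀} = ⊤ := eq_top_iff.2 fun y _ => hcon y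
    have h3 : Module.finrank K (Submodule.span K ({u₁, z₀} : Set (N4 → K))) = 4 := by
      rw [h2, finrank_top, Module.finrank_fintype_fun_eq_card]
      rfl
    have h4 : Module.finrank K (Submodule.span K ({u₁, z₀} : Set (N4 → K))) ≤ 2 := by
      classical
      have := finrank_span_finset_le_card (R := K) ({u₁, z₀} : Finset (N4 → K))
      rw [Finset.coe_pair] at this
      exact this.trans Finset.card_le_two
    omega
  have hmem1 : u₁ ∈ Submodule.span K {u₁, z₀} := Submodule.subset_span (by simp)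
  have hmem2 : z₀ ∈ Submodule.span K {u₁, z₀} := Submodule.subset_span (by simp)
  obtain ⟨g, hg, hg1, _⟩ := complete_pair (u₂ := y - om u₁ y • z₀) h1 (by
    intro c h
    apply hy
    have h5 : y = om u₁ y • z₀ + c • u₁ := by
      have := sub_eq_zero.1 h
      rw [← this]; abel
    rw [h5]
    exact Submodule.add_mem _ (Submodule.smul_mem _ _ hmem2) (Submodule.smul_mem _ _ hmem1)) (by
    rw [om_sub_right, om_smul_right, hz₀]; ring)
  exact ⟨g, hg, hg1⟩

/-- Conjugation by a frame. -/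
theorem frame_conj [CharZero K] {g : N4 → N4 → K} (hg : IsFrame g)
    (X₀ X : LieAlgebra.Symplectic.sp (Fin 2) K)
    (h : ∀ j, colMat g *ᵥ (X₀.1 *ᵥ Pi.single j 1) = X.1 *ᵥ g j) :
    conjE (colMat g) hg.mul X₀ = X := by
  rw [conjE_eq_iff]
  ext i j
  have h1 := congrFun (h j) i
  rw [mulVec_mulVec, ← colMat_mulVec_single g j, mulVec_mulVec] at h1
  simpa using h1

/-- The torus. -/
def tM (x y : K) : Matrix N4 N4 K := Matrix.diagonal (Sum.elim ![x, y] ![-x, -y])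

theorem tM_mem (x y : K) : tM x y ∈ LieAlgebra.Symplectic.sp (Fin 2) K := by
  rw [mem_sp]
  ext (i | i) (j | j) <;> fin_cases i <;> fin_cases j <;>
    simp [tM, Matrix.J, Matrix.mul_apply, Matrix.diagonal_apply]

/-- The torus. -/
def tL (x y : K) : LieAlgebra.Symplectic.sp (Fin 2) K := ⟨tM x y, tM_mem x y⟩

theorem tM_mulVec_single (x y : K) (j : N4) : tM x y *ᵥ Pi.single j 1 =
    (Sum.elim ![x, y] ![-x, -y] j : K) • (Pi.single j 1 : N4 → K) := by
  rw [tM, Matrix.diagonal_mulVec_single]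
  ext i
  simp [Pi.single_apply]

theorem frame_torus [CharZero K] {g : N4 → N4 → K} (hg : IsFrame g)
    (X : LieAlgebra.Symplectic.sp (Fin 2) K) (x y : K)
    (h : ∀ j, X.1 *ᵥ g j = (Sum.elim ![x, y] ![-x, -y] j : K) • g j) :
    conjE (colMat g) hg.mul (tL x y) = X := by
  refine frame_conj hg (tL x y) X ?_
  intro j
  change colMat g *ᵥ (tM x y *ᵥ Pi.single j 1) = _
  rw [tM_mulVec_single, mulVec_smul, colMat_mulVec_single, h]

theorem trace_coe [CharZero K] (X : LieAlgebra.Symplectic.sp (Fin 2) K) : X.1.trace = 0 := by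
  have := trace_odd X.2 1 (by decide)
  rwa [pow_one] at this

/-- Elements whose square is a nonzero scalar are conjugate into the torus. -/
theorem exists_frame_ss [CharZero K] (X : LieAlgebra.Symplectic.sp (Fin 2) K) (s : K) (hs : s ≠ 0)
    (hX : X.1 * X.1 = (s ^ 2) • (1 : Matrix N4 N4 K)) :
    ∃ φ : LieAlgebra.Symplectic.sp (Fin 2) K ≃ₗ⁅K⁆ LieAlgebra.Symplectic.sp (Fin 2) K,
      φ (tL s s) = X := by
  have h2s : (2 : K) * s ≠ 0 := mul_ne_zero two_ne_zero hs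
  set M : Matrix N4 N4 K := X.1 + s • (1 : Matrix N4 N4 K) with hM
  have hXM : ∀ z, X.1 *ᵥ (M *ᵥ z) = s • (M *ᵥ z) := by
    intro z
    rw [mulVec_mulVec, ← smul_mulVec]
    congr 1
    rw [hM, Matrix.mul_add, hX, Matrix.mul_smul, Matrix.mul_one, smul_add, smul_smul, add_comm,
      pow_two]
  have hMM : M * M = (2 * s) • M := by
    rw [hM, Matrix.add_mul, Matrix.mul_add, Matrix.mul_add, hX]
    simp only [Matrix.mul_smul, Matrix.smul_mul, Matrix.mul_one, Matrix.one_mul, smul_smul]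
    rw [smul_add, smul_smul, mul_smul 2 s X.1, two_smul]
    have : (2 * s * s) • (1 : Matrix N4 N4 K) = (s ^ 2) • (1 : Matrix N4 N4 K) +
      (s * s) • (1 : Matrix N4 N4 K) := by rw [← add_smul]; congr 1; ring
    rw [this]
    abel
  have htr : M.trace = 4 * s := by
    rw [hM, trace_add, trace_coe, trace_smul, trace_one]
    simp [mul_comm]
  have hM0 : M ≠ 0 := by
    intro h
    rw [h, Matrix.trace_zero] at htr
    exact absurd htr.symm (mul_ne_zero (by norm_num) hs)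
  obtain ⟨j, hj⟩ : ∃ j, M *ᵥ Pi.single j 1 ≠ 0 := by
    by_contra hcon
    push Not at hcon
    apply hM0
    ext i j
    have := congrFun (hcon j) i
    simpa using this
  set u₁ := M *ᵥ Pi.single j 1 with hu₁
  obtain ⟨k, hk⟩ : ∃ k, ∀ c : K, M *ᵥ Pi.single k 1 - c • u₁ ≠ 0 := by
    by_contra hcon
    push Not at hcon
    choose w hw using hcon
    have h1 : M = vecMulVec u₁ w := by
      ext i k
      have h2 := congrFun (sub_eq_zero.1 (hw k)) i
      rw [vecMulVec_apply]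
      simpa [mul_comm] using h2
    have h2 : M * M = (u₁ ⬝ᵥ w) • M := by
      conv_lhs => rw [h1]
      rw [vecMulVec_mul_vecMulVec, vecMulVec_smul, ← h1, dotProduct_comm]
    have h3 : u₁ ⬝ᵥ w = 4 * s := by rw [← htr, h1, trace_vecMulVec]
    rw [h2, h3] at hMM
    have h4 : (2 * s) • M = 0 := by
      have h5 : (4 * s) • M = (2 * s) • M + (2 * s) • M := by rw [← add_smul]; congr 1; ring
      rw [h5] at hMM
      simpa using hMM
    rcases smul_eq_zero.1 h4 with h5 | h5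
    · exact h2s h5
    · exact hM0 h5
  have hiso : ∀ u u' : N4 → K, ∀ t : K, t ≠ 0 → X.1 *ᵥ u = t • u → X.1 *ᵥ u' = t • u' →
      om u u' = 0 := by
    intro u u' t ht hu hu'
    have h1 := om_mulVec X.2 u u'
    rw [hu, hu', om_smul_left, om_smul_right] at h1
    have h2 : (2 * t) * om u u' = 0 := by linear_combination h1
    rcases mul_eq_zero.1 h2 with h3 | h3
    · exact absurd h3 (mul_ne_zero two_ne_zero ht)
    · exact h3
  obtain ⟨g₀, hg₀, hg1, hg2⟩ := complete_pair hj hk (hiso _ _ s hs (hXM _) (hXM _))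
  have hXl : ∀ i, X.1 *ᵥ g₀ (Sum.inl i) = s • g₀ (Sum.inl i) := by
    intro i
    fin_cases i
    · change X.1 *ᵥ g₀ (Sum.inl 0) = s • g₀ (Sum.inl 0)
      rw [hg1]; exact hXM _
    · change X.1 *ᵥ g₀ (Sum.inl 1) = s • g₀ (Sum.inl 1)
      rw [hg2]; exact hXM _
  have hXr : ∀ v : N4 → K, X.1 *ᵥ (X.1 *ᵥ v - s • v) = (-s) • (X.1 *ᵥ v - s • v) := by
    intro v
    rw [mulVec_sub, mulVec_mulVec, hX, smul_mulVec, one_mulVec, mulVec_smul, smul_sub, smul_smul,
      neg_smul, neg_mul, neg_smul, sub_neg_eq_add, pow_two, sub_eq_add_neg, add_comm]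
  let g : N4 → N4 → K := Sum.elim (fun i => g₀ (Sum.inl i))
    (fun i => (-(2 * s)⁻¹) • (X.1 *ᵥ g₀ (Sum.inr i) - s • g₀ (Sum.inr i)))
  have hgr : ∀ i, X.1 *ᵥ g (Sum.inr i) = (-s) • g (Sum.inr i) := by
    intro i
    change X.1 *ᵥ ((-(2 * s)⁻¹) • _) = (-s) • ((-(2 * s)⁻¹) • _)
    rw [mulVec_smul, hXr, smul_comm]
  have hg : IsFrame g := by
    refine ⟨hg₀.uu, hiso _ _ (-s) (neg_ne_zero.2 hs) (hgr 0) (hgr 1), ?_⟩
    intro i j
    change om (g₀ (Sum.inl i)) ((-(2 * s)⁻¹) • (X.1 *ᵥ g₀ (Sum.inr j) - s • g₀ (Sum.inr j))) = _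
    have h1 := om_mulVec X.2 (g₀ (Sum.inl i)) (g₀ (Sum.inr j))
    rw [hXl, om_smul_left] at h1
    rw [om_smul_right, om_sub_right, om_smul_right, ← hg₀.uv i j]
    have h2 : om (g₀ (Sum.inl i)) (X.1 *ᵥ g₀ (Sum.inr j)) =
        -(s * om (g₀ (Sum.inl i)) (g₀ (Sum.inr j))) := by rw [h1, neg_neg]
    rw [h2]
    field_simp
    ring
  refine ⟨conjE (colMat g) hg.mul, frame_torus hg X s s ?_⟩
  rintro (i | i)
  · fin_cases i
    · exact hXl 0
    · exact hXl 1
  · fin_cases i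
    · exact hgr 0
    · exact hgr 1

/-- Transitivity on elements with the same nonzero scalar square. -/
theorem orbit_ss [CharZero K] (X Y : LieAlgebra.Symplectic.sp (Fin 2) K) (s : K) (hs : s ≠ 0)
    (hX : X.1 * X.1 = (s ^ 2) • (1 : Matrix N4 N4 K))
    (hY : Y.1 * Y.1 = (s ^ 2) • (1 : Matrix N4 N4 K)) :
    ∃ φ : LieAlgebra.Symplectic.sp (Fin 2) K ≃ₗ⁅K⁆ LieAlgebra.Symplectic.sp (Fin 2) K,
      φ X = Y := by
  obtain ⟨φ, hφ⟩ := exists_frame_ss X s hs hX
  obtain ⟨ψ, hψ⟩ := exists_frame_ss Y s hs hY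
  refine ⟨φ.symm.trans ψ, ?_⟩
  rw [← hφ, ← hψ]
  change ψ (φ.symm (φ (tL s s))) = _
  rw [LieEquiv.symm_apply_apply]

/-- Regular elements are conjugate into the torus. -/
theorem exists_frame_reg [CharZero K] (X : LieAlgebra.Symplectic.sp (Fin 2) K) (α ρ x y : K)
    (hρ : ρ ≠ 0) (hx0 : x ≠ 0) (hy0 : y ≠ 0) (hx : x ^ 2 = α + ρ) (hy : y ^ 2 = α - ρ)
    (htr : (X.1 * X.1 - α • (1 : Matrix N4 N4 K)).trace = 0)
    (hW : (X.1 * X.1 - α • (1 : Matrix N4 N4 K)) * (X.1 * X.1 - α • (1 : Matrix N4 N4 K)) =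
      (ρ ^ 2) • (1 : Matrix N4 N4 K)) :
    ∃ φ : LieAlgebra.Symplectic.sp (Fin 2) K ≃ₗ⁅K⁆ LieAlgebra.Symplectic.sp (Fin 2) K,
      φ (tL x y) = X := by
  -- eigenvectors for one pair of opposite eigenvalues
  have key : ∀ x ρ : K, ρ ≠ 0 → x ≠ 0 → x ^ 2 = α + ρ →
      (X.1 * X.1 - α • (1 : Matrix N4 N4 K)) * (X.1 * X.1 - α • (1 : Matrix N4 N4 K)) =
      (ρ ^ 2) • (1 : Matrix N4 N4 K) → ∃ u v : N4 → K, X.1 *ᵥ u = x • u ∧
      X.1 *ᵥ v = (-x) • v ∧ om u v = -1 := by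
    intro x ρ hρ hx0 hx hW
    set W : Matrix N4 N4 K := X.1 * X.1 - α • (1 : Matrix N4 N4 K) with hWdef
    set Q : Matrix N4 N4 K := W + ρ • (1 : Matrix N4 N4 K) with hQ
    have hXX : X.1 * X.1 = W + α • (1 : Matrix N4 N4 K) := by rw [hWdef]; abel
    have hWQ : W * Q = ρ • Q := by
      rw [hQ, Matrix.mul_add, hW, Matrix.mul_smul, Matrix.mul_one, smul_add, smul_smul, pow_two,
        add_comm]
    have hQQ : Q * Q = (2 * ρ) • Q := by
      conv_lhs => rw [hQ]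
      rw [Matrix.add_mul, ← hQ, hWQ, Matrix.smul_mul, Matrix.one_mul, ← add_smul]
      congr 1
      ring
    have hXXQ : X.1 * (X.1 * Q) = (x ^ 2) • Q := by
      rw [← Matrix.mul_assoc, hXX, Matrix.add_mul, hWQ, Matrix.smul_mul, Matrix.one_mul,
        ← add_smul, hx, add_comm]
    have hQcomm : X.1 * Q = Q * X.1 := by
      rw [hQ, hWdef]
      simp only [Matrix.mul_add, Matrix.add_mul, Matrix.mul_sub, Matrix.sub_mul, Matrix.mul_smul,
        Matrix.smul_mul, Matrix.mul_one, Matrix.one_mul, Matrix.mul_assoc]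
    have hQ0 : Q ≠ 0 := by
      intro h
      have h1 := congrArg Matrix.trace hQ
      rw [h, Matrix.trace_zero, trace_add, htr, trace_smul, trace_one] at h1
      have h2 : (4 : K) * ρ = 0 := by
        rw [h1]
        simp [mul_comm]
      rcases mul_eq_zero.1 h2 with h3 | h3
      · exact absurd h3 (by norm_num)
      · exact hρ h3
    have hom2 : ∀ u v : N4 → K, om ((X.1 * X.1) *ᵥ u) v = om u ((X.1 * X.1) *ᵥ v) := by
      intro u v
      rw [← mulVec_mulVec, om_mulVec X.2, om_mulVec X.2, neg_neg, mulVec_mulVec]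
    have homQ : ∀ u v : N4 → K, om (Q *ᵥ u) v = om u (Q *ᵥ v) := by
      intro u v
      have h1 : Q = X.1 * X.1 + (ρ - α) • (1 : Matrix N4 N4 K) := by
        rw [hQ, hWdef, sub_smul]; abel
      rw [h1, add_mulVec, add_mulVec, smul_mulVec, smul_mulVec, one_mulVec, one_mulVec,
        om_add_left, om_add_right, hom2, om_smul_left, om_smul_right]
    -- the first vector
    obtain ⟨z, hz⟩ : ∃ z, X.1 *ᵥ (Q *ᵥ z) + x • (Q *ᵥ z) ≠ 0 := by
      by_contra hcon
      push Not at hcon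
      have h1 : ∀ z, X.1 *ᵥ (Q *ᵥ z) = (-x) • (Q *ᵥ z) := fun z => by
        rw [neg_smul]; exact eq_neg_of_add_eq_zero_left (hcon z)
      have h2 : ∀ z z', om (Q *ᵥ z) (Q *ᵥ z') = 0 := by
        intro z z'
        have h3 := om_mulVec X.2 (Q *ᵥ z) (Q *ᵥ z')
        rw [h1, h1, om_smul_left, om_smul_right] at h3
        have h4 : (2 * x) * om (Q *ᵥ z) (Q *ᵥ z') = 0 := by linear_combination -h3
        rcases mul_eq_zero.1 h4 with h5 | h5
        · exact absurd h5 (mul_ne_zero two_ne_zero hx0)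
        · exact h5
      apply hQ0
      apply ext_mulVec
      intro z'
      rw [zero_mulVec]
      by_contra hne
      obtain ⟨z, hz⟩ := exists_om hne
      have h3 := h2 z z'
      rw [homQ, mulVec_mulVec, hQQ, smul_mulVec, om_smul_right, om_comm, hz] at h3
      have h4 : (2 : K) * ρ = 0 := by linear_combination -h3
      exact mul_ne_zero two_ne_zero hρ h4
    set u := X.1 *ᵥ (Q *ᵥ z) + x • (Q *ᵥ z) with hu
    have hXXQv : ∀ z, X.1 *ᵥ (X.1 *ᵥ (Q *ᵥ z)) = (x ^ 2) • (Q *ᵥ z) := by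
      intro z
      rw [mulVec_mulVec, mulVec_mulVec, Matrix.mul_assoc, hXXQ, smul_mulVec]
    have hQQv : ∀ z, Q *ᵥ (Q *ᵥ z) = (2 * ρ) • (Q *ᵥ z) := by
      intro z
      rw [mulVec_mulVec, hQQ, smul_mulVec]
    have hQXv : ∀ z, Q *ᵥ (X.1 *ᵥ z) = X.1 *ᵥ (Q *ᵥ z) := by
      intro z
      rw [mulVec_mulVec, ← hQcomm, mulVec_mulVec]
    have hXu : X.1 *ᵥ u = x • u := by
      rw [hu, mulVec_add, mulVec_smul, hXXQv, smul_add, smul_smul, ← pow_two, add_comm]
    have hQu : Q *ᵥ u = (2 * ρ) • u := by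
      rw [hu, mulVec_add, mulVec_smul, hQXv, hQQv, mulVec_smul, smul_add, smul_comm x]
    obtain ⟨w, hw⟩ := exists_om hz
    refine ⟨u, (4 * x * ρ)⁻¹ • (X.1 *ᵥ (Q *ᵥ w) - x • (Q *ᵥ w)), hXu, ?_, ?_⟩
    · rw [mulVec_smul, mulVec_sub, mulVec_smul, hXXQv, smul_comm (-x)]
      congr 1
      rw [neg_smul, smul_sub, smul_smul, ← pow_two]
      abel
    · rw [om_smul_right, om_sub_right, om_smul_right]
      have h1 : om u (X.1 *ᵥ (Q *ᵥ w)) = -(x * (2 * ρ)) := by
        have h2 := om_mulVec X.2 u (Q *ᵥ w)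
        rw [hXu, om_smul_left, ← homQ, hQu, om_smul_left, hw] at h2
        linear_combination h2
      have h2 : om u (Q *ᵥ w) = 2 * ρ := by
        rw [← homQ, hQu, om_smul_left, hw, mul_one]
      rw [h1, h2]
      have h3 : (4 * x * ρ) ≠ 0 := mul_ne_zero (mul_ne_zero (by norm_num) hx0) hρ
      have h4 : -(x * (2 * ρ)) - x * (2 * ρ) = -(4 * x * ρ) := by ring
      rw [h4, mul_neg, inv_mul_cancel₀ h3]
  obtain ⟨u₁, v₁, hu1, hv1, h11⟩ := key x ρ hρ hx0 hx hW
  obtain ⟨u₂, v₂, hu2, hv2, h22⟩ := key y (-ρ) (neg_ne_zero.2 hρ) hy0 (by rw [hy]; ring)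
    (by rw [hW]; congr 1; ring)
  have hort : ∀ (a b : K) (u v : N4 → K), a + b ≠ 0 → X.1 *ᵥ u = a • u → X.1 *ᵥ v = b • v →
      om u v = 0 := by
    intro a b u v hab hu hv
    have h1 := om_mulVec X.2 u v
    rw [hu, hv, om_smul_left, om_smul_right] at h1
    have h2 : (a + b) * om u v = 0 := by linear_combination h1
    rcases mul_eq_zero.1 h2 with h3 | h3
    · exact absurd h3 hab
    · exact h3
  have hxy : x ^ 2 - y ^ 2 ≠ 0 := by
    rw [hx, hy]
    have : α + ρ - (α - ρ) = 2 * ρ := by ring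
    rw [this]
    exact mul_ne_zero two_ne_zero hρ
  have h1 : x + y ≠ 0 := by
    intro h
    apply hxy
    linear_combination (x - y) * h
  have h2 : x + -y ≠ 0 := by
    intro h
    apply hxy
    linear_combination (x + y) * h
  have h3 : -x + -y ≠ 0 := by
    intro h
    apply h1
    linear_combination -h
  have h4 : y + -x ≠ 0 := by
    intro h
    apply h2
    linear_combination -h
  let g : N4 → N4 → K := Sum.elim ![u₁, u₂] ![v₁, v₂]
  have hg : IsFrame g := by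
    refine ⟨hort x y _ _ h1 hu1 hu2, hort (-x) (-y) _ _ h3 hv1 hv2, ?_⟩
    intro i j
    fin_cases i <;> fin_cases j
    · exact h11
    · exact hort x (-y) _ _ h2 hu1 hv2
    · exact hort y (-x) _ _ h4 hu2 hv1
    · exact h22
  refine ⟨conjE (colMat g) hg.mul, frame_torus hg X x y ?_⟩
  rintro (i | i)
  · fin_cases i
    · exact hu1
    · exact hu2
  · fin_cases i
    · exact hv1
    · exact hv2

/-- The square-zero normal forms. -/
def nilM (u : N4 → K) : Matrix N4 N4 K := -(vecMulVec u u * Matrix.J (Fin 2) K)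

theorem nilM_mem (u : N4 → K) : nilM u ∈ LieAlgebra.Symplectic.sp (Fin 2) K := by
  rw [mem_sp, nilM, transpose_neg, transpose_mul, transpose_vecMulVec, J_transpose]
  noncomm_ring

theorem nilM_mulVec (u v : N4 → K) : nilM u *ᵥ v = -(om u v • u) := by
  rw [nilM, neg_mulVec, vecMulVec_J_mulVec]

/-- Splitting off a rank-one summand. -/
theorem nil_step [CharZero K] [IsAlgClosed K] (X : Matrix N4 N4 K)
    (hX : X ∈ LieAlgebra.Symplectic.sp (Fin 2) K) (h0 : X ≠ 0) :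
    ∃ (u : N4 → K) (Y : Matrix N4 N4 K), Y ∈ LieAlgebra.Symplectic.sp (Fin 2) K ∧
      X = nilM u + Y ∧ Y.rank < X.rank := by
  have hX' := (mem_sp _).1 hX
  have hsym : (Matrix.J (Fin 2) K * X)ᵀ = Matrix.J (Fin 2) K * X := by
    rw [transpose_mul, J_transpose, Matrix.mul_neg, hX', neg_neg]
  have hne : Matrix.J (Fin 2) K * X ≠ 0 := by
    intro h
    apply h0
    have h2 := J_mul_J_mul X
    rw [h, Matrix.mul_zero] at h2
    simpa using h2.symm
  obtain ⟨v, hv⟩ := exists_quad_ne_zero _ hsym hne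
  have hv' : om v (X *ᵥ v) ≠ 0 := by
    rw [om, mulVec_mulVec]; exact hv
  obtain ⟨t, ht⟩ := IsAlgClosed.exists_pow_nat_eq ((om v (X *ᵥ v))⁻¹) (n := 2) (by norm_num)
  have htt : om (t • v) (X *ᵥ (t • v)) = 1 := by
    rw [mulVec_smul, om_smul_left, om_smul_right, ← mul_assoc, ← pow_two, ht, inv_mul_cancel₀ hv']
  set v' := t • v with hv'def
  refine ⟨X *ᵥ v', X - nilM (X *ᵥ v'), ?_, by abel, ?_⟩
  · exact (LieAlgebra.Symplectic.sp (Fin 2) K).sub_mem hX (nilM_mem _)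
  · have h1 : (X - nilM (X *ᵥ v')) = X * (1 - vecMulVec v' v' * (Xᵀ * Matrix.J (Fin 2) K) * (-1)) := by
      rw [nilM]
      rw [Matrix.mul_sub, Matrix.mul_one]
      have h2 : vecMulVec (X *ᵥ v') (X *ᵥ v') = X * vecMulVec v' v' * Xᵀ := by
        rw [mul_vecMulVec, vecMulVec_mul, vecMul_transpose]
      rw [h2]
      noncomm_ring
    have hle : LinearMap.range (X - nilM (X *ᵥ v')).mulVecLin ≤ LinearMap.range X.mulVecLin := by
      rintro _ ⟨z, rfl⟩
      rw [h1]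
      refine ⟨(1 - vecMulVec v' v' * (Xᵀ * Matrix.J (Fin 2) K) * (-1)) *ᵥ z, ?_⟩
      rw [mulVecLin_apply, mulVec_mulVec]
      rfl
    refine Submodule.finrank_lt_finrank_of_lt (lt_of_le_of_ne hle ?_)
    intro heq
    have hmem : X *ᵥ v' ∈ LinearMap.range (X - nilM (X *ᵥ v')).mulVecLin := by
      rw [heq]
      exact ⟨v', rfl⟩
    obtain ⟨z, hz⟩ := hmem
    rw [mulVecLin_apply] at hz
    have h3 : (X - nilM (X *ᵥ v')) *ᵥ v' = 0 := by
      rw [sub_mulVec, nilM_mulVec, om_comm, htt]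
      simp
    have h4 : om v' (X *ᵥ v') = 0 := by
      rw [← hz]
      have h5 := om_mulVec ((LieAlgebra.Symplectic.sp (Fin 2) K).sub_mem hX
        (nilM_mem (X *ᵥ v'))) v' z
      rw [h3, om_zero_left] at h5
      linear_combination h5
    rw [htt] at h4
    exact one_ne_zero h4

theorem rank_zero_iff (X : Matrix N4 N4 K) : X.rank = 0 ↔ X = 0 := by
  constructor
  · intro h
    have h1 : LinearMap.range X.mulVecLin = ⊥ := Submodule.finrank_eq_zero.1 h
    apply ext_mulVec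
    intro v
    have h2 : X.mulVecLin v ∈ LinearMap.range X.mulVecLin := ⟨v, rfl⟩
    rw [h1, Submodule.mem_bot, mulVecLin_apply] at h2
    rw [h2, zero_mulVec]
  · rintro rfl
    exact Matrix.rank_zero

theorem rank_nilM_le (u : N4 → K) : (nilM u).rank ≤ 1 := by
  rw [nilM, ← Matrix.neg_mul]
  refine (Matrix.rank_mul_le_left _ _).trans ?_
  have h : -vecMulVec u u = vecMulVec (-u) u := by
    ext i j
    simp [vecMulVec_apply]
  rw [h]
  exact Matrix.rank_vecMulVec_le _ _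

/-- Elements of rank one. -/
theorem eq_nilM_of_rank_one [CharZero K] [IsAlgClosed K] (X : Matrix N4 N4 K)
    (hX : X ∈ LieAlgebra.Symplectic.sp (Fin 2) K) (h : X.rank = 1) : ∃ u, u ≠ 0 ∧ X = nilM u := by
  have h0 : X ≠ 0 := by
    rintro rfl
    rw [Matrix.rank_zero] at h
    exact zero_ne_one h
  obtain ⟨u, Y, hY, hXY, hlt⟩ := nil_step X hX h0
  have hY0 : Y = 0 := (rank_zero_iff Y).1 (by omega)
  rw [hY0, add_zero] at hXY
  refine ⟨u, ?_, hXY⟩
  rintro rfl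
  apply h0
  rw [hXY, nilM]
  ext i j
  simp [vecMulVec_apply, Matrix.mul_apply]

theorem nilM_smul (c : K) (u : N4 → K) : nilM (c • u) = (c ^ 2) • nilM u := by
  apply ext_mulVec
  intro v
  rw [nilM_mulVec, smul_mulVec, nilM_mulVec, om_smul_left, smul_neg, smul_smul, smul_smul]
  congr 2
  ring

/-- Square-zero elements of rank two. -/
theorem eq_nilM_of_rank_two [CharZero K] [IsAlgClosed K] (X : Matrix N4 N4 K)
    (hX : X ∈ LieAlgebra.Symplectic.sp (Fin 2) K) (h : X.rank = 2) (hsq : X * X = 0) :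
    ∃ u₁ u₂, u₁ ≠ 0 ∧ (∀ c : K, u₂ - c • u₁ ≠ 0) ∧ om u₁ u₂ = 0 ∧ X = nilM u₁ + nilM u₂ := by
  have h0 : X ≠ 0 := by
    rintro rfl
    rw [Matrix.rank_zero] at h
    omega
  obtain ⟨u₁, Y, hY, hXY, hlt⟩ := nil_step X hX h0
  have hY0 : Y ≠ 0 := by
    rintro rfl
    rw [add_zero] at hXY
    have := rank_nilM_le u₁
    rw [← hXY] at this
    omega
  have hYr : Y.rank = 1 := by
    have h1 : Y.rank ≠ 0 := fun h1 => hY0 ((rank_zero_iff Y).1 h1)
    omega
  obtain ⟨u₂, hu₂, rfl⟩ := eq_nilM_of_rank_one Y hY hYr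
  have hu₁ : u₁ ≠ 0 := by
    rintro rfl
    have h1 : nilM (0 : N4 → K) = 0 := by
      ext i j
      simp [nilM, Matrix.mul_apply]
    rw [h1, zero_add] at hXY
    rw [← hXY] at hYr
    omega
  have hind : ∀ c : K, u₂ - c • u₁ ≠ 0 := by
    intro c hc
    have h1 : u₂ = c • u₁ := sub_eq_zero.1 hc
    rw [h1, nilM_smul] at hXY
    have h2 : X = (1 + c ^ 2) • nilM u₁ := by rw [hXY, add_smul, one_smul]
    obtain ⟨t, ht⟩ := IsAlgClosed.exists_pow_nat_eq (1 + c ^ 2) (n := 2) (by norm_num)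
    rw [← ht, ← nilM_smul] at h2
    have := rank_nilM_le (t • u₁)
    rw [← h2] at this
    omega
  refine ⟨u₁, u₂, hu₁, hind, ?_, hXY⟩
  have h1 : X *ᵥ (X *ᵥ u₁) = 0 := by rw [mulVec_mulVec, hsq, zero_mulVec]
  rw [hXY] at h1
  simp only [add_mulVec, mulVec_add, nilM_mulVec, om_self, zero_smul, neg_zero, zero_add,
    mulVec_neg, mulVec_smul, smul_neg, neg_neg, add_zero, smul_zero] at h1
  rw [smul_smul] at h1
  rcases smul_eq_zero.1 h1 with h2 | h2
  · rw [om_comm u₂ u₁] at h2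
    have h3 : om u₁ u₂ * om u₁ u₂ = 0 := by linear_combination -h2
    exact mul_self_eq_zero.1 h3
  · exact absurd h2 hu₁

/-- Conjugation of the normal forms. -/
theorem mul_nilM_mul {G : Matrix N4 N4 K} (hG : Gᵀ * Matrix.J (Fin 2) K * G = Matrix.J (Fin 2) K)
    (u : N4 → K) : G * nilM u = nilM (G *ᵥ u) * G := by
  have h1 : Matrix.J (Fin 2) K = Gᵀ * (Matrix.J (Fin 2) K * G) := by
    rw [← Matrix.mul_assoc, hG]
  have h2 : vecMulVec (G *ᵥ u) (G *ᵥ u) = G * vecMulVec u u * Gᵀ := by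
    rw [mul_vecMulVec, vecMulVec_mul, vecMul_transpose]
  rw [nilM, nilM, h2]
  conv_lhs => rw [h1]
  noncomm_ring

theorem orbit_rank_one [CharZero K] [IsAlgClosed K] (X Y : LieAlgebra.Symplectic.sp (Fin 2) K)
    (hX : X.1.rank = 1) (hY : Y.1.rank = 1) :
    ∃ φ : LieAlgebra.Symplectic.sp (Fin 2) K ≃ₗ⁅K⁆ LieAlgebra.Symplectic.sp (Fin 2) K,
      φ X = Y := by
  have key : ∀ X : LieAlgebra.Symplectic.sp (Fin 2) K, X.1.rank = 1 →
      ∃ φ : LieAlgebra.Symplectic.sp (Fin 2) K ≃ₗ⁅K⁆ LieAlgebra.Symplectic.sp (Fin 2) K,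
      φ ⟨nilM (Pi.single (Sum.inl 0) 1), nilM_mem _⟩ = X := by
    intro X hX
    obtain ⟨u, hu, hXu⟩ := eq_nilM_of_rank_one X.1 X.2 hX
    obtain ⟨g, hg, hgu⟩ := complete_one hu
    refine ⟨conjE (colMat g) hg.mul, ?_⟩
    rw [conjE_eq_iff]
    change colMat g * nilM _ = X.1 * colMat g
    rw [mul_nilM_mul hg.mul, colMat_mulVec_single, hgu, ← hXu]
  obtain ⟨φ, hφ⟩ := key X hX
  obtain ⟨ψ, hψ⟩ := key Y hY
  refine ⟨φ.symm.trans ψ, ?_⟩
  rw [← hφ, ← hψ]
  change ψ (φ.symm (φ _)) = _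
  rw [LieEquiv.symm_apply_apply]

theorem orbit_rank_two [CharZero K] [IsAlgClosed K] (X Y : LieAlgebra.Symplectic.sp (Fin 2) K)
    (hX : X.1.rank = 2) (hY : Y.1.rank = 2) (hX2 : X.1 * X.1 = 0) (hY2 : Y.1 * Y.1 = 0) :
    ∃ φ : LieAlgebra.Symplectic.sp (Fin 2) K ≃ₗ⁅K⁆ LieAlgebra.Symplectic.sp (Fin 2) K,
      φ X = Y := by
  have key : ∀ X : LieAlgebra.Symplectic.sp (Fin 2) K, X.1.rank = 2 → X.1 * X.1 = 0 →
      ∃ φ : LieAlgebra.Symplectic.sp (Fin 2) K ≃ₗ⁅K⁆ LieAlgebra.Symplectic.sp (Fin 2) K,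
      φ ⟨nilM (Pi.single (Sum.inl 0) 1) + nilM (Pi.single (Sum.inl 1) 1),
        (LieAlgebra.Symplectic.sp (Fin 2) K).add_mem (nilM_mem _) (nilM_mem _)⟩ = X := by
    intro X hX hX2
    obtain ⟨u₁, u₂, hu₁, hu₂, h12, hXu⟩ := eq_nilM_of_rank_two X.1 X.2 hX hX2
    obtain ⟨g, hg, hgu1, hgu2⟩ := complete_pair hu₁ hu₂ h12
    refine ⟨conjE (colMat g) hg.mul, ?_⟩
    rw [conjE_eq_iff]
    change colMat g * (nilM _ + nilM _) = X.1 * colMat g
    rw [Matrix.mul_add, mul_nilM_mul hg.mul, mul_nilM_mul hg.mul, colMat_mulVec_single,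
      colMat_mulVec_single, hgu1, hgu2, hXu, Matrix.add_mul]
  obtain ⟨φ, hφ⟩ := key X hX hX2
  obtain ⟨ψ, hψ⟩ := key Y hY hY2
  refine ⟨φ.symm.trans ψ, ?_⟩
  rw [← hφ, ← hψ]
  change ψ (φ.symm (φ _)) = _
  rw [LieEquiv.symm_apply_apply]

/-- Square-zero elements have rank at most two. -/
theorem rank_le_two (X : Matrix N4 N4 K) (hX : X * X = 0) : X.rank ≤ 2 := by
  have h1 : LinearMap.range X.mulVecLin ≤ LinearMap.ker X.mulVecLin := by
    rintro _ ⟨z, rfl⟩
    rw [LinearMap.mem_ker, mulVecLin_apply, mulVecLin_apply, mulVec_mulVec, hX, zero_mulVec]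
  have h2 := Submodule.finrank_mono h1
  have h3 := LinearMap.finrank_range_add_finrank_ker X.mulVecLin
  rw [Module.finrank_fintype_fun_eq_card] at h3
  have h4 : Fintype.card N4 = 4 := rfl
  rw [h4] at h3
  have h5 : X.rank = Module.finrank K (LinearMap.range X.mulVecLin) := rfl
  omega

end Pool.Agent.Lib.MP_d55432_al.H66
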