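import Mathlib

/-!
# The symplectic Lie algebra is simple
-/

namespace Pool.Agent.Lib.MP_d55432_al.H66

open Matrix LieAlgebra

attribute [local instance 100] LieRing.ofAssociativeRing

variable {l : Type*} [Fintype l] [DecidableEq l] {A : Type*} [CommRing A]

theorem mem_sp (M : Matrix (l ⊕ l) (l ⊕ l) A) :
    M ∈ LieAlgebra.Symplectic.sp l A ↔ Mᵀ * Matrix.J l A = -(Matrix.J l A * M) := by
  rw [LieAlgebra.Symplectic.sp, mem_skewAdjointMatricesLieSubalgebra,
    mem_skewAdjointMatricesSubmodule]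
  simp only [Matrix.IsSkewAdjoint, Matrix.IsAdjointPair, Matrix.mul_neg]

theorem J_mul_J : Matrix.J l A * Matrix.J l A = -1 := Matrix.J_squared l A

omit [Fintype l] in
theorem J_transpose : (Matrix.J l A)ᵀ = -Matrix.J l A := Matrix.J_transpose l A

/-- The elements `(u wᵀ + w uᵀ) J` of the symplectic Lie algebra. -/
def rk (u w : l ⊕ l → A) : Matrix (l ⊕ l) (l ⊕ l) A :=
  (vecMulVec u w + vecMulVec w u) * Matrix.J l A

theorem rk_mem (u w : l ⊕ l → A) : rk u w ∈ LieAlgebra.Symplectic.sp l A := by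
  rw [mem_sp, rk, transpose_mul, transpose_add, transpose_vecMulVec, transpose_vecMulVec,
    J_transpose, add_comm (vecMulVec w u)]
  noncomm_ring

theorem lie_rk {X : Matrix (l ⊕ l) (l ⊕ l) A} (hX : X ∈ LieAlgebra.Symplectic.sp l A)
    (u w : l ⊕ l → A) : X * rk u w - rk u w * X = rk (X *ᵥ u) w + rk u (X *ᵥ w) := by
  rw [mem_sp] at hX
  have h : Matrix.J l A * X = -(Xᵀ * Matrix.J l A) := by rw [hX, neg_neg]
  simp only [rk]
  rw [Matrix.mul_assoc _ (Matrix.J l A) X, h]
  have h1 : ∀ p q : l ⊕ l → A, X * vecMulVec p q = vecMulVec (X *ᵥ p) q := fun p q =>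
    mul_vecMulVec X p q
  have h2 : ∀ p q : l ⊕ l → A, vecMulVec p q * Xᵀ = vecMulVec p (X *ᵥ q) := fun p q => by
    rw [vecMulVec_mul, vecMul_transpose]
  rw [Matrix.mul_neg, sub_neg_eq_add, ← Matrix.mul_assoc, ← Matrix.mul_assoc, Matrix.mul_add,
    Matrix.add_mul (vecMulVec u w), h1, h1, h2, h2]
  noncomm_ring

theorem rk_mulVec (u w v : l ⊕ l → A) : rk u w *ᵥ v =
    (w ⬝ᵥ (Matrix.J l A *ᵥ v)) • u + (u ⬝ᵥ (Matrix.J l A *ᵥ v)) • w := by
  rw [rk, ← mulVec_mulVec, add_mulVec, vecMulVec_mulVec, vecMulVec_mulVec]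
  ext i
  simp [mul_comm]


theorem dot_J_self [CharZero A] [IsDomain A] (v : l ⊕ l → A) : v ⬝ᵥ (Matrix.J l A *ᵥ v) = 0 := by
  have h : v ⬝ᵥ (Matrix.J l A *ᵥ v) = -(v ⬝ᵥ (Matrix.J l A *ᵥ v)) := by
    conv_lhs => rw [dotProduct_mulVec, dotProduct_comm, ← mulVec_transpose, J_transpose, neg_mulVec,
      dotProduct_neg]
  have h2 : (2 : A) * (v ⬝ᵥ (Matrix.J l A *ᵥ v)) = 0 := by linear_combination h
  rcases mul_eq_zero.1 h2 with h3 | h3
  · exact absurd h3 two_ne_zero
  · exact h3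

theorem dot_J_comm (u v : l ⊕ l → A) :
    u ⬝ᵥ (Matrix.J l A *ᵥ v) = -(v ⬝ᵥ (Matrix.J l A *ᵥ u)) := by
  rw [dotProduct_mulVec, dotProduct_comm, ← mulVec_transpose, J_transpose, neg_mulVec,
      dotProduct_neg]

variable {K : Type*} [Field K] [CharZero K]

/-- The symplectic Lie algebra acts transitively on nonzero vectors. -/
theorem exists_mem_mulVec (v u : l ⊕ l → K) (hv : v ≠ 0) :
    ∃ Y ∈ LieAlgebra.Symplectic.sp l K, Y *ᵥ v = u := by
  obtain ⟨b, hb⟩ : ∃ b : l ⊕ l → K, b ⬝ᵥ (Matrix.J l K *ᵥ v) = 1 := by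
    have h1 : Matrix.J l K *ᵥ v ≠ 0 := by
      intro h
      apply hv
      have h2 : Matrix.J l K *ᵥ (Matrix.J l K *ᵥ v) = -v := by
        rw [mulVec_mulVec, J_mul_J, neg_mulVec, one_mulVec]
      rw [h, mulVec_zero] at h2
      simpa using h2.symm
    obtain ⟨i, hi⟩ := Function.ne_iff.1 h1
    refine ⟨Pi.single i ((Matrix.J l K *ᵥ v) i)⁻¹, ?_⟩
    rw [single_dotProduct]
    exact inv_mul_cancel₀ hi
  refine ⟨rk (u - (1 / 2 * (u ⬝ᵥ (Matrix.J l K *ᵥ v))) • b) b, rk_mem _ _, ?_⟩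
  rw [rk_mulVec, hb, one_smul, sub_dotProduct, smul_dotProduct, hb]
  ext i
  simp only [Pi.add_apply, Pi.sub_apply, Pi.smul_apply, smul_eq_mul]
  ring

/-- A symmetric matrix whose quadratic form vanishes is zero. -/
theorem exists_quad_ne_zero {n : Type*} [Fintype n] [DecidableEq n] (M : Matrix n n K)
    (hM : Mᵀ = M) (h0 : M ≠ 0) : ∃ v : n → K, v ⬝ᵥ (M *ᵥ v) ≠ 0 := by
  by_contra hcon
  push Not at hcon
  apply h0
  ext i j
  have h1 := hcon (Pi.single i 1 + Pi.single j 1)
  have h2 := hcon (Pi.single i 1)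
  have h3 := hcon (Pi.single j 1)
  have hs : ∀ a b : n, (Pi.single a 1 : n → K) ⬝ᵥ (M *ᵥ Pi.single b 1) = M a b := by
    intro a b
    simp
  rw [mulVec_add, dotProduct_add, add_dotProduct, add_dotProduct, hs, hs, hs, hs] at h1
  rw [hs] at h2 h3
  have h4 : M j i = M i j := by
    conv_lhs => rw [← hM]
    rfl
  rw [h2, h3, h4] at h1
  rw [Matrix.zero_apply]
  have h5 : (2 : K) * M i j = 0 := by linear_combination h1
  rcases mul_eq_zero.1 h5 with h6 | h6
  · exact absurd h6 two_ne_zero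
  · exact h6

omit [CharZero K] in
theorem coe_lie (X Y : LieAlgebra.Symplectic.sp l K) :
    ((⁅X, Y⁆ : LieAlgebra.Symplectic.sp l K) : Matrix (l ⊕ l) (l ⊕ l) K) = X * Y - Y * X := rfl

/-- The elements `rk u w` as elements of the Lie algebra. -/
def rkL (u w : l ⊕ l → K) : LieAlgebra.Symplectic.sp l K := ⟨rk u w, rk_mem u w⟩

omit [CharZero K] in
theorem lie_rkL (X : LieAlgebra.Symplectic.sp l K) (u w : l ⊕ l → K) :
    ⁅X, rkL u w⁆ = rkL ((X : Matrix (l ⊕ l) (l ⊕ l) K) *ᵥ u) w +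
      rkL u ((X : Matrix (l ⊕ l) (l ⊕ l) K) *ᵥ w) := by
  apply Subtype.ext
  rw [coe_lie]
  exact lie_rk X.2 u w

/-- Every element is a combination of the elements `rk e_i e_j`. -/
theorem eq_sum_rkL (X : LieAlgebra.Symplectic.sp l K) :
    X = ∑ i, ∑ j, (-(1 / 2) * ((X : Matrix (l ⊕ l) (l ⊕ l) K) * Matrix.J l K) i j) •
      rkL (Pi.single i 1) (Pi.single j 1) := by
  have hX := (mem_sp _).1 X.2
  set M : Matrix (l ⊕ l) (l ⊕ l) K := (X : Matrix (l ⊕ l) (l ⊕ l) K) * Matrix.J l K with hMdef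
  have hMs : Mᵀ = M := by
    rw [hMdef, transpose_mul, J_transpose]
    have h1 : (X : Matrix (l ⊕ l) (l ⊕ l) K)ᵀ * Matrix.J l K * Matrix.J l K =
      -(Matrix.J l K * X) * Matrix.J l K := by rw [hX]
    rw [Matrix.mul_assoc, J_mul_J] at h1
    have h2 : (X : Matrix (l ⊕ l) (l ⊕ l) K)ᵀ = Matrix.J l K * X * Matrix.J l K := by
      have : -(X : Matrix (l ⊕ l) (l ⊕ l) K)ᵀ = -(Matrix.J l K * X * Matrix.J l K) := by
        rw [← Matrix.neg_mul, ← h1, Matrix.mul_neg, Matrix.mul_one]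
      exact neg_injective this
    rw [h2]
    calc -Matrix.J l K * (Matrix.J l K * X * Matrix.J l K) =
        -(Matrix.J l K * Matrix.J l K) * X * Matrix.J l K := by noncomm_ring
      _ = _ := by rw [J_mul_J]; noncomm_ring
  have hXM : (X : Matrix (l ⊕ l) (l ⊕ l) K) = -(M * Matrix.J l K) := by
    rw [hMdef, Matrix.mul_assoc, J_mul_J]; noncomm_ring
  have hM : M = ∑ i, ∑ j, (1 / 2 * M i j) • (vecMulVec (Pi.single i (1 : K)) (Pi.single j (1 : K)) +
      vecMulVec (Pi.single j (1 : K)) (Pi.single i (1 : K))) := by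
    have h3 : ∀ i j : l ⊕ l, vecMulVec (Pi.single i (1 : K)) (Pi.single j (1 : K)) =
        Matrix.single i j 1 := by
      intro i j
      ext a b
      simp only [vecMulVec_apply, Pi.single_apply, Matrix.single_apply]
      by_cases ha : a = i
      · by_cases hb : b = j
        · simp [ha, hb]
        · simp [ha, hb, Ne.symm hb]
      · simp [ha, Ne.symm ha]
    have h4 : ∑ i, ∑ j, (1 / 2 * M i j) • Matrix.single i j (1 : K) = (1 / 2 : K) • M := by
      conv_rhs => rw [matrix_eq_sum_single M]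
      rw [Finset.smul_sum]
      refine Finset.sum_congr rfl fun i _ => ?_
      rw [Finset.smul_sum]
      refine Finset.sum_congr rfl fun j _ => ?_
      rw [Matrix.smul_single, Matrix.smul_single]
      simp
    have h5 : ∑ i, ∑ j, (1 / 2 * M i j) • Matrix.single j i (1 : K) = (1 / 2 : K) • M := by
      rw [Finset.sum_comm]
      conv_rhs => rw [matrix_eq_sum_single M]
      rw [Finset.smul_sum]
      refine Finset.sum_congr rfl fun i _ => ?_
      rw [Finset.smul_sum]
      refine Finset.sum_congr rfl fun j _ => ?_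
      have h6 : M j i = M i j := by
        conv_lhs => rw [← hMs]
        rfl
      rw [Matrix.smul_single, Matrix.smul_single, h6]
      simp
    simp only [h3, smul_add, Finset.sum_add_distrib]
    rw [h4, h5, ← add_smul]
    norm_num
  apply Subtype.ext
  rw [hXM]
  have h7 : ((∑ i, ∑ j, (-(1 / 2) * M i j) • rkL (Pi.single i 1) (Pi.single j 1) :
      LieAlgebra.Symplectic.sp l K) : Matrix (l ⊕ l) (l ⊕ l) K) =
      ∑ i, ∑ j, (-(1 / 2) * M i j) • rk (Pi.single i 1) (Pi.single j 1) := by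
    have h8 : ∀ x : LieAlgebra.Symplectic.sp l K, (x : Matrix (l ⊕ l) (l ⊕ l) K) =
        (LieAlgebra.Symplectic.sp l K).toSubmodule.subtype x := fun _ => rfl
    rw [h8, map_sum]
    refine Finset.sum_congr rfl fun i _ => ?_
    rw [map_sum]
    refine Finset.sum_congr rfl fun j _ => ?_
    rw [map_smul]
    rfl
  rw [h7]
  conv_lhs => rw [hM]
  simp only [rk, Finset.sum_mul, ← Finset.sum_neg_distrib]
  refine Finset.sum_congr rfl fun i _ => Finset.sum_congr rfl fun j _ => ?_
  rw [Matrix.smul_mul, ← neg_smul, neg_mul]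

theorem sp_isSimple [Nonempty l] : LieAlgebra.IsSimple K (LieAlgebra.Symplectic.sp l K) := by
  have key : ∀ I : LieIdeal K (LieAlgebra.Symplectic.sp l K), I ≠ ⊥ → I = ⊤ := by
    intro I hI
    obtain ⟨X, hXI, hX0⟩ : ∃ X ∈ I, X ≠ 0 := by
      by_contra hcon
      push Not at hcon
      exact hI ((LieSubmodule.eq_bot_iff I).2 hcon)
    -- a vector with nonzero value of the quadratic form
    have hX := (mem_sp _).1 X.2
    have hsym : (Matrix.J l K * (X : Matrix (l ⊕ l) (l ⊕ l) K))ᵀ =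
        Matrix.J l K * (X : Matrix (l ⊕ l) (l ⊕ l) K) := by
      rw [transpose_mul, J_transpose, Matrix.mul_neg, hX, neg_neg]
    have hne : Matrix.J l K * (X : Matrix (l ⊕ l) (l ⊕ l) K) ≠ 0 := by
      intro h
      apply hX0
      apply Subtype.ext
      have h2 : Matrix.J l K * (Matrix.J l K * (X : Matrix (l ⊕ l) (l ⊕ l) K)) = -X := by
        rw [← Matrix.mul_assoc, J_mul_J]; noncomm_ring
      rw [h, Matrix.mul_zero] at h2
      simpa using h2.symm
    obtain ⟨v, hv⟩ := exists_quad_ne_zero _ hsym hne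
    have hv0 : v ≠ 0 := by
      rintro rfl
      simp at hv
    have hR : rkL v v ∈ I := by
      have h1 : ⁅rkL v v, ⁅rkL v v, X⁆⁆ = (-4 * (v ⬝ᵥ ((Matrix.J l K * X.1) *ᵥ v))) • rkL v v := by
        apply Subtype.ext
        have hRR : rk v v * rk v v = (0 : Matrix (l ⊕ l) (l ⊕ l) K) := by
          have h2 : rk v v = (2 : K) • (vecMulVec v v * Matrix.J l K) := by
            rw [rk, ← two_smul K, Matrix.smul_mul]
          rw [h2, Matrix.smul_mul, Matrix.mul_smul, Matrix.mul_assoc, ← Matrix.mul_assoc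
            (Matrix.J l K), mul_vecMulVec, ← Matrix.mul_assoc, vecMulVec_mul_vecMulVec,
            dot_J_self]
          simp
        have hRXR : rk v v * X.1 * rk v v =
            (4 * (v ⬝ᵥ ((Matrix.J l K * X.1) *ᵥ v))) • (vecMulVec v v * Matrix.J l K) := by
          have h2 : rk v v = (2 : K) • (vecMulVec v v * Matrix.J l K) := by
            rw [rk, ← two_smul K, Matrix.smul_mul]
          rw [h2]
          have h3 : (vecMulVec v v * Matrix.J l K) * X.1 * (vecMulVec v v * Matrix.J l K) =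
              (vecMulVec v v * ((Matrix.J l K * X.1) * vecMulVec v v)) * Matrix.J l K := by
            noncomm_ring
          rw [Matrix.smul_mul, Matrix.smul_mul, Matrix.mul_smul, h3, mul_vecMulVec,
            vecMulVec_mul_vecMulVec, vecMulVec_smul, Matrix.smul_mul, smul_smul, smul_smul]
          congr 1
          ring
        rw [coe_lie, coe_lie]
        change rk v v * (rk v v * X.1 - X.1 * rk v v) - (rk v v * X.1 - X.1 * rk v v) * rk v v =
          (-4 * (v ⬝ᵥ ((Matrix.J l K * X.1) *ᵥ v))) • rk v v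
        calc rk v v * (rk v v * X.1 - X.1 * rk v v) - (rk v v * X.1 - X.1 * rk v v) * rk v v =
            (rk v v * rk v v) * X.1 + X.1 * (rk v v * rk v v) - (2 : ℕ) • (rk v v * X.1 * rk v v) := by
              noncomm_ring
          _ = _ := by
            rw [hRR, hRXR, rk, ← two_smul K, Matrix.smul_mul]
            rw [Matrix.zero_mul, Matrix.mul_zero, smul_smul, ← Nat.cast_smul_eq_nsmul K,
              smul_smul, add_zero, zero_sub, ← neg_smul]
            congr 1
            push_cast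
            ring
      have h2 : ⁅rkL v v, ⁅rkL v v, X⁆⁆ ∈ I := I.lie_mem (I.lie_mem hXI)
      rw [h1] at h2
      exact (Submodule.smul_mem_iff _ (mul_ne_zero (by norm_num) hv)).1 h2
    have hR2 : ∀ u, rkL u v ∈ I := by
      intro u
      obtain ⟨Y, hY, hYv⟩ := exists_mem_mulVec v u hv0
      have h1 := I.lie_mem (x := ⟨Y, hY⟩) hR
      rw [lie_rkL] at h1
      simp only [hYv] at h1
      have h2 : rkL v u = rkL u v := by
        apply Subtype.ext
        change rk v u = rk u v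
        rw [rk, rk, add_comm]
      rw [h2, ← two_smul K] at h1
      exact (Submodule.smul_mem_iff _ (two_ne_zero)).1 h1
    have hR3 : ∀ u w, rkL u w ∈ I := by
      intro u w
      obtain ⟨Y, hY, hYv⟩ := exists_mem_mulVec v w hv0
      have h1 := I.lie_mem (x := ⟨Y, hY⟩) (hR2 u)
      rw [lie_rkL] at h1
      simp only [hYv] at h1
      have h2 := I.toSubmodule.sub_mem h1 (hR2 (Y *ᵥ u))
      rwa [add_sub_cancel_left] at h2
    rw [eq_top_iff]
    intro Z _
    rw [eq_sum_rkL Z]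
    exact I.toSubmodule.sum_mem fun i _ => I.toSubmodule.sum_mem fun j _ =>
      I.toSubmodule.smul_mem _ (hR3 _ _)
  refine ⟨fun I => or_iff_not_imp_left.2 (key I), ?_⟩
  intro hab
  obtain ⟨i⟩ := (inferInstance : Nonempty l)
  have h1 := hab.trivial (rkL (Pi.single (Sum.inl i) 1) (Pi.single (Sum.inl i) 1))
    (rkL (Pi.single (Sum.inr i) 1) (Pi.single (Sum.inr i) (1 : K)))
  rw [lie_rkL] at h1
  have h2 := congrArg Subtype.val h1
  have h3 := congrFun (congrFun h2 (Sum.inl i)) (Sum.inl i)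
  simp [rkL, rk, Matrix.J, vecMulVec_apply, Matrix.mul_apply,
    Fintype.sum_sum_type, Matrix.one_apply] at h3

end Pool.Agent.Lib.MP_d55432_al.H66
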