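import Pool.Agent.Lib.MP_d55432_al.H66.Simple

/-!
# Traces of powers of the adjoint action and the cube map on the symplectic Lie algebra
-/

namespace Pool.Agent.Lib.MP_d55432_al.H66

open Matrix LieAlgebra

attribute [local instance 100] LieRing.ofAssociativeRing

section matrices

variable {n : Type*} [Fintype n] [DecidableEq n] {K : Type*} [Field K]

theorem trace_matrix (G : Matrix n n K →ₗ[K] Matrix n n K) :
    LinearMap.trace K _ G = ∑ i, ∑ j, G (Matrix.single i j 1) i j := by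
  rw [LinearMap.trace_eq_matrix_trace K (Matrix.stdBasis K n n), Matrix.trace,
    Fintype.sum_prod_type]
  refine Finset.sum_congr rfl fun i _ => Finset.sum_congr rfl fun j _ => ?_
  rw [Matrix.diag_apply, LinearMap.toMatrix_apply, Matrix.stdBasis_eq_single]
  rfl

theorem sum_single (a b : Matrix n n K) :
    ∑ i : n, ∑ j : n, (a * Matrix.single i j (1 : K) * b : Matrix n n K) i j =
      a.trace * b.trace := by
  have h : ∀ i j : n, (a * Matrix.single i j (1 : K) * b : Matrix n n K) i j = a i i * b j j := by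
    intro i j
    rw [Matrix.mul_apply, Finset.sum_eq_single j]
    · simp
    · intro k _ hk
      rw [Matrix.mul_single_apply_of_ne (hbj := hk), zero_mul]
    · simp
  simp only [h]
  rw [Matrix.trace, Matrix.trace, Finset.sum_mul_sum]
  rfl

theorem sum_single' (a b : Matrix n n K) :
    ∑ i : n, ∑ j : n, (a * Matrix.single j i (1 : K) * b : Matrix n n K) i j =
      (a * bᵀ).trace := by
  have h : ∀ i j : n, (a * Matrix.single j i (1 : K) * b : Matrix n n K) i j =
      a i j * bᵀ j i := by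
    intro i j
    rw [Matrix.mul_apply, Finset.sum_eq_single i]
    · simp
    · intro k _ hk
      rw [Matrix.mul_single_apply_of_ne (hbj := hk), zero_mul]
    · simp
  simp only [h]
  rw [Matrix.trace]
  rfl

end matrices

variable {l : Type*} [Fintype l] [DecidableEq l] {K : Type*} [Field K]

theorem sp_transpose {x : Matrix (l ⊕ l) (l ⊕ l) K} (hx : x ∈ LieAlgebra.Symplectic.sp l K) :
    xᵀ = Matrix.J l K * x * Matrix.J l K := by
  rw [mem_sp] at hx
  have h1 : xᵀ * Matrix.J l K * Matrix.J l K = -(Matrix.J l K * x) * Matrix.J l K := by rw [hx]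
  rw [Matrix.mul_assoc, J_mul_J, Matrix.mul_neg, Matrix.mul_one, Matrix.neg_mul] at h1
  exact neg_injective h1

theorem mem_sp_of_transpose {x : Matrix (l ⊕ l) (l ⊕ l) K}
    (hx : xᵀ = Matrix.J l K * x * Matrix.J l K) : x ∈ LieAlgebra.Symplectic.sp l K := by
  rw [mem_sp, hx, Matrix.mul_assoc, J_mul_J, Matrix.mul_neg, Matrix.mul_one]

theorem J_mul_J_mul (M : Matrix (l ⊕ l) (l ⊕ l) K) :
    Matrix.J l K * (Matrix.J l K * M) = -M := by
  rw [← Matrix.mul_assoc, J_mul_J, Matrix.neg_mul, Matrix.one_mul]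

/-- The projection onto the symplectic Lie algebra. -/
theorem proj_mem (y : Matrix (l ⊕ l) (l ⊕ l) K) :
    (1 / 2 : K) • (y + Matrix.J l K * yᵀ * Matrix.J l K) ∈ LieAlgebra.Symplectic.sp l K := by
  apply mem_sp_of_transpose
  rw [transpose_smul, transpose_add, transpose_mul, transpose_mul, transpose_transpose,
    J_transpose, Matrix.mul_smul, Matrix.smul_mul]
  congr 1
  simp only [Matrix.mul_add, Matrix.add_mul, Matrix.mul_assoc, J_mul_J, J_mul_J_mul,
    Matrix.neg_mul, Matrix.mul_neg, Matrix.mul_one, neg_neg]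
  rw [add_comm]

/-- The projection onto the symplectic Lie algebra. -/
def proj : Matrix (l ⊕ l) (l ⊕ l) K →ₗ[K] LieAlgebra.Symplectic.sp l K where
  toFun y := ⟨(1 / 2 : K) • (y + Matrix.J l K * yᵀ * Matrix.J l K), proj_mem y⟩
  map_add' y z := by
    apply Subtype.ext
    change (1 / 2 : K) • (y + z + Matrix.J l K * (y + z)ᵀ * Matrix.J l K) =
      (1 / 2 : K) • (y + Matrix.J l K * yᵀ * Matrix.J l K) +
      (1 / 2 : K) • (z + Matrix.J l K * zᵀ * Matrix.J l K)
    rw [transpose_add, Matrix.mul_add, Matrix.add_mul, ← smul_add]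
    congr 1
    abel
  map_smul' c y := by
    apply Subtype.ext
    change (1 / 2 : K) • (c • y + Matrix.J l K * (c • y)ᵀ * Matrix.J l K) =
      c • (1 / 2 : K) • (y + Matrix.J l K * yᵀ * Matrix.J l K)
    rw [transpose_smul, Matrix.mul_smul, Matrix.smul_mul, ← smul_add, smul_comm]

variable [CharZero K]

theorem proj_coe (x : LieAlgebra.Symplectic.sp l K) : proj (x : Matrix (l ⊕ l) (l ⊕ l) K) = x := by
  apply Subtype.ext
  change (1 / 2 : K) • (x.1 + Matrix.J l K * x.1ᵀ * Matrix.J l K) = x.1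
  rw [sp_transpose x.2]
  simp only [Matrix.mul_assoc, J_mul_J_mul]
  rw [Matrix.neg_mul, Matrix.mul_assoc, J_mul_J, Matrix.mul_neg, neg_neg, Matrix.mul_one,
    ← two_smul K, smul_smul]
  norm_num

/-- Traces over the symplectic Lie algebra. -/
theorem trace_sp (F : LieAlgebra.Symplectic.sp l K →ₗ[K] LieAlgebra.Symplectic.sp l K) :
    LinearMap.trace K _ F = ∑ i, ∑ j, (F (proj (Matrix.single i j 1)) :
      Matrix (l ⊕ l) (l ⊕ l) K) i j := by
  have h1 : F = (F ∘ₗ proj) ∘ₗ (LieAlgebra.Symplectic.sp l K).toSubmodule.subtype := by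
    ext x : 1
    change F x = F (proj (x : Matrix (l ⊕ l) (l ⊕ l) K))
    rw [proj_coe]
  conv_lhs => rw [h1]
  rw [LinearMap.trace_comp_comm', trace_matrix]
  rfl

omit [CharZero K] in
theorem sp_pow_transpose {x : Matrix (l ⊕ l) (l ⊕ l) K} (hx : x ∈ LieAlgebra.Symplectic.sp l K)
    (k : ℕ) : Matrix.J l K * (x ^ k)ᵀ * Matrix.J l K = -((-1 : K) ^ k • x ^ k) := by
  induction k with
  | zero => simp [J_mul_J]
  | succ k ih =>
    have h1 : (x ^ (k + 1))ᵀ = (Matrix.J l K * x * Matrix.J l K) * (x ^ k)ᵀ := by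
      rw [pow_succ, transpose_mul, sp_transpose hx]
    rw [h1]
    calc Matrix.J l K * (Matrix.J l K * x * Matrix.J l K * (x ^ k)ᵀ) * Matrix.J l K =
        (Matrix.J l K * Matrix.J l K) * x * (Matrix.J l K * (x ^ k)ᵀ * Matrix.J l K) := by
          noncomm_ring
      _ = _ := by
        rw [ih, J_mul_J, pow_succ', pow_succ', Matrix.mul_neg, Matrix.mul_smul, Matrix.neg_mul,
          Matrix.one_mul, Matrix.neg_mul, smul_neg, neg_one_mul, neg_smul]

theorem trace_odd {x : Matrix (l ⊕ l) (l ⊕ l) K} (hx : x ∈ LieAlgebra.Symplectic.sp l K)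
    (k : ℕ) (hk : Odd k) : (x ^ k).trace = 0 := by
  have h1 := congrArg Matrix.trace (sp_pow_transpose hx k)
  rw [Matrix.trace_mul_cycle, J_mul_J, Matrix.neg_mul, Matrix.one_mul, Matrix.trace_neg,
    Matrix.trace_transpose, hk.neg_one_pow, Matrix.trace_neg] at h1
  rw [neg_smul, one_smul, Matrix.trace_neg] at h1
  have h2 : (2 : K) * (x ^ k).trace = 0 := by linear_combination -h1
  rcases mul_eq_zero.1 h2 with h3 | h3
  · exact absurd h3 two_ne_zero
  · exact h3

omit [CharZero K] in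
theorem sum_proj (x : Matrix (l ⊕ l) (l ⊕ l) K) (hx : x ∈ LieAlgebra.Symplectic.sp l K)
    (a b : ℕ) : ∑ i : l ⊕ l, ∑ j : l ⊕ l, (x ^ a * (proj (Matrix.single i j (1 : K)) :
      Matrix (l ⊕ l) (l ⊕ l) K) * x ^ b : Matrix (l ⊕ l) (l ⊕ l) K) i j = 1 / 2 * ((x ^ a).trace * (x ^ b).trace + (-1) ^ b * (x ^ (a + b)).trace) := by
  have h1 : ∀ i j : l ⊕ l, (x ^ a * (proj (Matrix.single i j (1 : K)) :
      Matrix (l ⊕ l) (l ⊕ l) K) * x ^ b : Matrix (l ⊕ l) (l ⊕ l) K) i j =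
      1 / 2 * ((x ^ a * Matrix.single i j (1 : K) * x ^ b : Matrix (l ⊕ l) (l ⊕ l) K) i j +
      ((x ^ a * Matrix.J l K) * Matrix.single j i (1 : K) * (Matrix.J l K * x ^ b) :
      Matrix (l ⊕ l) (l ⊕ l) K) i j) := by
    intro i j
    change (x ^ a * ((1 / 2 : K) • (Matrix.single i j (1 : K) + Matrix.J l K *
      (Matrix.single i j (1 : K))ᵀ * Matrix.J l K)) * x ^ b : Matrix (l ⊕ l) (l ⊕ l) K) i j = _
    rw [Matrix.mul_smul, Matrix.smul_mul, Matrix.smul_apply, smul_eq_mul, Matrix.mul_add,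
      Matrix.add_mul, Matrix.add_apply, transpose_single]
    simp only [Matrix.mul_assoc]
  simp only [h1, ← Finset.mul_sum, Finset.sum_add_distrib]
  rw [sum_single, sum_single', transpose_mul, J_transpose]
  congr 2
  have h2 : x ^ a * Matrix.J l K * ((x ^ b)ᵀ * -Matrix.J l K) =
      -(x ^ a * (Matrix.J l K * (x ^ b)ᵀ * Matrix.J l K)) := by noncomm_ring
  rw [h2, sp_pow_transpose hx, Matrix.mul_neg, neg_neg, Matrix.mul_smul, ← pow_add,
    Matrix.trace_smul, smul_eq_mul]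

omit [CharZero K] in
theorem coe_ad_two (x y : LieAlgebra.Symplectic.sp l K) :
    (((LieAlgebra.ad K _ x) ^ 2) y : Matrix (l ⊕ l) (l ⊕ l) K) =
      x.1 ^ 2 * y.1 * x.1 ^ 0 - (2 : K) • (x.1 ^ 1 * y.1 * x.1 ^ 1) + x.1 ^ 0 * y.1 * x.1 ^ 2 := by
  change ((⁅x, ⁅x, y⁆⁆ : LieAlgebra.Symplectic.sp l K) : Matrix (l ⊕ l) (l ⊕ l) K) = _
  rw [coe_lie, coe_lie]
  have h2 : ∀ M : Matrix (l ⊕ l) (l ⊕ l) K, (2 : K) • M = (2 : ℕ) • M := fun M => by
    rw [← Nat.cast_smul_eq_nsmul K]; norm_num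
  rw [h2]
  noncomm_ring

omit [CharZero K] in
theorem coe_ad_four (x y : LieAlgebra.Symplectic.sp l K) :
    (((LieAlgebra.ad K _ x) ^ 4) y : Matrix (l ⊕ l) (l ⊕ l) K) =
      x.1 ^ 4 * y.1 * x.1 ^ 0 - (4 : K) • (x.1 ^ 3 * y.1 * x.1 ^ 1) +
        (6 : K) • (x.1 ^ 2 * y.1 * x.1 ^ 2) - (4 : K) • (x.1 ^ 1 * y.1 * x.1 ^ 3) +
        x.1 ^ 0 * y.1 * x.1 ^ 4 := by
  change ((⁅x, ⁅x, ⁅x, ⁅x, y⁆⁆⁆⁆ : LieAlgebra.Symplectic.sp l K) :
    Matrix (l ⊕ l) (l ⊕ l) K) = _
  rw [coe_lie, coe_lie, coe_lie, coe_lie]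
  have h4 : ∀ M : Matrix (l ⊕ l) (l ⊕ l) K, (4 : K) • M = (4 : ℕ) • M := fun M => by
    rw [← Nat.cast_smul_eq_nsmul K]; norm_num
  have h6 : ∀ M : Matrix (l ⊕ l) (l ⊕ l) K, (6 : K) • M = (6 : ℕ) • M := fun M => by
    rw [← Nat.cast_smul_eq_nsmul K]; norm_num
  rw [h4, h4, h6]
  noncomm_ring

theorem trace_ad_two (x : LieAlgebra.Symplectic.sp l K) :
    LinearMap.trace K _ ((LieAlgebra.ad K _ x) ^ 2) =
      (2 * Fintype.card l + 2) * (x.1 ^ 2).trace := by
  rw [trace_sp]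
  simp only [coe_ad_two, Matrix.add_apply, Matrix.sub_apply, Matrix.smul_apply, smul_eq_mul,
    Finset.sum_add_distrib, Finset.sum_sub_distrib, ← Finset.mul_sum]
  rw [sum_proj x.1 x.2, sum_proj x.1 x.2, sum_proj x.1 x.2, trace_odd x.2 1 (by decide)]
  simp only [pow_zero, Matrix.trace_one, Fintype.card_sum]
  push_cast
  ring

theorem trace_ad_four (x : LieAlgebra.Symplectic.sp l K) :
    LinearMap.trace K _ ((LieAlgebra.ad K _ x) ^ 4) =
      (2 * Fintype.card l + 8) * (x.1 ^ 4).trace + 3 * (x.1 ^ 2).trace ^ 2 := by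
  rw [trace_sp]
  simp only [coe_ad_four, Matrix.add_apply, Matrix.sub_apply, Matrix.smul_apply, smul_eq_mul,
    Finset.sum_add_distrib, Finset.sum_sub_distrib, ← Finset.mul_sum]
  rw [sum_proj x.1 x.2, sum_proj x.1 x.2, sum_proj x.1 x.2, sum_proj x.1 x.2, sum_proj x.1 x.2,
    trace_odd x.2 1 (by decide), trace_odd x.2 3 (by decide)]
  simp only [pow_zero, Matrix.trace_one, Fintype.card_sum]
  push_cast
  ring

omit [CharZero K] in
/-- Traces of powers of the adjoint action are invariant under automorphisms. -/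
theorem trace_ad_equiv {L : Type*} [LieRing L] [LieAlgebra K L] (φ : L ≃ₗ⁅K⁆ L) (x : L) (k : ℕ) :
    LinearMap.trace K _ ((LieAlgebra.ad K L (φ x)) ^ k) =
      LinearMap.trace K _ ((LieAlgebra.ad K L x) ^ k) := by
  have h1 : LieAlgebra.ad K L (φ x) = φ.toLinearEquiv.conj (LieAlgebra.ad K L x) := by
    ext y
    rw [LinearEquiv.conj_apply]
    change ⁅φ x, y⁆ = φ ⁅x, φ.symm y⁆
    rw [LieEquiv.map_lie, LieEquiv.apply_symm_apply]
  rw [h1, ← LinearMap.trace_conj' ((LieAlgebra.ad K L x) ^ k) φ.toLinearEquiv]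
  congr 1
  exact (map_pow φ.toLinearEquiv.conjRingEquiv (LieAlgebra.ad K L x) k).symm

theorem trace_sq_equiv (φ : LieAlgebra.Symplectic.sp l K ≃ₗ⁅K⁆ LieAlgebra.Symplectic.sp l K)
    (x : LieAlgebra.Symplectic.sp l K) : ((φ x).1 ^ 2).trace = (x.1 ^ 2).trace := by
  have h := trace_ad_equiv φ x 2
  rw [trace_ad_two, trace_ad_two] at h
  refine mul_left_cancel₀ ?_ h
  exact_mod_cast (Nat.succ_ne_zero (2 * Fintype.card l + 1))

theorem trace_four_equiv (φ : LieAlgebra.Symplectic.sp l K ≃ₗ⁅K⁆ LieAlgebra.Symplectic.sp l K)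
    (x : LieAlgebra.Symplectic.sp l K) : ((φ x).1 ^ 4).trace = (x.1 ^ 4).trace := by
  have h := trace_ad_equiv φ x 4
  rw [trace_ad_four, trace_ad_four, trace_sq_equiv] at h
  refine mul_left_cancel₀ ?_ (add_right_cancel h)
  exact_mod_cast (Nat.succ_ne_zero (2 * Fintype.card l + 7))

theorem trace_mul_equiv (φ : LieAlgebra.Symplectic.sp l K ≃ₗ⁅K⁆ LieAlgebra.Symplectic.sp l K)
    (x y : LieAlgebra.Symplectic.sp l K) : ((φ x).1 * (φ y).1).trace = (x.1 * y.1).trace := by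
  have h : ∀ u v : LieAlgebra.Symplectic.sp l K, ((u + v).1 ^ 2).trace =
      (u.1 ^ 2).trace + 2 * (u.1 * v.1).trace + (v.1 ^ 2).trace := by
    intro u v
    have h1 : (u + v).1 ^ 2 = u.1 ^ 2 + u.1 * v.1 + v.1 * u.1 + v.1 ^ 2 := by
      change (u.1 + v.1) ^ 2 = _
      noncomm_ring
    rw [h1, Matrix.trace_add, Matrix.trace_add, Matrix.trace_add, Matrix.trace_mul_comm v.1 u.1]
    ring
  have h1 := trace_sq_equiv φ (x + y)
  rw [map_add, h, h, trace_sq_equiv, trace_sq_equiv] at h1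
  have h2 : (2 : K) * ((φ x).1 * (φ y).1).trace = 2 * (x.1 * y.1).trace := by
    linear_combination h1
  exact mul_left_cancel₀ two_ne_zero h2

theorem trace_nondeg (z : LieAlgebra.Symplectic.sp l K)
    (hz : ∀ y : LieAlgebra.Symplectic.sp l K, (z.1 * y.1).trace = 0) : z = 0 := by
  have h1 : ∀ u w : l ⊕ l → K, w ⬝ᵥ ((Matrix.J l K * z.1) *ᵥ u) = 0 := by
    intro u w
    have h2 := hz (rkL u w)
    have hz' := (mem_sp _).1 z.2
    have h3 : ∀ p q : l ⊕ l → K, (z.1 * (vecMulVec p q * Matrix.J l K)).trace =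
        q ⬝ᵥ ((Matrix.J l K * z.1) *ᵥ p) := by
      intro p q
      rw [← Matrix.mul_assoc, Matrix.trace_mul_comm, ← Matrix.mul_assoc, mul_vecMulVec,
        trace_vecMulVec, dotProduct_comm]
    change (z.1 * ((vecMulVec u w + vecMulVec w u) * Matrix.J l K)).trace = 0 at h2
    rw [Matrix.add_mul, Matrix.mul_add, Matrix.trace_add, h3, h3] at h2
    have hsym : (Matrix.J l K * z.1)ᵀ = Matrix.J l K * z.1 := by
      rw [transpose_mul, J_transpose, Matrix.mul_neg, hz', neg_neg]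
    have h4 : u ⬝ᵥ ((Matrix.J l K * z.1) *ᵥ w) = w ⬝ᵥ ((Matrix.J l K * z.1) *ᵥ u) := by
      rw [dotProduct_mulVec, ← mulVec_transpose, hsym, dotProduct_comm]
    rw [h4] at h2
    have h5 : (2 : K) * (w ⬝ᵥ ((Matrix.J l K * z.1) *ᵥ u)) = 0 := by linear_combination h2
    rcases mul_eq_zero.1 h5 with h6 | h6
    · exact absurd h6 two_ne_zero
    · exact h6
  have h2 : Matrix.J l K * z.1 = 0 := by
    ext i j
    have h3 := h1 (Pi.single j 1) (Pi.single i 1)
    simpa using h3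
  apply Subtype.ext
  have h3 := J_mul_J_mul z.1
  rw [h2, Matrix.mul_zero] at h3
  simpa using h3.symm

omit [CharZero K] in
theorem cube_mem (x : LieAlgebra.Symplectic.sp l K) :
    x.1 ^ 3 ∈ LieAlgebra.Symplectic.sp l K := by
  apply mem_sp_of_transpose
  have h := sp_pow_transpose x.2 3
  have h2 : (x.1 ^ 3)ᵀ = Matrix.J l K * (Matrix.J l K * (x.1 ^ 3)ᵀ * Matrix.J l K) *
      Matrix.J l K := by
    simp only [Matrix.mul_assoc, J_mul_J_mul]
    rw [Matrix.neg_mul, Matrix.mul_assoc, J_mul_J, Matrix.mul_neg, neg_neg, Matrix.mul_one]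
  rw [h2, h]
  norm_num

/-- The cube map. -/
def cube (x : LieAlgebra.Symplectic.sp l K) : LieAlgebra.Symplectic.sp l K := ⟨x.1 ^ 3, cube_mem x⟩

omit [CharZero K] in
theorem trace_add_four_sub (x y : Matrix (l ⊕ l) (l ⊕ l) K) :
    ((x + y) ^ 4).trace - ((x - y) ^ 4).trace = 8 * (x ^ 3 * y).trace + 8 * (y ^ 3 * x).trace := by
  have h1 : (x + y) ^ 4 - (x - y) ^ 4 = (2 : ℕ) • (x ^ 3 * y + x * (x * y * x) + (x * y * x) * x +
      y * x ^ 3 + y ^ 3 * x + y * (y * x * y) + (y * x * y) * y + x * y ^ 3) := by noncomm_ring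
  rw [← Matrix.trace_sub, h1, Matrix.trace_smul]
  simp only [Matrix.trace_add]
  have h2 : (x * (x * y * x)).trace = (x ^ 3 * y).trace := by
    have : x * (x * y * x) = (x ^ 2 * y) * x := by noncomm_ring
    rw [this, Matrix.trace_mul_comm]
    congr 1; noncomm_ring
  have h3 : ((x * y * x) * x).trace = (x ^ 3 * y).trace := by
    have : (x * y * x) * x = (x * y) * x ^ 2 := by noncomm_ring
    rw [this, Matrix.trace_mul_comm]
    congr 1; noncomm_ring
  have h4 : (y * x ^ 3).trace = (x ^ 3 * y).trace := Matrix.trace_mul_comm _ _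
  have h5 : (y * (y * x * y)).trace = (y ^ 3 * x).trace := by
    have : y * (y * x * y) = (y ^ 2 * x) * y := by noncomm_ring
    rw [this, Matrix.trace_mul_comm]
    congr 1; noncomm_ring
  have h6 : ((y * x * y) * y).trace = (y ^ 3 * x).trace := by
    have : (y * x * y) * y = (y * x) * y ^ 2 := by noncomm_ring
    rw [this, Matrix.trace_mul_comm]
    congr 1; noncomm_ring
  have h7 : (x * y ^ 3).trace = (y ^ 3 * x).trace := Matrix.trace_mul_comm _ _
  rw [h2, h3, h4, h5, h6, h7]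
  simp only [nsmul_eq_mul]
  push_cast
  ring

/-- The cube map commutes with all automorphisms. -/
theorem cube_equiv (φ : LieAlgebra.Symplectic.sp l K ≃ₗ⁅K⁆ LieAlgebra.Symplectic.sp l K)
    (x : LieAlgebra.Symplectic.sp l K) : cube (φ x) = φ (cube x) := by
  have key : ∀ y : LieAlgebra.Symplectic.sp l K,
      ((φ x).1 ^ 3 * (φ y).1).trace = (x.1 ^ 3 * y.1).trace := by
    intro y
    have hg : ∀ (y : LieAlgebra.Symplectic.sp l K), 8 * ((φ x).1 ^ 3 * (φ y).1).trace +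
        8 * ((φ y).1 ^ 3 * (φ x).1).trace = 8 * (x.1 ^ 3 * y.1).trace +
        8 * (y.1 ^ 3 * x.1).trace := by
      intro y
      rw [← trace_add_four_sub, ← trace_add_four_sub]
      have h1 : (φ x).1 + (φ y).1 = (φ (x + y)).1 := by rw [map_add]; rfl
      have h2 : (φ x).1 - (φ y).1 = (φ (x - y)).1 := by rw [map_sub]; rfl
      rw [h1, h2, trace_four_equiv, trace_four_equiv]
      rfl
    have h1 := hg y
    have h2 := hg ((2 : K) • y)
    have h3 : (φ ((2 : K) • y)).1 = (2 : K) • (φ y).1 := by rw [map_smul]; rfl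
    have h4 : ((2 : K) • y).1 = (2 : K) • y.1 := rfl
    rw [h3, h4] at h2
    simp only [Matrix.mul_smul, smul_pow, Matrix.smul_mul, Matrix.trace_smul, smul_eq_mul] at h2
    have h5 : (48 : K) * ((φ x).1 ^ 3 * (φ y).1).trace = 48 * (x.1 ^ 3 * y.1).trace := by
      linear_combination 8 * h1 - h2
    exact mul_left_cancel₀ (by norm_num) h5
  rw [← sub_eq_zero]
  apply trace_nondeg
  intro y
  have h1 : ((cube (φ x) - φ (cube x)).1 * y.1).trace =
      ((φ x).1 ^ 3 * y.1).trace - ((φ (cube x)).1 * y.1).trace := by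
    rw [← Matrix.trace_sub, ← Matrix.sub_mul]
    rfl
  have h2 := key (φ.symm y)
  rw [LieEquiv.apply_symm_apply] at h2
  have h3 := trace_mul_equiv φ (cube x) (φ.symm y)
  rw [LieEquiv.apply_symm_apply] at h3
  rw [h1, h2, h3]
  exact sub_self _

end Pool.Agent.Lib.MP_d55432_al.H66
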